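import Pool.Agent.Work.MP_f714fc_ag.Geo.CohAb
import Pool.Agent.Work.MP_f714fc_ag.Tw.Mk

/-!
# The linear structure of sheaves of modules on a scheme over a ring
-/

open CategoryTheory Limits TopologicalSpace AlgebraicGeometry Opposite

attribute [-instance] CategoryTheory.catToReflQuiver

universe u

namespace Fdim

noncomputable section

variable {X : Scheme.{u}}

/-- scalars acting on the morphisms of sheaves of modules -/
def smulHom {M N : X.Modules} (c : Γ(X, (⊤ : X.Opens))) (f : M ⟶ N) : M ⟶ N :=
  homMk (fun V => (DistribSMul.toAddMonoidHom Γ(N, V) (rO le_top c : Γ(X, V))).comp (ap f V))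
    (fun V r s => by
      simp only [AddMonoidHom.comp_apply, DistribSMul.toAddMonoidHom_apply, ap_smul]
      rw [smul_comm])
    (fun {V W} h s => by
      simp only [AddMonoidHom.comp_apply, DistribSMul.toAddMonoidHom_apply, ap_rs, rs_smul,
        rO_rO])

@[simp] theorem ap_smulHom {M N : X.Modules} (c : Γ(X, (⊤ : X.Opens))) (f : M ⟶ N)
    (V : X.Opens) (s : Γ(M, V)) :
    ap (smulHom c f) V s = (rO le_top c : Γ(X, V)) • ap f V s := rfl

/-- the linear structure of the category of sheaves of modules given by scalars -/
@[implicit_reducible]
def linearOf {k : Type u} [CommRing k] (c : k →+* Γ(X, (⊤ : X.Opens))) :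
    Linear k X.Modules where
  homModule M N :=
    { smul := fun a f => smulHom (c a) f
      one_smul := fun f => hom_ext' (fun V s => by
        change ap (smulHom (c 1) f) V s = _
        simp)
      mul_smul := fun a b f => hom_ext' (fun V s => by
        change ap (smulHom (c (a * b)) f) V s = ap (smulHom (c a) (smulHom (c b) f)) V s
        simp [mul_smul])
      smul_zero := fun a => hom_ext' (fun V s => by
        change ap (smulHom (c a) 0) V s = _
        simp)
      smul_add := fun a f g => hom_ext' (fun V s => by
        change ap (smulHom (c a) (f + g)) V s = ap (smulHom (c a) f + smulHom (c a) g) V s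
        simp)
      add_smul := fun a b f => hom_ext' (fun V s => by
        change ap (smulHom (c (a + b)) f) V s = ap (smulHom (c a) f + smulHom (c b) f) V s
        simp [add_smul])
      zero_smul := fun f => hom_ext' (fun V s => by
        change ap (smulHom (c 0) f) V s = _
        simp) }
  smul_comp M N K a f g := hom_ext' (fun V s => by
    change ap (smulHom (c a) f ≫ g) V s = ap (smulHom (c a) (f ≫ g)) V s
    simp)
  comp_smul M N K f a g := hom_ext' (fun V s => by
    change ap (f ≫ smulHom (c a) g) V s = ap (smulHom (c a) (f ≫ g)) V s
    simp)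

/-- the scalars of a scheme over `Spec k` -/
def scal (k : Type u) [CommRing k] (X : Scheme.{u}) [X.Over (Spec (.of k))] :
    k →+* Γ(X, (⊤ : X.Opens)) :=
  ((Scheme.ΓSpecIso (.of k)).inv ≫ (X ↘ Spec (.of k)).appTop).hom

/-- There is a linear structure on the category of sheaves of modules on a scheme over k such that
the scalars act on the sections by multiplication. -/
theorem exists_linear (k : Type u) [CommRing k] (X : Scheme.{u}) [X.Over (Spec (.of k))] :
    ∃ _ : Linear k X.Modules, ∀ (a : k) {M N : X.Modules} (f : M ⟶ N) (V : X.Opens)
      (s : Γ(M, V)), ap (a • f) V s = (rO le_top (scal k X a) : Γ(X, V)) • ap f V s :=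
  ⟨linearOf (scal k X), fun _ _ _ _ _ _ => rfl⟩

/-- the linear structure of the category of sheaves of modules on a scheme over k -/
instance linearModules (k : Type u) [CommRing k] (X : Scheme.{u}) [X.Over (Spec (.of k))] :
    Linear k X.Modules :=
  (exists_linear k X).choose

theorem ap_linear {k : Type u} [CommRing k] [X.Over (Spec (.of k))] (a : k) {M N : X.Modules}
    (f : M ⟶ N) (V : X.Opens) (s : Γ(M, V)) :
    ap (a • f) V s = (rO le_top (scal k X a) : Γ(X, V)) • ap f V s :=
  (exists_linear k X).choose_spec a f V s

instance linearCoh (k : Type u) [CommRing k] (X : Scheme.{u}) [X.Over (Spec (.of k))] :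
    Linear k (Coh X) :=
  Linear.fullSubcategory (IsCoh X)

end

end Fdim
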