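import Pool.Agent.Work.MP_f714fc_ag.Geo.QCoh

/-!
# Coherent sheaves on a locally noetherian scheme
-/

open CategoryTheory Limits TopologicalSpace AlgebraicGeometry Opposite

universe u

namespace Fdim

/-- Coherent sheaves: quasi-coherent, with finitely generated sections on affine open subsets.
(Used on locally noetherian schemes only.) -/
def IsCoh (X : Scheme.{u}) : ObjectProperty X.Modules := fun M =>
  M.IsQuasicoherent ∧ ∀ U : X.affineOpens, Module.Finite Γ(X, U) Γ(M, U)

/-- the category of coherent sheaves -/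
abbrev Coh (X : Scheme.{u}) := (IsCoh X).FullSubcategory

noncomputable section

variable {X : Scheme.{u}}

/-- a quasi-coherent quotient of a coherent sheaf is coherent -/
theorem isCoh_of_epi {M N : X.Modules} (q : M ⟶ N) [Epi q] (hM : IsCoh X M)
    (hN : N.IsQuasicoherent) : IsCoh X N := by
  refine ⟨hN, fun U => ?_⟩
  have := hM.2 U
  let f : Γ(M, U.1) →ₗ[Γ(X, U.1)] Γ(N, U.1) := ((secF U.1).map q).hom
  exact Module.Finite.of_surjective f (ap_surjective hM.1 hN q U.2)

/-- a quasi-coherent subsheaf of a coherent sheaf is coherent -/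
theorem isCoh_of_mono [IsLocallyNoetherian X] {M N : X.Modules} (i : M ⟶ N) [Mono i]
    (hN : IsCoh X N) (hM : M.IsQuasicoherent) : IsCoh X M := by
  refine ⟨hM, fun U => ?_⟩
  have := hN.2 U
  have := IsLocallyNoetherian.component_noetherian U
  let f : Γ(M, U.1) →ₗ[Γ(X, U.1)] Γ(N, U.1) := ((secF U.1).map i).hom
  exact Module.Finite.of_injective f (ap_injective i U.1)

instance : (IsCoh X).IsClosedUnderIsomorphisms where
  of_iso e h := isCoh_of_epi e.hom h (isQuasicoherent_of_iso e h.1)

theorem isCoh_of_isZero {M : X.Modules} (h : IsZero M) : IsCoh X M := by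
  refine ⟨isQuasicoherent_of_isZero h, fun U => ?_⟩
  have h0 : ∀ s : Γ(M, U.1), s = 0 := by
    intro s
    have h1 : (𝟙 M : M ⟶ M) = 0 := h.eq_of_src _ _
    have h2 : ap (𝟙 M) U.1 s = ap (0 : M ⟶ M) U.1 s := by rw [h1]
    exact h2
  have : Subsingleton Γ(M, U) := ⟨fun a b => (h0 a).trans (h0 b).symm⟩
  infer_instance

instance : (IsCoh X).ContainsZero where
  exists_zero := by
    obtain ⟨Z, hZ⟩ := HasZeroObject.zero (C := X.Modules)
    exact ⟨Z, hZ, isCoh_of_isZero hZ⟩

instance [IsLocallyNoetherian X] : (IsCoh X).IsClosedUnderKernels where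
  kernels_le := by
    rintro _ ⟨f, k, hk, hf⟩
    let S : ShortComplex X.Modules := ShortComplex.mk k.ι f k.condition
    have : Mono S.f := Fork.IsLimit.mono hk
    have hS : S.Exact := S.exact_of_f_is_kernel
      (IsLimit.ofIsoLimit hk (Fork.ext (Iso.refl _)))
    exact isCoh_of_mono S.f hf.1 (isQuasicoherent_of_mono_exact hS hf.1.1 hf.2.1)

instance : (IsCoh X).IsClosedUnderCokernels where
  cokernels_le := by
    rintro _ ⟨f, k, hk, hf⟩
    have : Epi k.π := Cofork.IsColimit.epi hk
    refine isCoh_of_epi k.π hf.2 ?_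
    exact isQuasicoherent_of_iso ((cokernelIsCokernel f).coconePointUniqueUpToIso hk)
      (isQuasicoherent_cokernel hf.1.1 hf.2.1 f)

/-- extensions, with surjectivity on sections -/
theorem isCoh_of_extension {S : ShortComplex X.Modules} (hS : S.ShortExact)
    (h1 : IsCoh X S.X₁) (h3 : IsCoh X S.X₃)
    (hs : ∀ (U : X.Opens) (_ : IsAffineOpen U), Function.Surjective (ap S.g U)) :
    IsCoh X S.X₂ := by
  refine ⟨isQuasicoherent_of_extension hS h1.1 h3.1 hs, fun U => ?_⟩
  have := hS.mono_f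
  have f1 := h1.2 U
  have f3 := h3.2 U
  let f : Γ(S.X₁, U.1) →ₗ[Γ(X, U.1)] Γ(S.X₂, U.1) := ((secF U.1).map S.f).hom
  let g : Γ(S.X₂, U.1) →ₗ[Γ(X, U.1)] Γ(S.X₃, U.1) := ((secF U.1).map S.g).hom
  refine ⟨Submodule.fg_of_fg_map_of_fg_inf_ker g ?_ ?_⟩
  · have h : Submodule.map g ⊤ = ⊤ := by
      rw [Submodule.map_top, LinearMap.range_eq_top]
      exact hs U.1 U.2
    rw [h]
    exact f3.1
  · have h : (⊤ : Submodule Γ(X, U.1) Γ(S.X₂, U.1)) ⊓ LinearMap.ker g = Submodule.map f ⊤ := by
      rw [top_inf_eq]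
      ext s
      simp only [LinearMap.mem_ker, Submodule.map_top, LinearMap.mem_range]
      constructor
      · intro h
        exact exists_ap_eq hS.exact U.1 s h
      · rintro ⟨t, rfl⟩
        change ap S.g U.1 (ap S.f U.1 t) = 0
        rw [← ap_comp, S.zero, ap_zero]
    rw [h]
    exact f1.1.map f

theorem isCoh_biprod {M N : X.Modules} (hM : IsCoh X M) (hN : IsCoh X N) :
    IsCoh X (M ⊞ N) := by
  refine isCoh_of_extension (ShortComplex.Splitting.ofHasBinaryBiproduct M N).shortExact hM hN ?_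
  intro U _ s
  refine ⟨ap biprod.inr U s, ?_⟩
  change ap biprod.snd U (ap biprod.inr U s) = s
  rw [← ap_comp, biprod.inr_snd, ap_id]

instance : (IsCoh X).IsClosedUnderLimitsOfShape (Discrete WalkingPair) where
  limitsOfShape_le := by
    rintro Z ⟨p⟩
    have e : Z ≅ p.diag.obj ⟨WalkingPair.left⟩ ⊞ p.diag.obj ⟨WalkingPair.right⟩ :=
      IsLimit.conePointsIsoOfNatIso p.isLimit
        (BinaryBiproduct.isLimit (p.diag.obj ⟨WalkingPair.left⟩) (p.diag.obj ⟨WalkingPair.right⟩))
        (diagramIsoPair _)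
    exact (IsCoh X).prop_of_iso e.symm (isCoh_biprod (p.prop_diag_obj _) (p.prop_diag_obj _))

instance : (IsCoh X).IsClosedUnderFiniteProducts :=
  ObjectProperty.IsClosedUnderFiniteProducts.mk'

instance [IsLocallyNoetherian X] : Abelian (Coh X) := inferInstance

set_option backward.isDefEq.respectTransparency false in
theorem isQuasicoherent_unit : (SheafOfModules.unit X.ringCatSheaf).IsQuasicoherent := by
  refine isQuasicoherent_of_affine (X := X) (SheafOfModules.unit X.ringCatSheaf) ?_
  intro x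
  obtain ⟨U, hU, hx, -⟩ := Opens.isBasis_iff_nbhd.1 X.isBasis_affineOpens (Opens.mem_top x)
  refine ⟨U, hx, hU, ?_⟩
  refine isQuasicoherent_of_iso (tildeSelf ≪≫ (Scheme.Modules.restrictUnitIso hU.fromSpec).symm) ?_
  exact (presentationTilde.{u} (ModuleCat.of Γ(X, U) Γ(X, U)) .univ (by simp) _
    (Submodule.span_eq _)).isQuasicoherent

theorem isCoh_unit : IsCoh X (SheafOfModules.unit X.ringCatSheaf) := by
  refine ⟨isQuasicoherent_unit, fun U => ?_⟩
  exact inferInstanceAs (Module.Finite Γ(X, U) Γ(X, U))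

/-- the structure sheaf as a coherent sheaf -/
def Coh.O (X : Scheme.{u}) : Coh X := ⟨SheafOfModules.unit X.ringCatSheaf, isCoh_unit⟩

/-! ## Exactness of the inclusion and of sections over affine open subsets -/

section
variable [IsLocallyNoetherian X]

instance : (IsCoh X).ι.Additive where
  map_add := rfl

instance : (IsCoh X).ι.PreservesHomology where
  preservesKernels _ _ f := (IsCoh X).preservesKernels_ι f
  preservesCokernels _ _ f := (IsCoh X).preservesCokernels_ι f

instance : PreservesFiniteLimits (IsCoh X).ι :=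
  Functor.preservesFiniteLimits_of_preservesHomology _

instance : PreservesFiniteColimits (IsCoh X).ι :=
  Functor.preservesFiniteColimits_of_preservesHomology _

theorem Coh.mono_iff {A B : Coh X} (f : A ⟶ B) : Mono f ↔ Mono f.hom :=
  ⟨fun _ => inferInstanceAs (Mono ((IsCoh X).ι.map f)),
    fun h => (IsCoh X).ι.mono_of_mono_map h⟩

theorem Coh.epi_iff {A B : Coh X} (f : A ⟶ B) : Epi f ↔ Epi f.hom :=
  ⟨fun _ => inferInstanceAs (Epi ((IsCoh X).ι.map f)),
    fun h => (IsCoh X).ι.epi_of_epi_map h⟩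

/-- a sequence of coherent sheaves is exact iff it is exact as a sequence of sheaves of
modules -/
theorem Coh.exact_iff (S : ShortComplex (Coh X)) :
    S.Exact ↔ (S.map (IsCoh X).ι).Exact :=
  (S.exact_map_iff_of_faithful (IsCoh X).ι).symm

/-- a short exact sequence of coherent sheaves is short exact as a sequence of sheaves of
modules -/
theorem Coh.shortExact_iff (S : ShortComplex (Coh X)) :
    S.ShortExact ↔ (S.map (IsCoh X).ι).ShortExact := by
  constructor
  · intro h
    exact h.map_of_exact (IsCoh X).ι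
  · intro h
    have h1 := h.mono_f
    have h2 := h.epi_g
    exact ShortComplex.ShortExact.mk' ((Coh.exact_iff S).2 h.exact)
      ((Coh.mono_iff S.f).2 h1) ((Coh.epi_iff S.g).2 h2)

end

/-- sections of coherent sheaves over an open subset -/
def Coh.sec (U : X.Opens) : Coh X ⥤ ModuleCat.{u} Γ(X, U) := (IsCoh X).ι ⋙ secF U

instance (U : X.Opens) : (Coh.sec U).Additive where
  map_add := rfl

theorem Coh.sec_obj (U : X.Opens) (M : Coh X) :
    (Coh.sec U).obj M = ModuleCat.of Γ(X, U) Γ(M.obj, U) := rfl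

theorem Coh.sec_map_apply (U : X.Opens) {M N : Coh X} (φ : M ⟶ N) (s : Γ(M.obj, U)) :
    ((Coh.sec U).map φ).hom s = ap φ.hom U s := rfl

theorem Coh.finite_sec {U : X.Opens} (hU : IsAffineOpen U) (M : Coh X) :
    Module.Finite Γ(X, U) ((Coh.sec U).obj M) := M.property.2 ⟨U, hU⟩

section
variable [IsLocallyNoetherian X]

instance (U : X.Opens) : PreservesFiniteLimits (Coh.sec (X := X) U) :=
  inferInstanceAs (PreservesFiniteLimits ((IsCoh X).ι ⋙ secF U))

/-- sections over an affine open subset form an exact sequence -/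
theorem Coh.shortExact_sec {S : ShortComplex (Coh X)} (hS : S.ShortExact)
    {U : X.Opens} (hU : IsAffineOpen U) : (S.map (Coh.sec U)).ShortExact := by
  have h1 := hS.mono_f
  have h2 := (Coh.shortExact_iff S).1 hS
  have h3 : (S.map (Coh.sec U)).Exact :=
    hS.exact.map_of_mono_of_preservesKernel (Coh.sec U) inferInstance inferInstance
  have h4 : Mono (S.map (Coh.sec U)).f := inferInstanceAs (Mono ((Coh.sec U).map S.f))
  have h5 : Epi (S.map (Coh.sec U)).g := by
    have : Epi S.g.hom := h2.epi_g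
    exact (ModuleCat.epi_iff_surjective _).2
      (ap_surjective S.X₂.property.1 S.X₃.property.1 S.g.hom hU)
  exact ShortComplex.ShortExact.mk' h3 h4 h5

theorem Coh.exact_sec {U : X.Opens} (hU : IsAffineOpen U) :
    PreservesFiniteLimits (Coh.sec (X := X) U) ∧ PreservesFiniteColimits (Coh.sec (X := X) U) :=
  ((Functor.exact_tfae (Coh.sec (X := X) U)).out 0 3).1 fun _ hS => Coh.shortExact_sec hS hU

theorem Coh.preservesFiniteColimits_sec {U : X.Opens} (hU : IsAffineOpen U) :
    PreservesFiniteColimits (Coh.sec (X := X) U) := (Coh.exact_sec hU).2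

end

/-! ## Detection on an affine cover -/

theorem isUnit_rO_self {U : X.Opens} (f : Γ(X, U)) : IsUnit (rO (X.basicOpen_le f) f) :=
  RingedSpace.isUnit_res_basicOpen _ f

theorem isZero_of_sec {M : X.Modules} (h : ∀ (U : X.Opens) (s : Γ(M, U)), s = 0) : IsZero M := by
  rw [IsZero.iff_id_eq_zero]
  apply hom_ext'
  intro U s
  rw [h U s, map_zero, map_zero]

/-- a quasi-coherent sheaf without sections on the members of an affine open cover is zero -/
theorem isZero_of_aff_cover {ι : Type*} (U : ι → X.Opens) (hc : ∀ x : X, ∃ i, x ∈ U i)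
    (hU : ∀ i, IsAffineOpen (U i)) {M : X.Modules} (hM : M.IsQuasicoherent)
    (h : ∀ (i : ι) (s : Γ(M, U i)), s = 0) : IsZero M := by
  rw [isQuasicoherent_iff_lcz] at hM
  apply isZero_of_sec
  intro W s
  have key : ∀ x : W, ∃ V : X.Opens, ∃ hV : V ≤ W, x.1 ∈ V ∧ rs M hV s = 0 := by
    rintro ⟨x, hx⟩
    obtain ⟨i, hi⟩ := hc x
    obtain ⟨f, hf, hxf⟩ := (hU i).exists_basicOpen_le ⟨x, hx⟩ hi
    refine ⟨X.basicOpen f, hf, hxf, ?_⟩
    obtain ⟨n, t, hn⟩ := (hM (U i) (hU i) f).1 (rs M hf s)
    rw [h i t, map_zero] at hn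
    have hu : IsUnit (rO (X.basicOpen_le f) f ^ n) := (isUnit_rO_self f).pow n
    exact (hu.smul_eq_zero).1 hn.symm
  choose V hV hxV hs using key
  refine sec_ext M hV (fun x hx => Opens.mem_iSup.2 ⟨⟨x, hx⟩, hxV _⟩) fun i => ?_
  rw [hs, map_zero]

theorem Coh.isZero_of_cover {ι : Type*} (U : ι → X.Opens) (hc : ∀ x : X, ∃ i, x ∈ U i)
    (hU : ∀ i, IsAffineOpen (U i)) {M : Coh X} (h : ∀ i, IsZero ((Coh.sec (U i)).obj M)) :
    IsZero M := by
  have h2 : IsZero M.obj := by
    refine isZero_of_aff_cover U hc hU M.property.1 fun i s => ?_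
    have h3 : Subsingleton ((Coh.sec (U i)).obj M) := ModuleCat.subsingleton_of_isZero (h i)
    exact Subsingleton.elim (α := (Coh.sec (U i)).obj M) s 0
  rw [IsZero.iff_id_eq_zero] at h2 ⊢
  exact ObjectProperty.hom_ext _ h2

section
variable [IsLocallyNoetherian X]

/-- exactness can be checked on an affine open cover -/
theorem Coh.exact_of_cover {ι : Type*} (U : ι → X.Opens) (hc : ∀ x : X, ∃ i, x ∈ U i)
    (hU : ∀ i, IsAffineOpen (U i)) {S : ShortComplex (Coh X)}
    (h : ∀ i, (S.map (Coh.sec (U i))).Exact) : S.Exact := by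
  rw [ShortComplex.exact_iff_isZero_homology]
  refine Coh.isZero_of_cover U hc hU fun i => ?_
  have := Coh.preservesFiniteColimits_sec (X := X) (hU i)
  have h1 := (ShortComplex.exact_iff_isZero_homology _).1 (h i)
  exact h1.of_iso (S.mapHomologyIso (Coh.sec (U i))).symm

theorem Coh.mono_of_cover {ι : Type*} (U : ι → X.Opens) (hc : ∀ x : X, ∃ i, x ∈ U i)
    (hU : ∀ i, IsAffineOpen (U i)) {M N : Coh X} (f : M ⟶ N)
    (h : ∀ i, Mono ((Coh.sec (U i)).map f)) : Mono f := by
  rw [Preadditive.mono_iff_isZero_kernel]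
  refine Coh.isZero_of_cover U hc hU fun i => ?_
  have h1 := (Preadditive.mono_iff_isZero_kernel _).1 (h i)
  exact h1.of_iso (PreservesKernel.iso (Coh.sec (U i)) f)

theorem Coh.epi_of_cover {ι : Type*} (U : ι → X.Opens) (hc : ∀ x : X, ∃ i, x ∈ U i)
    (hU : ∀ i, IsAffineOpen (U i)) {M N : Coh X} (f : M ⟶ N)
    (h : ∀ i, Epi ((Coh.sec (U i)).map f)) : Epi f := by
  rw [Preadditive.epi_iff_isZero_cokernel]
  refine Coh.isZero_of_cover U hc hU fun i => ?_
  have := Coh.preservesFiniteColimits_sec (X := X) (hU i)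
  have h1 := (Preadditive.epi_iff_isZero_cokernel _).1 (h i)
  exact h1.of_iso (PreservesCokernel.iso (Coh.sec (U i)) f)

theorem Coh.isIso_of_cover {ι : Type*} (U : ι → X.Opens) (hc : ∀ x : X, ∃ i, x ∈ U i)
    (hU : ∀ i, IsAffineOpen (U i)) {M N : Coh X} (f : M ⟶ N)
    (h : ∀ i, IsIso ((Coh.sec (U i)).map f)) : IsIso f := by
  have := Coh.mono_of_cover U hc hU f fun i => inferInstance
  have := Coh.epi_of_cover U hc hU f fun i => inferInstance
  exact isIso_of_mono_of_epi f

end


end

end Fdim
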