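import Pool.Agent.Work.MP_f714fc_ag.Tw.Sec
import Pool.Agent.Work.MP_f714fc_ag.Coh.Qc

/-!
# Finiteness of the sections of a quasi-coherent sheaf over an affine open subset is local
-/

open CategoryTheory Limits TopologicalSpace AlgebraicGeometry Opposite

attribute [-instance] CategoryTheory.catToReflQuiver

universe u

namespace Fdim

noncomputable section

variable {X : Scheme.{u}}

/-- sections over the basic open subset as a module over the functions on the affine open
subset -/
@[reducible] def modBasic (M : X.Modules) {W : X.Opens} (g : Γ(X, W)) :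
    Module Γ(X, W) Γ(M, X.basicOpen g) :=
  Module.compHom _ (rO (X.basicOpen_le g))

/-- restriction to a basic open subset as a linear map -/
def rsBasic (M : X.Modules) {W : X.Opens} (g : Γ(X, W)) :
    letI := modBasic M g
    Γ(M, W) →ₗ[Γ(X, W)] Γ(M, X.basicOpen g) :=
  letI := modBasic M g
  { toFun := rs M (X.basicOpen_le g)
    map_add' := fun s t => map_add _ s t
    map_smul' := fun r s => rs_smul M _ r s }

theorem isUnit_rO_basic {W : X.Opens} (g : Γ(X, W)) : IsUnit (rO (X.basicOpen_le g) g) :=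
  RingedSpace.isUnit_res_basicOpen _ g

theorem isLocalizedModule_rsBasic (M : X.Modules) [M.IsQuasicoherent] {W : X.Opens}
    (hW : IsAffineOpen W) (g : Γ(X, W)) :
    letI := modBasic M g
    IsLocalizedModule (.powers g) (rsBasic M g) := by
  letI := modBasic M g
  constructor
  · rintro ⟨_, n, rfl⟩
    rw [Module.End.isUnit_iff]
    have hu : IsUnit (rO (X.basicOpen_le g) (g ^ n)) := by
      rw [map_pow]
      exact (isUnit_rO_basic g).pow n
    obtain ⟨u, hu⟩ := hu
    constructor
    · intro s t hst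
      have h1 : rO (X.basicOpen_le g) (g ^ n) • s = rO (X.basicOpen_le g) (g ^ n) • t := hst
      rw [← hu] at h1
      exact (MulAction.injective u) h1
    · intro s
      refine ⟨(↑u⁻¹ : Γ(X, X.basicOpen g)) • s, ?_⟩
      change rO (X.basicOpen_le g) (g ^ n) • (↑u⁻¹ : Γ(X, X.basicOpen g)) • s = s
      rw [← hu, ← mul_smul, Units.mul_inv, one_smul]
  · intro s
    obtain ⟨n, t, ht⟩ := Coh.qc_exists hW M g s
    refine ⟨⟨t, ⟨_, n, rfl⟩⟩, ?_⟩
    change rO (X.basicOpen_le g) (g ^ n) • s = rs M (X.basicOpen_le g) t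
    rw [map_pow]
    exact ht.symm
  · intro s t hst
    have h1 : rs M (X.basicOpen_le g) (s - t) = 0 := by
      rw [map_sub, sub_eq_zero]
      exact hst
    obtain ⟨n, hn⟩ := Coh.qc_unique hW M g (s - t) h1
    refine ⟨⟨_, n, rfl⟩, ?_⟩
    rw [smul_sub, sub_eq_zero] at hn
    exact hn

/-- finiteness of the sections over an affine open subset may be checked on basic open subsets -/
theorem finite_of_span (M : X.Modules) [M.IsQuasicoherent] {W : X.Opens} (hW : IsAffineOpen W)
    (t : Set Γ(X, W)) (ht : Ideal.span t = ⊤)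
    (h : ∀ g ∈ t, Module.Finite Γ(X, X.basicOpen g) Γ(M, X.basicOpen g)) :
    Module.Finite Γ(X, W) Γ(M, W) := by
  letI i1 : ∀ g : t, Module Γ(X, W) Γ(M, X.basicOpen g.1) := fun g => modBasic M g.1
  haveI i2 : ∀ g : t, IsScalarTower Γ(X, W) Γ(X, X.basicOpen g.1) Γ(M, X.basicOpen g.1) :=
    fun g => ⟨fun r s m => mul_smul (rO (X.basicOpen_le g.1) r) s m⟩
  haveI i3 : ∀ g : t, IsLocalization.Away g.1 Γ(X, X.basicOpen g.1) :=
    fun g => hW.isLocalization_basicOpen g.1
  haveI i4 : ∀ g : t, IsLocalizedModule.Away g.1 (rsBasic M g.1) :=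
    fun g => isLocalizedModule_rsBasic M hW g.1
  exact Module.Finite.of_localizationSpan' (Mₚ := fun g : t => Γ(M, X.basicOpen g.1))
    (Rₚ := fun g : t => Γ(X, X.basicOpen g.1)) t ht (fun g => rsBasic M g.1)
    (fun g => h g.1 g.2)

/-- finiteness of the sections over an affine open subset is local -/
theorem finite_of_cover (M : X.Modules) [M.IsQuasicoherent] {W : X.Opens} (hW : IsAffineOpen W)
    (h : ∀ x ∈ W, ∃ V : X.Opens, x ∈ V ∧ ∀ V' : X.Opens, IsAffineOpen V' → V' ≤ V → V' ≤ W →
      Module.Finite Γ(X, V') Γ(M, V')) :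
    Module.Finite Γ(X, W) Γ(M, W) := by
  choose V hxV hV using h
  let t : Set Γ(X, W) := {g | ∃ x, ∃ hx : x ∈ W, X.basicOpen g ≤ V x hx}
  apply finite_of_span M hW t
  · rw [← hW.iSup_basicOpen_eq_self_iff]
    apply le_antisymm
    · exact iSup_le (fun g => X.basicOpen_le g.1)
    · intro x hx
      obtain ⟨g, hg, hxg⟩ := hW.exists_basicOpen_le ⟨x, hxV x hx⟩ hx
      exact Opens.mem_iSup.2 ⟨⟨g, x, hx, hg⟩, hxg⟩
  · rintro g ⟨x, hx, hg⟩
    exact hV x hx _ (hW.basicOpen g) hg (X.basicOpen_le g)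

end

end Fdim
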