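import Pool.Agent.Work.MP_f714fc_ag.Sch.Charts
import Pool.Agent.Work.MP_f714fc_ag.Tw.TwFun

/-!
# Cocycles on the surfaces `Y(A, t)`

A frame of a family of opens `U`: functions `e i j` on `U i` (to be thought of as `l j / l i`,
where `l i` generates a line bundle on `U i` and is a global section of it).  It gives a cocycle
and the global sections `l j`.  The frames of the fibre `f = {w = 0}` (`l = 1, 1, z, z`) and of the
section `C∞ = {p = ∞}` (`l = 1, p, 1, q`).
-/

open CategoryTheory Limits TopologicalSpace AlgebraicGeometry Opposite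

attribute [-instance] CategoryTheory.catToReflQuiver

set_option linter.unusedSimpArgs false

universe u

namespace Fdim

section

variable {X : Scheme.{u}} {ι : Type u}

/-- functions `e i j = l j / l i` on `U i`, where `l i` is a global section of a line bundle which
generates it on `U i` -/
structure Frame (U : ι → X.Opens) where
  e : ∀ i : ι, ι → Γ(X, U i)
  one : ∀ i, e i i = 1
  mul : ∀ i j k, rO (inf_le_left : U i ⊓ U j ≤ U i) (e i j) *
    rO (inf_le_right : U i ⊓ U j ≤ U j) (e j k) = rO inf_le_left (e i k)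

namespace Frame

variable {U : ι → X.Opens} (F G : Frame U)

@[ext] theorem ext' {F G : Frame U} (h : ∀ i j, F.e i j = G.e i j) : F = G := by
  cases F
  cases G
  congr
  funext i j
  exact h i j

/-- the relations on smaller open subsets -/
theorem mulW (i j k : ι) {W : X.Opens} (hi : W ≤ U i) (hj : W ≤ U j) :
    rO hi (F.e i j) * rO hj (F.e j k) = rO hi (F.e i k) := by
  have h := congrArg (rO (le_inf hi hj)) (F.mul i j k)
  simpa using h

theorem mul_swap (i j : ι) {W : X.Opens} (hi : W ≤ U i) (hj : W ≤ U j) :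
    rO hi (F.e i j) * rO hj (F.e j i) = 1 := by
  rw [F.mulW, F.one, map_one]

/-- the cocycle of a frame -/
noncomputable def coc : Coc U :=
  ⟨fun i j =>
    { val := rO inf_le_left (F.e i j)
      inv := rO inf_le_right (F.e j i)
      val_inv := F.mul_swap i j _ _
      inv_val := F.mul_swap j i _ _ }, by
    intro i j k
    simp only [rO_rO]
    exact F.mulW i j k _ _⟩

@[simp] theorem coc_v (i j : ι) {W : X.Opens} (hi : W ≤ U i) (hj : W ≤ U j) :
    F.coc.v i j hi hj = rO hi (F.e i j) := by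
  change rO _ (rO _ _) = _
  rw [rO_rO]

instance : Mul (Frame U) where
  mul F G :=
    { e := fun i j => F.e i j * G.e i j
      one := fun i => by rw [F.one, G.one, mul_one]
      mul := fun i j k => by
        simp only [map_mul]
        rw [← F.mul i j k, ← G.mul i j k]
        ring }

instance : One (Frame U) where
  one :=
    { e := fun i j => 1
      one := fun i => rfl
      mul := fun i j k => by simp }

@[simp] theorem mul_e (i j : ι) : (F * G).e i j = F.e i j * G.e i j := rfl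

@[simp] theorem one_e (i j : ι) : (1 : Frame U).e i j = 1 := rfl

instance : CommMonoid (Frame U) where
  mul_assoc F G H := by
    ext i j
    simp [mul_assoc]
  one_mul F := by
    ext i j
    simp
  mul_one F := by
    ext i j
    simp
  mul_comm F G := by
    ext i j
    simp [mul_comm]

@[simp] theorem pow_e (n : ℕ) (i j : ι) : (F ^ n).e i j = F.e i j ^ n := by
  induction n with
  | zero => simp
  | succ n ih => rw [pow_succ, mul_e, ih, pow_succ]

end Frame

theorem Coc.ext_v {U : ι → X.Opens} {g h : Coc U}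
    (e : ∀ i j, g.v i j (inf_le_left : U i ⊓ U j ≤ U i) inf_le_right = h.v i j inf_le_left
      inf_le_right) : g = h := by
  apply Subtype.ext
  funext i j
  have h1 := e i j
  simp only [Coc.v, rO_self] at h1
  exact Units.ext h1

namespace Frame

variable {U : ι → X.Opens}

/-- the cocycle of a frame, as a homomorphism -/
noncomputable def cocHom : Frame U →* Coc U where
  toFun := coc
  map_one' := Coc.ext_v fun i j => by simp
  map_mul' F G := Coc.ext_v fun i j => by simp

@[simp] theorem cocHom_apply (F : Frame U) : cocHom F = F.coc := rfl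

theorem coc_mul (F G : Frame U) : (F * G).coc = F.coc * G.coc := map_mul cocHom F G

theorem coc_pow (F : Frame U) (n : ℕ) : (F ^ n).coc = F.coc ^ n := map_pow cocHom F n

end Frame

end

/-! ### the frames of `Y(A, t)` -/

variable {A : CommRingCat.{0}} {t : A} {X : Scheme.{0}} {π : X ⟶ Spec A}

@[simp] theorem rO_str {U V : X.Opens} (h : V ≤ U) (a : A) : rO h (str π U a) = str π V a := by
  simp only [str, RingHom.comp_apply, rO_rO]

namespace YCharts

variable (Y : YCharts A t π)

section rel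

variable {W : X.Opens}

theorem rel01x (h0 : W ≤ Y.U 0) (h1 : W ≤ Y.U 1) : rO h0 (Y.x 0) = rO h1 (Y.x 1) := by
  have h := congrArg (rO (le_inf h0 h1)) Y.r01x
  simpa only [rO_rO] using h

theorem rel01y (h0 : W ≤ Y.U 0) (h1 : W ≤ Y.U 1) : rO h0 (Y.y 0) * rO h1 (Y.y 1) = 1 := by
  have h := congrArg (rO (le_inf h0 h1)) Y.r01y
  simpa only [map_mul, map_one, rO_rO] using h

theorem rel23x (h0 : W ≤ Y.U 2) (h1 : W ≤ Y.U 3) : rO h0 (Y.x 2) = rO h1 (Y.x 3) := by
  have h := congrArg (rO (le_inf h0 h1)) Y.r23x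
  simpa only [rO_rO] using h

theorem rel23y (h0 : W ≤ Y.U 2) (h1 : W ≤ Y.U 3) : rO h0 (Y.y 2) * rO h1 (Y.y 3) = 1 := by
  have h := congrArg (rO (le_inf h0 h1)) Y.r23y
  simpa only [map_mul, map_one, rO_rO] using h

theorem rel02x (h0 : W ≤ Y.U 0) (h1 : W ≤ Y.U 2) : rO h0 (Y.x 0) * rO h1 (Y.x 2) = 1 := by
  have h := congrArg (rO (le_inf h0 h1)) Y.r02x
  simpa only [map_mul, map_one, rO_rO] using h

theorem rel02y (h0 : W ≤ Y.U 0) (h1 : W ≤ Y.U 2) : rO h1 (Y.y 2) =
    rO h0 (Y.x 0) ^ 2 * rO h0 (Y.y 0) + str π W t * rO h0 (Y.x 0) := by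
  have h := congrArg (rO (le_inf h0 h1)) Y.r02y
  simpa only [map_mul, map_add, map_pow, map_one, rO_rO, rO_str] using h

theorem rel03x (h0 : W ≤ Y.U 0) (h1 : W ≤ Y.U 3) : rO h0 (Y.x 0) * rO h1 (Y.x 3) = 1 := by
  have h := congrArg (rO (le_inf h0 h1)) Y.r03x
  simpa only [map_mul, map_one, rO_rO] using h

theorem rel03y (h0 : W ≤ Y.U 0) (h1 : W ≤ Y.U 3) : rO h1 (Y.y 3) *
    (rO h0 (Y.x 0) ^ 2 * rO h0 (Y.y 0) + str π W t * rO h0 (Y.x 0)) = 1 := by
  have h := congrArg (rO (le_inf h0 h1)) Y.r03y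
  simpa only [map_mul, map_add, map_pow, map_one, rO_rO, rO_str] using h

theorem rel12x (h0 : W ≤ Y.U 1) (h1 : W ≤ Y.U 2) : rO h0 (Y.x 1) * rO h1 (Y.x 2) = 1 := by
  have h := congrArg (rO (le_inf h0 h1)) Y.r12x
  simpa only [map_mul, map_one, rO_rO] using h

theorem rel12y (h0 : W ≤ Y.U 1) (h1 : W ≤ Y.U 2) : rO h0 (Y.y 1) *
    (rO h1 (Y.x 2) ^ 2 * rO h1 (Y.y 2) - str π W t * rO h1 (Y.x 2)) = 1 := by
  have h := congrArg (rO (le_inf h0 h1)) Y.r12y
  simpa only [map_mul, map_sub, map_pow, map_one, rO_rO, rO_str] using h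

theorem rel13x (h0 : W ≤ Y.U 1) (h1 : W ≤ Y.U 3) : rO h0 (Y.x 1) * rO h1 (Y.x 3) = 1 := by
  have h := congrArg (rO (le_inf h0 h1)) Y.r13x
  simpa only [map_mul, map_one, rO_rO] using h

theorem rel13y (h0 : W ≤ Y.U 1) (h1 : W ≤ Y.U 3) : rO h1 (Y.y 3) *
    (rO h0 (Y.x 1) * (rO h0 (Y.x 1) + str π W t * rO h0 (Y.y 1))) = rO h0 (Y.y 1) := by
  have h := congrArg (rO (le_inf h0 h1)) Y.r13y
  simpa only [map_mul, map_add, map_pow, map_one, rO_rO, rO_str] using h

end rel

/-- the functions `l j / l i` on chart `i`, for `l = 1, 1, z, z` -/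
noncomputable def eF : ∀ i : Fin 4, Fin 4 → Γ(X, Y.U i)
  | 0 => ![1, 1, Y.x 0, Y.x 0]
  | 1 => ![1, 1, Y.x 1, Y.x 1]
  | 2 => ![Y.x 2, Y.x 2, 1, 1]
  | 3 => ![Y.x 3, Y.x 3, 1, 1]

/-- the functions `l j / l i` on chart `i`, for `l = 1, p, 1, q` -/
noncomputable def eC : ∀ i : Fin 4, Fin 4 → Γ(X, Y.U i)
  | 0 => ![1, Y.y 0, 1, Y.x 0 ^ 2 * Y.y 0 + str π _ t * Y.x 0]
  | 1 => ![Y.y 1, 1, Y.y 1, Y.x 1 * (Y.x 1 + str π _ t * Y.y 1)]
  | 2 => ![1, Y.x 2 ^ 2 * Y.y 2 - str π _ t * Y.x 2, 1, Y.y 2]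
  | 3 => ![Y.y 3, Y.x 3 * (Y.x 3 - str π _ t * Y.y 3), Y.y 3, 1]

/-- a frame on four opens from the relations on the six overlaps -/
noncomputable def mkFrame (e : ∀ i : Fin 4, Fin 4 → Γ(X, Y.U i)) (one : ∀ i, e i i = 1)
    (m01 : ∀ k, rO (inf_le_left : Y.U 0 ⊓ Y.U 1 ≤ Y.U 0) (e 0 1) *
      rO (inf_le_right : Y.U 0 ⊓ Y.U 1 ≤ Y.U 1) (e 1 k) = rO inf_le_left (e 0 k))
    (m02 : ∀ k, rO (inf_le_left : Y.U 0 ⊓ Y.U 2 ≤ Y.U 0) (e 0 2) *
      rO (inf_le_right : Y.U 0 ⊓ Y.U 2 ≤ Y.U 2) (e 2 k) = rO inf_le_left (e 0 k))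
    (m03 : ∀ k, rO (inf_le_left : Y.U 0 ⊓ Y.U 3 ≤ Y.U 0) (e 0 3) *
      rO (inf_le_right : Y.U 0 ⊓ Y.U 3 ≤ Y.U 3) (e 3 k) = rO inf_le_left (e 0 k))
    (m12 : ∀ k, rO (inf_le_left : Y.U 1 ⊓ Y.U 2 ≤ Y.U 1) (e 1 2) *
      rO (inf_le_right : Y.U 1 ⊓ Y.U 2 ≤ Y.U 2) (e 2 k) = rO inf_le_left (e 1 k))
    (m13 : ∀ k, rO (inf_le_left : Y.U 1 ⊓ Y.U 3 ≤ Y.U 1) (e 1 3) *
      rO (inf_le_right : Y.U 1 ⊓ Y.U 3 ≤ Y.U 3) (e 3 k) = rO inf_le_left (e 1 k))
    (m23 : ∀ k, rO (inf_le_left : Y.U 2 ⊓ Y.U 3 ≤ Y.U 2) (e 2 3) *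
      rO (inf_le_right : Y.U 2 ⊓ Y.U 3 ≤ Y.U 3) (e 3 k) = rO inf_le_left (e 2 k)) :
    Frame Y.U where
  e := e
  one := one
  mul := by
    have key : ∀ i j : Fin 4, (∀ k, rO (inf_le_left : Y.U i ⊓ Y.U j ≤ Y.U i) (e i j) *
        rO (inf_le_right : Y.U i ⊓ Y.U j ≤ Y.U j) (e j k) = rO inf_le_left (e i k)) →
        ∀ k, rO (inf_le_left : Y.U j ⊓ Y.U i ≤ Y.U j) (e j i) *
          rO (inf_le_right : Y.U j ⊓ Y.U i ≤ Y.U i) (e i k) = rO inf_le_left (e j k) := by
      intro i j h k
      have h1 := congrArg (rO (le_inf inf_le_right inf_le_left :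
        Y.U j ⊓ Y.U i ≤ Y.U i ⊓ Y.U j)) (h i)
      have h2 := congrArg (rO (le_inf inf_le_right inf_le_left :
        Y.U j ⊓ Y.U i ≤ Y.U i ⊓ Y.U j)) (h k)
      simp only [map_mul, rO_rO, one, map_one] at h1 h2
      linear_combination rO _ (e j k) * h1 - rO _ (e j i) * h2
    have key2 : ∀ i k : Fin 4, rO (inf_le_left : Y.U i ⊓ Y.U i ≤ Y.U i) (e i i) *
        rO (inf_le_right : Y.U i ⊓ Y.U i ≤ Y.U i) (e i k) = rO inf_le_left (e i k) := by
      intro i k
      rw [one, map_one, one_mul]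
    intro i j
    match i, j with
    | 0, 0 => exact key2 0
    | 0, 1 => exact m01
    | 0, 2 => exact m02
    | 0, 3 => exact m03
    | 1, 0 => exact key _ _ m01
    | 1, 1 => exact key2 1
    | 1, 2 => exact m12
    | 1, 3 => exact m13
    | 2, 0 => exact key _ _ m02
    | 2, 1 => exact key _ _ m12
    | 2, 2 => exact key2 2
    | 2, 3 => exact m23
    | 3, 0 => exact key _ _ m03
    | 3, 1 => exact key _ _ m13
    | 3, 2 => exact key _ _ m23
    | 3, 3 => exact key2 3

/-- the frame of the fibre `f = {w = 0}` -/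
noncomputable def frF : Frame Y.U :=
  Y.mkFrame Y.eF
    (fun i => by
      match i with
      | 0 => rfl
      | 1 => rfl
      | 2 => rfl
      | 3 => rfl)
    (fun k => by
      have h := Y.rel01x (W := Y.U 0 ⊓ Y.U 1) inf_le_left inf_le_right
      match k with
      | 0 => simp [eF]
      | 1 => simp [eF]
      | 2 => simp [eF, h]
      | 3 => simp [eF, h])
    (fun k => by
      have h := Y.rel02x (W := Y.U 0 ⊓ Y.U 2) inf_le_left inf_le_right
      match k with
      | 0 => simp [eF, h]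
      | 1 => simp [eF, h]
      | 2 => simp [eF]
      | 3 => simp [eF])
    (fun k => by
      have h := Y.rel03x (W := Y.U 0 ⊓ Y.U 3) inf_le_left inf_le_right
      match k with
      | 0 => simp [eF, h]
      | 1 => simp [eF, h]
      | 2 => simp [eF]
      | 3 => simp [eF])
    (fun k => by
      have h := Y.rel12x (W := Y.U 1 ⊓ Y.U 2) inf_le_left inf_le_right
      match k with
      | 0 => simp [eF, h]
      | 1 => simp [eF, h]
      | 2 => simp [eF]
      | 3 => simp [eF])
    (fun k => by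
      have h := Y.rel13x (W := Y.U 1 ⊓ Y.U 3) inf_le_left inf_le_right
      match k with
      | 0 => simp [eF, h]
      | 1 => simp [eF, h]
      | 2 => simp [eF]
      | 3 => simp [eF])
    (fun k => by
      have h := Y.rel23x (W := Y.U 2 ⊓ Y.U 3) inf_le_left inf_le_right
      match k with
      | 0 => simp [eF, h]
      | 1 => simp [eF, h]
      | 2 => simp [eF]
      | 3 => simp [eF])

/-- the frame of the section `C∞ = {p = ∞}` -/
noncomputable def frC : Frame Y.U :=
  Y.mkFrame Y.eC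
    (fun i => by
      match i with
      | 0 => rfl
      | 1 => rfl
      | 2 => rfl
      | 3 => rfl)
    (fun k => by
      have hx := Y.rel01x (W := Y.U 0 ⊓ Y.U 1) inf_le_left inf_le_right
      have hy := Y.rel01y (W := Y.U 0 ⊓ Y.U 1) inf_le_left inf_le_right
      match k with
      | 0 => simp [eC, hy]
      | 1 => simp [eC]
      | 2 => simp [eC, hy]
      | 3 =>
        simp only [eC, Matrix.cons_val, Matrix.cons_val_one, map_mul, map_add, map_pow, rO_str]
        rw [← hx]
        linear_combination (str π (Y.U 0 ⊓ Y.U 1) t * rO _ (Y.x 0)) * hy)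
    (fun k => by
      have hx := Y.rel02x (W := Y.U 0 ⊓ Y.U 2) inf_le_left inf_le_right
      have hy := Y.rel02y (W := Y.U 0 ⊓ Y.U 2) inf_le_left inf_le_right
      match k with
      | 0 => simp [eC]
      | 1 =>
        simp only [eC, Matrix.cons_val, Matrix.cons_val_one, map_mul, map_sub, map_add, map_pow,
          rO_str, map_one]
        rw [hy]
        generalize rO _ (Y.x 0) = z at *
        generalize rO _ (Y.x 2) = w at *
        generalize rO _ (Y.y 0) = p at *
        linear_combination (p * (z * w + 1) + str π (Y.U 0 ⊓ Y.U 2) t * w) * hx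
      | 2 => simp [eC]
      | 3 => simp [eC, hy])
    (fun k => by
      have hx := Y.rel03x (W := Y.U 0 ⊓ Y.U 3) inf_le_left inf_le_right
      have hy := Y.rel03y (W := Y.U 0 ⊓ Y.U 3) inf_le_left inf_le_right
      match k with
      | 0 =>
        simp only [eC, Matrix.cons_val, map_mul, map_add, map_pow, rO_str, map_one]
        linear_combination hy
      | 1 =>
        simp only [eC, Matrix.cons_val, Matrix.cons_val_one, map_mul, map_sub, map_add, map_pow,
          rO_str, map_one]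
        generalize rO _ (Y.x 0) = z at *
        generalize rO _ (Y.x 3) = w at *
        generalize rO _ (Y.y 0) = p at *
        generalize rO _ (Y.y 3) = q' at *
        linear_combination (p * (z * w + 1) + str π (Y.U 0 ⊓ Y.U 3) t * w) * hx
          - str π (Y.U 0 ⊓ Y.U 3) t * w * hy
      | 2 =>
        simp only [eC, Matrix.cons_val, map_mul, map_add, map_pow, rO_str, map_one]
        linear_combination hy
      | 3 => simp [eC])
    (fun k => by
      have hx := Y.rel12x (W := Y.U 1 ⊓ Y.U 2) inf_le_left inf_le_right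
      have hy := Y.rel12y (W := Y.U 1 ⊓ Y.U 2) inf_le_left inf_le_right
      match k with
      | 0 => simp [eC]
      | 1 =>
        simp only [eC, Matrix.cons_val, Matrix.cons_val_one, map_mul, map_sub, map_add, map_pow,
          rO_str, map_one]
        linear_combination hy
      | 2 => simp [eC]
      | 3 =>
        simp only [eC, Matrix.cons_val, map_mul, map_sub, map_add, map_pow,
          rO_str, map_one]
        generalize rO _ (Y.x 1) = z at *
        generalize rO _ (Y.x 2) = w at *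
        generalize rO _ (Y.y 1) = p' at *
        generalize rO _ (Y.y 2) = q at *
        linear_combination z ^ 2 * hy
          - (p' * (q * (z * w + 1)) - str π (Y.U 1 ⊓ Y.U 2) t * z * p') * hx)
    (fun k => by
      have hx := Y.rel13x (W := Y.U 1 ⊓ Y.U 3) inf_le_left inf_le_right
      have hy := Y.rel13y (W := Y.U 1 ⊓ Y.U 3) inf_le_left inf_le_right
      match k with
      | 0 =>
        simp only [eC, Matrix.cons_val, map_mul, map_add, map_pow, rO_str, map_one]
        linear_combination hy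
      | 1 =>
        simp only [eC, Matrix.cons_val, Matrix.cons_val_one, map_mul, map_sub, map_add, map_pow,
          rO_str, map_one]
        generalize rO _ (Y.x 1) = z at *
        generalize rO _ (Y.x 3) = w at *
        generalize rO _ (Y.y 1) = p' at *
        generalize rO _ (Y.y 3) = q' at *
        linear_combination (1 + z * w + w * str π (Y.U 1 ⊓ Y.U 3) t * p') * hx
          - str π (Y.U 1 ⊓ Y.U 3) t * w * hy
      | 2 =>
        simp only [eC, Matrix.cons_val, map_mul, map_add, map_pow, rO_str, map_one]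
        linear_combination hy
      | 3 => simp [eC])
    (fun k => by
      have hx := Y.rel23x (W := Y.U 2 ⊓ Y.U 3) inf_le_left inf_le_right
      have hy := Y.rel23y (W := Y.U 2 ⊓ Y.U 3) inf_le_left inf_le_right
      match k with
      | 0 => simp [eC, hy]
      | 1 =>
        simp only [eC, Matrix.cons_val, Matrix.cons_val_one, map_mul, map_sub, map_add, map_pow,
          rO_str, map_one]
        rw [← hx]
        linear_combination (- str π (Y.U 2 ⊓ Y.U 3) t * rO _ (Y.x 2)) * hy
      | 2 => simp [eC, hy]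
      | 3 => simp [eC])

/-- the cocycle of the fibre `f = {w = 0}` -/
noncomputable def gF : Coc Y.U := Y.frF.coc

/-- the cocycle of the section `C∞ = {p = ∞}` -/
noncomputable def gC : Coc Y.U := Y.frC.coc

@[simp] theorem frF_e (i j : Fin 4) : Y.frF.e i j = Y.eF i j := rfl

@[simp] theorem frC_e (i j : Fin 4) : Y.frC.e i j = Y.eC i j := rfl

@[simp] theorem gF_v (i j : Fin 4) {W : X.Opens} (hi : W ≤ Y.U i) (hj : W ≤ Y.U j) :
    Y.gF.v i j hi hj = rO hi (Y.eF i j) := Y.frF.coc_v i j hi hj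

@[simp] theorem gC_v (i j : Fin 4) {W : X.Opens} (hi : W ≤ Y.U i) (hj : W ≤ Y.U j) :
    Y.gC.v i j hi hj = rO hi (Y.eC i j) := Y.frC.coc_v i j hi hj

end YCharts

end Fdim
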