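import Pool.Agent.Work.MP_f714fc_ag.Geo.LinePair
import Pool.Agent.Work.MP_f714fc_ag.Geo.YCoc

/-!
# The charts of `Y(A, t)` as projective lines over `A[z]` and `A[w]`
-/

open CategoryTheory Limits TopologicalSpace AlgebraicGeometry Opposite Polynomial

attribute [-instance] CategoryTheory.catToReflQuiver

namespace Fdim

/-- `A[z][p] → A[z, p]` -/
noncomputable def polyTwo (A : Type*) [CommRing A] : A[X][X] →+* MvPolynomial (Fin 2) A :=
  eval₂RingHom (eval₂RingHom MvPolynomial.C (MvPolynomial.X 0)) (MvPolynomial.X 1)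

/-- the inverse -/
noncomputable def polyTwoInv (A : Type*) [CommRing A] : MvPolynomial (Fin 2) A →+* A[X][X] :=
  MvPolynomial.eval₂Hom (C.comp C) ![C X, X]

theorem polyTwo_bij (A : Type*) [CommRing A] : Function.Bijective (polyTwo A) := by
  have h1 : (polyTwo A).comp (polyTwoInv A) = RingHom.id _ := by
    apply MvPolynomial.ringHom_ext
    · intro r
      simp [polyTwo, polyTwoInv]
    · intro i
      fin_cases i <;> simp [polyTwo, polyTwoInv]
  have h2 : (polyTwoInv A).comp (polyTwo A) = RingHom.id _ := by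
    apply Polynomial.ringHom_ext'
    · apply Polynomial.ringHom_ext'
      · ext r
        simp [polyTwo, polyTwoInv]
      · simp [polyTwo, polyTwoInv]
    · simp [polyTwo, polyTwoInv]
  exact Function.bijective_iff_has_inverse.2 ⟨polyTwoInv A, fun f => congr($h2 f),
    fun f => congr($h1 f)⟩

variable {A : CommRingCat.{0}} {t : A} {X : Scheme.{0}} {π : X ⟶ Spec A}

namespace YCharts

variable (Y : YCharts A t π)

/-- the coordinate ring of a chart -/
noncomputable def cr (i : Fin 4) : (A : Type)[X][X] →+* Γ(X, Y.U i) :=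
  (MvPolynomial.eval₂Hom (str π (Y.U i)) ![Y.x i, Y.y i]).comp (polyTwo A)

theorem cr_bij (i : Fin 4) : Function.Bijective (Y.cr i) :=
  (Y.bij i).comp (polyTwo_bij A)

@[simp] theorem cr_X (i : Fin 4) : Y.cr i Polynomial.X = Y.y i := by
  simp [cr, polyTwo]

@[simp] theorem cr_C_X (i : Fin 4) : Y.cr i (C Polynomial.X) = Y.x i := by
  simp [cr, polyTwo]

@[simp] theorem cr_C_C (i : Fin 4) (a : A) : Y.cr i (C (C a)) = str π _ a := by
  simp [cr, polyTwo]

/-- charts `0`, `1`: the projective line over `A[z]` -/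
noncomputable def L0 : LinePair (A : Type)[X] (Y.U 0) (Y.U 1) where
  α := Y.cr 0
  β := Y.cr 1
  hα := Y.cr_bij 0
  hβ := Y.cr_bij 1
  aff := Y.aff 0
  aff' := Y.aff 1
  bo := by rw [cr_X, Y.b01]
  uv := by
    rw [cr_X, cr_X]
    exact Y.r01y
  const r := by
    have h : ((rO (inf_le_left : Y.U 0 ⊓ Y.U 1 ≤ Y.U 0)).comp (Y.cr 0)).comp C =
        ((rO (inf_le_right : Y.U 0 ⊓ Y.U 1 ≤ Y.U 1)).comp (Y.cr 1)).comp C := by
      apply Polynomial.ringHom_ext
      · intro a
        simp only [RingHom.comp_apply, cr_C_C, rO_str]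
      · simp only [RingHom.comp_apply, cr_C_X]
        exact Y.r01x
    exact congr($h r)

/-- charts `2`, `3`: the projective line over `A[w]` -/
noncomputable def L1 : LinePair (A : Type)[X] (Y.U 2) (Y.U 3) where
  α := Y.cr 2
  β := Y.cr 3
  hα := Y.cr_bij 2
  hβ := Y.cr_bij 3
  aff := Y.aff 2
  aff' := Y.aff 3
  bo := by rw [cr_X, Y.b23]
  uv := by
    rw [cr_X, cr_X]
    exact Y.r23y
  const r := by
    have h : ((rO (inf_le_left : Y.U 2 ⊓ Y.U 3 ≤ Y.U 2)).comp (Y.cr 2)).comp C =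
        ((rO (inf_le_right : Y.U 2 ⊓ Y.U 3 ≤ Y.U 3)).comp (Y.cr 3)).comp C := by
      apply Polynomial.ringHom_ext
      · intro a
        simp only [RingHom.comp_apply, cr_C_C, rO_str]
      · simp only [RingHom.comp_apply, cr_C_X]
        exact Y.r23x
    exact congr($h r)

/-- `{z ≠ ∞}` -/
noncomputable def V0 : X.Opens := Y.U 0 ⊔ Y.U 1

/-- `{z ≠ 0}` -/
noncomputable def V1 : X.Opens := Y.U 2 ⊔ Y.U 3

theorem V0_sup_V1 : Y.V0 ⊔ Y.V1 = ⊤ := by
  rw [← Y.cover]
  apply le_antisymm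
  · exact sup_le (sup_le (le_iSup Y.U 0) (le_iSup Y.U 1)) (sup_le (le_iSup Y.U 2) (le_iSup Y.U 3))
  · apply iSup_le
    intro i
    fin_cases i
    · exact le_sup_left.trans le_sup_left
    · exact le_sup_right.trans le_sup_left
    · exact le_sup_left.trans le_sup_right
    · exact le_sup_right.trans le_sup_right

theorem U0_inf_V1 : Y.U 0 ⊓ Y.V1 = X.basicOpen (Y.x 0) := by
  rw [V1, inf_sup_left, Y.b02, Y.b03, Scheme.basicOpen_mul]
  exact sup_eq_left.2 inf_le_left

theorem U1_inf_V1 : Y.U 1 ⊓ Y.V1 = X.basicOpen (Y.x 1) := by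
  rw [V1, inf_sup_left, Y.b12, Y.b13, Scheme.basicOpen_mul, Scheme.basicOpen_mul,
    ← inf_sup_left]
  refine inf_eq_left.2 ?_
  have h1 : Y.x 1 = (Y.x 1 + str π _ t * Y.y 1) + (- str π _ t) * Y.y 1 := by ring
  have h2 := X.basicOpen_add_le (Y.x 1 + str π _ t * Y.y 1) ((- str π _ t) * Y.y 1)
  rw [← h1] at h2
  refine h2.trans (sup_le le_sup_right (le_trans ?_ le_sup_left))
  rw [Scheme.basicOpen_mul]
  exact inf_le_right

theorem V0_inf_V1 : Y.V0 ⊓ Y.V1 = (Y.U 0 ⊓ Y.V1) ⊔ (Y.U 1 ⊓ Y.V1) := by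
  rw [V0, inf_sup_right]

theorem aff0V : IsAffineOpen (Y.U 0 ⊓ Y.V1) := by
  rw [Y.U0_inf_V1]
  exact (Y.aff 0).basicOpen _

theorem aff1V : IsAffineOpen (Y.U 1 ⊓ Y.V1) := by
  rw [Y.U1_inf_V1]
  exact (Y.aff 1).basicOpen _

end YCharts

end Fdim
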