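import Mathlib

/-!
# Ranks of modules over a domain
-/

namespace Fdim

open Module

section

variable {R : Type*} [CommRing R] [IsDomain R] {M₁ M₂ M₃ : Type*} [AddCommGroup M₁] [Module R M₁]
  [AddCommGroup M₂] [Module R M₂] [AddCommGroup M₃] [Module R M₃]

/-- the rank is additive on short exact sequences -/
theorem finrank_add_of_exact [Module.Finite R M₂] (f : M₁ →ₗ[R] M₂) (g : M₂ →ₗ[R] M₃)
    (hf : Function.Injective f) (hg : Function.Surjective g) (h : Function.Exact f g) :
    finrank R M₂ = finrank R M₁ + finrank R M₃ := by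
  have e1 : (M₁ ≃ₗ[R] LinearMap.ker g) :=
    (LinearEquiv.ofInjective f hf).trans (LinearEquiv.ofEq _ _ (LinearMap.exact_iff.1 h).symm)
  have e2 : ((M₂ ⧸ LinearMap.ker g) ≃ₗ[R] M₃) := g.quotKerEquivOfSurjective hg
  have h1 := rank_quotient_add_rank_of_isDomain (LinearMap.ker g)
  have hfin : Module.rank R M₂ < Cardinal.aleph0 := Module.rank_lt_aleph0 R M₂
  have hk : Module.rank R (LinearMap.ker g) < Cardinal.aleph0 :=
    lt_of_le_of_lt (Submodule.rank_le _) hfin
  have hq : Module.rank R (M₂ ⧸ LinearMap.ker g) < Cardinal.aleph0 :=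
    lt_of_le_of_lt (rank_quotient_le _) hfin
  have h2 : finrank R M₂ = finrank R (M₂ ⧸ LinearMap.ker g) + finrank R (LinearMap.ker g) := by
    unfold finrank
    rw [← h1, Cardinal.toNat_add hq hk]
  rw [h2, e1.finrank_eq, e2.finrank_eq, add_comm]

/-- a finitely generated module over a domain without torsion has rank zero only if it is zero -/
theorem subsingleton_of_finrank_eq_zero [Module.Finite R M₁] (f : M₁ →ₗ[R] R)
    (hf : Function.Injective f) (h : finrank R M₁ = 0) : Subsingleton M₁ := by
  rw [subsingleton_iff_forall_eq 0]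
  intro m
  by_contra hm
  have hli : LinearIndependent R (fun _ : Unit => m) := by
    rw [linearIndependent_iff']
    intro s c hs i hi
    have hr : c i • m = 0 := by
      have h2 : s = {i} := by
        ext j
        simp [Subsingleton.elim j i, hi]
      rwa [h2, Finset.sum_singleton] at hs
    generalize c i = r at hr ⊢
    have h1 : r • f m = 0 := by rw [← map_smul, hr, map_zero]
    rw [smul_eq_mul, mul_eq_zero] at h1
    rcases h1 with h1 | h1
    · exact h1
    · exact absurd (hf (by rw [h1, map_zero])) hm
  have := hli.fintype_card_le_finrank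
  simp [h] at this

end

end Fdim
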