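import Pool.Agent.Work.MP_f714fc_ag.Tw.MkB
import Pool.Agent.Work.MP_f714fc_ag.Coh.Local
import Pool.Agent.Work.MP_f714fc_ag.Geo.RankAlg

/-!
# Generic rank and torsion-free sheaves on integral schemes, for sheaves of modules
-/

open CategoryTheory Limits TopologicalSpace AlgebraicGeometry Opposite

attribute [-instance] CategoryTheory.catToReflQuiver

universe u

namespace Fdim

variable {X : Scheme.{u}}

/-! ## Left exactness of sections -/

theorem inj_of_mono {M N : X.Modules} (φ : M ⟶ N) [Mono φ] (U : X.Opens) :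
    Function.Injective (ap φ U) := by
  intro s t h
  have h1 : (Coh.zEquiv U M).symm s ≫ φ = (Coh.zEquiv U M).symm t ≫ φ := by
    apply (Coh.zEquiv U N).injective
    rw [Coh.zEquiv_comp, Coh.zEquiv_comp, Equiv.apply_symm_apply, Equiv.apply_symm_apply]
    exact h
  have h2 := (cancel_mono φ).1 h1
  exact (Coh.zEquiv U M).symm.injective h2

theorem exact_ap (S : ShortComplex X.Modules) (hS : S.Exact) [Mono S.f] (U : X.Opens) :
    Function.Exact (ap S.f U) (ap S.g U) := by
  intro t
  constructor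
  · intro h
    have h1 : (Coh.zEquiv U S.X₂).symm t ≫ S.g = 0 := by
      apply (Coh.zEquiv U S.X₃).injective
      rw [Coh.zEquiv_comp, Equiv.apply_symm_apply]
      have h2 : Coh.zEquiv U S.X₃ (0 : (Coh.Zf X).obj U ⟶ S.X₃) = 0 := by
        rw [Coh.zEquiv_apply]
        rfl
      rw [h2]
      exact h
    refine ⟨Coh.zEquiv U S.X₁ (hS.lift _ h1), ?_⟩
    change S.f.app U _ = t
    rw [← Coh.zEquiv_comp, hS.lift_f, Equiv.apply_symm_apply]
  · rintro ⟨s, rfl⟩
    rw [← ap_comp, S.zero, ap_zero]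

/-! ## The rank -/

/-- the map on sections of a morphism, as a linear map -/
noncomputable def apl {M N : X.Modules} (φ : M ⟶ N) (U : X.Opens) :
    Γ(M, U) →ₗ[Γ(X, U)] Γ(N, U) where
  toFun := ap φ U
  map_add' := map_add _
  map_smul' r s := ap_smul φ U r s

@[simp] theorem apl_apply {M N : X.Modules} (φ : M ⟶ N) (U : X.Opens) (s : Γ(M, U)) :
    apl φ U s = ap φ U s := rfl

/-- the rank, computed on the open set `U` -/
noncomputable def rk (U : X.Opens) (A : X.Modules) : ℕ := Module.finrank Γ(X, U) Γ(A, U)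

theorem rk_eq_of_equiv {U : X.Opens} {A B : X.Modules} (e : Γ(A, U) ≃ₗ[Γ(X, U)] Γ(B, U)) :
    rk U A = rk U B := e.finrank_eq

theorem rk_eq_of_iso (U : X.Opens) {A B : X.Modules} (e : A ≅ B) : rk U A = rk U B :=
  rk_eq_of_equiv (LinearEquiv.ofBijective (apl e.hom U) (bijective_of_isIso e.hom U))

theorem rk_eq_add [IsIntegral X] (U : X.Opens) [Nonempty U] (S : ShortComplex X.Modules)
    (hS : S.ShortExact) (hsurj : Function.Surjective (ap S.g U))
    (hfin : Module.Finite Γ(X, U) Γ(S.X₂, U)) : rk U S.X₂ = rk U S.X₁ + rk U S.X₃ := by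
  have := hS.mono_f
  exact finrank_add_of_exact (apl S.f U) (apl S.g U) (inj_of_mono S.f U) hsurj
    (exact_ap S hS.exact U)

/-! ## The structure sheaf -/

/-- the structure sheaf as a sheaf of modules -/
noncomputable abbrev OX (X : Scheme.{u}) : X.Modules := SheafOfModules.unit X.ringCatSheaf

/-- sections of the structure sheaf are functions -/
noncomputable def toR {U : X.Opens} : Γ(OX X, U) ≃ₗ[Γ(X, U)] Γ(X, U) where
  toFun s := s
  invFun s := s
  left_inv _ := rfl
  right_inv _ := rfl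
  map_add' _ _ := rfl
  map_smul' _ _ := rfl

theorem toR_rs {U V : X.Opens} (h : V ≤ U) (s : Γ(OX X, U)) :
    toR (rs (OX X) h s) = rO h (toR s) := rfl

theorem rk_OX [IsIntegral X] (U : X.Opens) [Nonempty U] : rk U (OX X) = 1 := by
  rw [rk, (toR (X := X) (U := U)).finrank_eq]
  exact Module.finrank_self _

/-! ## Torsion-free sheaves -/

/-- `N` is torsion free on the open set `U`: torsion free modules of sections and injective
restrictions to nonempty open subsets -/
structure TFree (U : X.Opens) (N : X.Modules) : Prop where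
  smul : ∀ V ≤ U, ∀ (r : Γ(X, V)) (s : Γ(N, V)), r • s = 0 → r = 0 ∨ s = 0
  inj : ∀ V ≤ U, ∀ (W : X.Opens) (h : W ≤ V), (W : Set X).Nonempty → ∀ s : Γ(N, V),
    rs N h s = 0 → s = 0

theorem rO_injective [IsIntegral X] {U V : X.Opens} (h : V ≤ U) (hV : (V : Set X).Nonempty) :
    Function.Injective (rO h) := by
  have : Nonempty V := hV.to_subtype
  exact map_injective_of_isIntegral X (homOfLE h)

theorem subsingleton_sec (N : X.Modules) {V : X.Opens} (h : ¬ (V : Set X).Nonempty)
    (s t : Γ(N, V)) : s = t := by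
  refine sec_ext N (ι := Empty) (U := Empty.elim) (fun i => i.elim) ?_ (fun i => i.elim)
  intro x hx
  exact absurd ⟨x, hx⟩ h

theorem TFree.mono {U V : X.Opens} {N : X.Modules} (h : TFree U N) (hV : V ≤ U) : TFree V N :=
  ⟨fun W hW => h.smul W (hW.trans hV), fun W hW => h.inj W (hW.trans hV)⟩

theorem tfree_OX [IsIntegral X] (U : X.Opens) : TFree U (OX X) where
  smul V _ r s h := by
    by_cases hV : (V : Set X).Nonempty
    · have : Nonempty V := hV.to_subtype
      have h1 : r * toR s = 0 := by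
        have := congrArg toR h
        rwa [map_smul, map_zero, smul_eq_mul] at this
      rcases mul_eq_zero.1 h1 with h1 | h1
      · exact Or.inl h1
      · exact Or.inr (toR.injective (by rw [h1, map_zero]))
    · exact Or.inr (subsingleton_sec _ hV _ _)
  inj V _ W h hW s hs := by
    apply toR.injective
    rw [map_zero]
    apply rO_injective h hW
    rw [map_zero, ← toR_rs, hs, map_zero]

/-- subsheaves of torsion-free sheaves -/
theorem TFree.of_injective {U : X.Opens} {M N : X.Modules} (h : TFree U N)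
    (f : ∀ V ≤ U, Γ(M, V) →ₗ[Γ(X, V)] Γ(N, V)) (hf : ∀ V hV, Function.Injective (f V hV))
    (hr : ∀ V (hV : V ≤ U) (W : X.Opens) (hW : W ≤ V) (s : Γ(M, V)),
      f W (hW.trans hV) (rs M hW s) = rs N hW (f V hV s)) : TFree U M where
  smul V hV r s hs := by
    rcases h.smul V hV r (f V hV s) (by rw [← map_smul, hs, map_zero]) with h1 | h1
    · exact Or.inl h1
    · exact Or.inr (hf V hV (by rw [h1, map_zero]))
  inj V hV W hW hne s hs := by
    apply hf V hV
    rw [map_zero]
    apply h.inj V hV W hW hne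
    rw [← hr, hs, map_zero]

theorem TFree.of_mono {U : X.Opens} {M N : X.Modules} (h : TFree U N) (φ : M ⟶ N) [Mono φ] :
    TFree U M :=
  h.of_injective (fun V _ => apl φ V) (fun V _ => inj_of_mono φ V)
    (fun _ _ _ hW s => ap_rs φ hW s)

/-- being torsion free is a local property on an integral scheme -/
theorem tfree_of_cover [IsIntegral X] (N : X.Modules) {ι : Type*} (U : ι → X.Opens)
    (hU : ⨆ i, U i = ⊤) (h : ∀ i, TFree (U i) N) : TFree ⊤ N := by
  have hinj : ∀ (V W : X.Opens) (hW : W ≤ V), (W : Set X).Nonempty → ∀ s : Γ(N, V),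
      rs N hW s = 0 → s = 0 := by
    intro V W hW hne s hs
    have hc : V ≤ ⨆ i, U i ⊓ V := by rw [← iSup_inf_eq, hU, top_inf_eq]
    refine sec_ext N (fun i => (inf_le_right : U i ⊓ V ≤ V)) hc fun i => ?_
    rw [map_zero]
    by_cases hi : ((U i ⊓ V : X.Opens) : Set X).Nonempty
    · have hne' : ((U i ⊓ V ⊓ W : X.Opens) : Set X).Nonempty :=
        nonempty_preirreducible_inter (U i ⊓ V).2 W.2 hi hne
      apply (h i).inj (U i ⊓ V) inf_le_left (U i ⊓ V ⊓ W) inf_le_left hne'
      rw [rs_rs]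
      have h1 : rs N (inf_le_right : U i ⊓ V ⊓ W ≤ W) (rs N hW s) = 0 := by rw [hs, map_zero]
      rwa [rs_rs] at h1
    · exact subsingleton_sec _ hi _ _
  refine ⟨fun V _ r s hs => ?_, fun V _ W hW hne s hs => hinj V W hW hne s hs⟩
  by_cases hV : (V : Set X).Nonempty
  · obtain ⟨x, hx⟩ := hV
    obtain ⟨i, hi⟩ : ∃ i, x ∈ U i := by
      have : x ∈ ⨆ i, U i := by rw [hU]; trivial
      exact Opens.mem_iSup.1 this
    have hne : ((U i ⊓ V : X.Opens) : Set X).Nonempty := ⟨x, hi, hx⟩
    rcases (h i).smul (U i ⊓ V) inf_le_left (rO inf_le_right r) (rs N inf_le_right s) (by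
      rw [← rs_smul, hs, map_zero]) with h1 | h1
    · left
      apply rO_injective inf_le_right hne
      rw [h1, map_zero]
    · exact Or.inr (hinj _ _ _ hne s h1)
  · exact Or.inr (subsingleton_sec _ hV _ _)

/-- a nonzero morphism from the structure sheaf to a torsion-free sheaf is injective -/
theorem injective_of_ne_zero [IsIntegral X] {N : X.Modules} (h : TFree ⊤ N) (φ : OX X ⟶ N)
    (hφ : φ ≠ 0) (U : X.Opens) : Function.Injective (ap φ U) := by
  rw [injective_iff_map_eq_zero]
  intro s hs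
  by_contra hne
  apply hφ
  have hU : (U : Set X).Nonempty := by
    by_contra hU
    exact hne (subsingleton_sec _ hU _ _)
  -- the image of one
  let one : ∀ V : X.Opens, Γ(OX X, V) := fun V => toR.symm 1
  have hone : ∀ {V W : X.Opens} (hW : W ≤ V), rs (OX X) hW (one V) = one W := by
    intro V W hW
    apply toR.injective
    rw [toR_rs]
    simp [one]
  have hs1 : ∀ {V : X.Opens} (t : Γ(OX X, V)), t = toR t • one V := by
    intro V t
    apply toR.injective
    rw [map_smul]
    simp [one]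
  have h1 : ap φ U (one U) = 0 := by
    have h2 : toR s • ap φ U (one U) = 0 := by rw [← ap_smul, ← hs1, hs]
    rcases h.smul U le_top _ _ h2 with h3 | h3
    · exact absurd (toR.injective (by rw [h3, map_zero])) hne
    · exact h3
  have h2 : ap φ ⊤ (one ⊤) = 0 := by
    apply h.inj ⊤ le_rfl U le_top hU
    rw [← ap_rs, hone, h1]
  apply hom_ext'
  intro V t
  rw [hs1 t, ap_smul, ap_smul, ap_zero, smul_zero, ← hone (le_top : V ≤ ⊤), ap_rs, h2, map_zero,
    smul_zero]

theorem mono_of_ne_zero [IsIntegral X] {N : X.Modules} (h : TFree ⊤ N) (φ : OX X ⟶ N)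
    (hφ : φ ≠ 0) : Mono φ := mono_of_injective φ (injective_of_ne_zero h φ hφ)

/-- a torsion-free sheaf which has no sections on a nonempty open set is zero -/
theorem isZero_of_sec_eq_zero {N : X.Modules} (h : TFree ⊤ N) {U₀ : X.Opens}
    (h0 : ∀ W ≤ U₀, ∀ s : Γ(N, W), s = 0) [IsIntegral X] (hne : (U₀ : Set X).Nonempty) :
    IsZero N := by
  rw [IsZero.iff_id_eq_zero]
  apply hom_ext'
  intro U s
  rw [ap_id, ap_zero]
  by_cases hU : (U : Set X).Nonempty
  · have hne' : ((U ⊓ U₀ : X.Opens) : Set X).Nonempty :=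
      nonempty_preirreducible_inter U.2 U₀.2 hU hne
    exact h.inj U le_top (U ⊓ U₀) inf_le_left hne' s (h0 _ inf_le_right _)
  · exact subsingleton_sec _ hU _ _

/-! ## Quasi-coherent sheaves without sections on an affine open set -/

theorem sec_eq_zero_of_eq {A : X.Modules} {V W : X.Opens} (e : V = W) (h : ∀ s : Γ(A, V), s = 0) :
    ∀ s : Γ(A, W), s = 0 := by
  subst e
  exact h

set_option backward.isDefEq.respectTransparency false in
theorem isZero_restrict {A : X.Modules} [A.IsQuasicoherent] {U : X.Opens} (hU : IsAffineOpen U)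
    (h : ∀ s : Γ(A, U), s = 0) : IsZero (A.restrict hU.fromSpec) := by
  have hiso : IsIso (A.restrict hU.fromSpec).fromTildeΓ := inferInstance
  have h0 : ∀ s : Γ(A.restrict hU.fromSpec, ⊤), s = 0 := by
    have e : U = hU.fromSpec ''ᵁ ⊤ := by
      rw [Scheme.Hom.image_top_eq_opensRange, hU.opensRange_fromSpec]
    have h1 : ∀ s : Γ(A, hU.fromSpec ''ᵁ ⊤), s = 0 := sec_eq_zero_of_eq e h
    exact h1
  have hz : IsZero (moduleSpecΓFunctor.obj (A.restrict hU.fromSpec)) := by
    have : Subsingleton (moduleSpecΓFunctor.obj (A.restrict hU.fromSpec)) := by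
      rw [subsingleton_iff_forall_eq 0]
      exact h0
    exact ModuleCat.isZero_of_subsingleton _
  have hz2 := (tilde.functor _).map_isZero hz
  exact hz2.of_iso (asIso (A.restrict hU.fromSpec).fromTildeΓ).symm

theorem sec_eq_zero_of_qc {A : X.Modules} [A.IsQuasicoherent] {U : X.Opens} (hU : IsAffineOpen U)
    (h : ∀ s : Γ(A, U), s = 0) : ∀ W ≤ U, ∀ s : Γ(A, W), s = 0 := by
  intro W hW
  have hz := isZero_restrict hU h
  have e : hU.fromSpec ''ᵁ (hU.fromSpec ⁻¹ᵁ W) = W := by
    rw [Scheme.Hom.image_preimage_eq_opensRange_inf, hU.opensRange_fromSpec]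
    exact inf_eq_right.2 hW
  have h1 : ∀ s : Γ(A, hU.fromSpec ''ᵁ (hU.fromSpec ⁻¹ᵁ W)), s = 0 := fun s =>
    Coh.sec_zero_of_isZero hz (U := hU.fromSpec ⁻¹ᵁ W) s
  exact sec_eq_zero_of_eq e h1


/-- a torsion-free quasi-coherent sheaf of rank zero is zero -/
theorem isZero_of_rk_eq_zero [IsIntegral X] {A : X.Modules} [A.IsQuasicoherent] {U : X.Opens}
    (hU : IsAffineOpen U) [hne : Nonempty U] (hfin : Module.Finite Γ(X, U) Γ(A, U))
    (φ : A ⟶ OX X) [Mono φ] (h : rk U A = 0) : IsZero A := by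
  have h1 : Subsingleton Γ(A, U) :=
    subsingleton_of_finrank_eq_zero (R := Γ(X, U)) (toR.toLinearMap ∘ₗ apl φ U)
      (toR.injective.comp (inj_of_mono φ U)) h
  refine isZero_of_sec_eq_zero ((tfree_OX ⊤).of_mono φ) (U₀ := U)
    (sec_eq_zero_of_qc hU fun s => Subsingleton.elim _ _) ?_
  obtain ⟨x⟩ := hne
  exact ⟨x.1, x.2⟩

end Fdim
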