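import Pool.Agent.Work.MP_f714fc_ag.Tw.TwFun
import Pool.Agent.Work.MP_f714fc_ag.Geo.RankMod

/-!
# Ranks and torsion-freeness of twists
-/

open CategoryTheory Limits TopologicalSpace AlgebraicGeometry Opposite

attribute [-instance] CategoryTheory.catToReflQuiver

universe u

namespace Fdim

variable {X : Scheme.{u}} {ι : Type u} {U : ι → X.Opens}

namespace Coc

variable (g : Coc U) (M : X.Modules)

/-- sections of the twist on an open subset of a member of the cover are sections -/
noncomputable def twSec (i : ι) {W : X.Opens} (hi : W ≤ U i) :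
    Γ((tw g).obj M, W) ≃ₗ[Γ(X, W)] Γ(M, W) where
  toFun s := tev s i le_rfl hi
  map_add' s t := tev_add s t i le_rfl hi
  map_smul' r s := by
    rw [tev_smul, rO_self]
    rfl
  invFun s := tmk (fun j => g.v j i inf_le_right (inf_le_left.trans hi) • rs M inf_le_left s) (by
    intro j l W' hW hj hl
    simp only [rs_smul, rO_v, rs_rs]
    rw [← g.v_v j l i hj hl (hW.trans hi), mul_smul])
  left_inv s := text (fun j => by
    simp only [tev_tmk, rs_smul, rs_tev, rO_v]
    rw [← tev_eq s j i _ inf_le_right (inf_le_left.trans hi)])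
  right_inv s := by
    simp only [tev_tmk, rs_rs, v_self, one_smul, rs_self]

@[simp] theorem twSec_apply (i : ι) {W : X.Opens} (hi : W ≤ U i) (s : Γ((tw g).obj M, W)) :
    twSec g M i hi s = tev s i le_rfl hi := rfl

theorem twSec_rs (i : ι) {W W' : X.Opens} (hi : W ≤ U i) (h : W' ≤ W)
    (s : Γ((tw g).obj M, W)) :
    twSec g M i (h.trans hi) (rs _ h s) = rs M h (twSec g M i hi s) :=
  (tev_rs h s i le_rfl (h.trans hi)).trans (rs_tev s i le_rfl hi h).symm

theorem twSec_symm_rs (i : ι) {W W' : X.Opens} (hi : W ≤ U i) (h : W' ≤ W) (s : Γ(M, W)) :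
    (twSec g M i (h.trans hi)).symm (rs M h s) = rs _ h ((twSec g M i hi).symm s) := by
  apply (twSec g M i (h.trans hi)).injective
  rw [LinearEquiv.apply_symm_apply, twSec_rs g M i hi h, LinearEquiv.apply_symm_apply]

theorem twSec_map {M N : X.Modules} (φ : M ⟶ N) (i : ι) {W : X.Opens} (hi : W ≤ U i)
    (s : Γ((tw g).obj M, W)) :
    twSec g N i hi (ap ((tw g).map φ) W s) = ap φ W (twSec g M i hi s) := by
  simp

theorem tev_twSec_symm (i j : ι) {W W' : X.Opens} (hi : W ≤ U i) (h : W' ≤ W) (hj : W' ≤ U j)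
    (s : Γ(M, W)) : tev ((twSec g M i hi).symm s) j h hj =
      g.v j i hj (h.trans hi) • rs M h s := by
  rw [tev_eq _ j i h hj (h.trans hi), ← rs_tev _ i le_rfl hi h, ← twSec_apply,
    LinearEquiv.apply_symm_apply]

/-- the rank of a twist -/
theorem rk_tw (i : ι) {W : X.Opens} (hi : W ≤ U i) : rk W ((tw g).obj M) = rk W M :=
  rk_eq_of_equiv (twSec g M i hi)

theorem finite_tw (i : ι) {W : X.Opens} (hi : W ≤ U i) (h : Module.Finite Γ(X, W) Γ(M, W)) :
    Module.Finite Γ(X, W) Γ((tw g).obj M, W) :=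
  Module.Finite.equiv (twSec g M i hi).symm

end Coc

/-- a twist of a torsion-free sheaf is torsion free on the members of the cover -/
theorem TFree.tw {M : X.Modules} (g : Coc U) (i : ι) (h : TFree (U i) M) :
    TFree (U i) ((Coc.tw g).obj M) :=
  h.of_injective (fun _ hV => (g.twSec M i hV).toLinearMap)
    (fun _ hV => (g.twSec M i hV).injective)
    (fun _ hV _ hW s => g.twSec_rs M i hV hW s)

/-- a twist of the structure sheaf of an integral scheme is torsion free -/
theorem tfree_tw_OX [IsIntegral X] (g : Coc U) (hU : ⨆ i, U i = ⊤) :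
    TFree ⊤ ((Coc.tw g).obj (OX X)) :=
  tfree_of_cover _ U hU fun i => (tfree_OX (U i)).tw g i

/-- a twist of a torsion-free sheaf on an integral scheme is torsion free -/
theorem TFree.tw_top [IsIntegral X] {M : X.Modules} (h : TFree ⊤ M) (g : Coc U)
    (hU : ⨆ i, U i = ⊤) : TFree ⊤ ((Coc.tw g).obj M) :=
  tfree_of_cover _ U hU fun i => (h.mono le_top).tw g i

end Fdim
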