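import Pool.Agent.Work.MP_f714fc_ag.Tw.TensorFun

/-!
MP_f714fc_ag: the tensor product of sheaves of modules respects isomorphisms in both variables;
iterated tensor products with a line bundle are twists.
-/

open CategoryTheory Limits TopologicalSpace AlgebraicGeometry Opposite

attribute [-instance] CategoryTheory.catToReflQuiver

universe u

namespace Fdim

noncomputable section

variable {X : Scheme.{u}}

/-- the presheaf tensor product respects isomorphisms -/
def preTensorIso {M M' N N' : X.Modules} (e : M ≅ M') (e' : N ≅ N') :
    preTensor M N ≅ preTensor M' N' :=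
  MonoidalCategory.tensorIso (C := PresheafOfModules.{u} (X.presheaf ⋙ forget₂ _ _))
    ((SheafOfModules.forget X.ringCatSheaf).mapIso e)
    ((SheafOfModules.forget X.ringCatSheaf).mapIso e')

/-- the tensor product respects isomorphisms -/
def tensCongr {M M' N N' : X.Modules} (e : M ≅ M') (e' : N ≅ N') :
    tensor M N ≅ tensor M' N' :=
  (PresheafOfModules.sheafification (𝟙 X.ringCatSheaf.obj)).mapIso (preTensorIso e e')

namespace Coc

variable {ι : Type u} {U : ι → X.Opens} [IsCov U]

/-- the tensor product with a line bundle is a twist -/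
def tensIso {L : X.Modules} {h : Coc U} (e : L ≅ (tw h).obj (OO X)) (M : X.Modules) :
    tensor M L ≅ (tw h).obj M :=
  tensCongr (Iso.refl M) e ≪≫ tensorIso h M

/-- iterated tensor products with a line bundle are twists -/
theorem tensIter {L : X.Modules} {h : Coc U} (e : L ≅ (tw h).obj (OO X)) (A : X.Modules)
    (n : ℕ) : Nonempty ((fun M => tensor M L)^[n] A ≅ (tw (h ^ n)).obj A) := by
  induction n with
  | zero => exact ⟨oneIsoApp (pow_zero h) A⟩
  | succ n ih =>
    rw [Function.iterate_succ_apply']
    obtain ⟨i⟩ := ih
    exact ⟨tensCongr i e ≪≫ tensorIso h _ ≪≫ (mulIso (pow_succ' h n).symm).app A⟩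

end Coc

end

end Fdim
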