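import Pool.Agent.Work.MP_f714fc_ag.Geo.CocDefs
import Pool.Agent.Work.MP_f714fc_ag.Geo.BrT
import Pool.Agent.Work.MP_f714fc_ag.Tw.MkB

/-!
MP_f714fc_ag: line bundles in terms of generating sections are twists of the structure sheaf by
cocycles; two line bundles which are inverse to each other are given by a cocycle and its inverse.
-/

open CategoryTheory CategoryTheory.Abelian Limits TopologicalSpace AlgebraicGeometry Opposite

attribute [-instance] CategoryTheory.catToReflQuiver

universe u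

namespace Fdim

noncomputable section

/-- sections of L over the members of a family of open subsets which generate L freely -/
structure LbFrame {X : Scheme.{u}} {ι : Type u} (U : ι → X.Opens) (L : X.Modules) where
  /-- the sections -/
  l : ∀ i, Γ(L, U i)
  bij : ∀ (i : ι) (W : X.Opens) (h : W ≤ U i),
    Function.Bijective fun r : Γ(X, W) => r • rs L h (l i)

namespace LbFrame

variable {X : Scheme.{u}} {ι : Type u} {U : ι → X.Opens} {L : X.Modules} (F : LbFrame U L)

/-- the coordinate of a section with respect to a frame -/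
def co (i : ι) {W : X.Opens} (h : W ≤ U i) (s : Γ(L, W)) : Γ(X, W) :=
  ((F.bij i W h).2 s).choose

theorem co_smul_l (i : ι) {W : X.Opens} (h : W ≤ U i) (s : Γ(L, W)) :
    F.co i h s • rs L h (F.l i) = s :=
  ((F.bij i W h).2 s).choose_spec

theorem co_eq (i : ι) {W : X.Opens} (h : W ≤ U i) {s : Γ(L, W)} {r : Γ(X, W)}
    (hr : r • rs L h (F.l i) = s) : F.co i h s = r :=
  (F.bij i W h).1 ((F.co_smul_l i h s).trans hr.symm)

theorem co_smul (i : ι) {W : X.Opens} (h : W ≤ U i) (r : Γ(X, W)) (s : Γ(L, W)) :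
    F.co i h (r • s) = r * F.co i h s :=
  F.co_eq i h (by rw [mul_smul, co_smul_l])

theorem co_add (i : ι) {W : X.Opens} (h : W ≤ U i) (s t : Γ(L, W)) :
    F.co i h (s + t) = F.co i h s + F.co i h t :=
  F.co_eq i h (by rw [add_smul, co_smul_l, co_smul_l])

theorem co_l (i : ι) {W : X.Opens} (h : W ≤ U i) : F.co i h (rs L h (F.l i)) = 1 :=
  F.co_eq i h (one_smul _ _)

theorem rO_co (i : ι) {W W' : X.Opens} (h : W ≤ U i) (h' : W' ≤ W) (s : Γ(L, W)) :
    rO h' (F.co i h s) = F.co i (h'.trans h) (rs L h' s) := by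
  symm
  apply F.co_eq
  rw [← rs_rs L h h', ← rs_smul, co_smul_l]

theorem co_mul (i j : ι) {W : X.Opens} (hi : W ≤ U i) (hj : W ≤ U j) (s : Γ(L, W)) :
    F.co i hi (rs L hj (F.l j)) * F.co j hj s = F.co i hi s := by
  rw [mul_comm, ← co_smul, co_smul_l]

theorem co_bijective (i : ι) {W : X.Opens} (h : W ≤ U i) :
    Function.Bijective (F.co i h) := by
  constructor
  · intro s t hst
    rw [← F.co_smul_l i h s, ← F.co_smul_l i h t, hst]
  · intro r
    exact ⟨r • rs L h (F.l i), F.co_eq i h rfl⟩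

/-- the cocycle of a frame -/
def coc : Coc U :=
  ⟨fun i j =>
    { val := F.co i inf_le_left (rs L inf_le_right (F.l j))
      inv := F.co j inf_le_right (rs L inf_le_left (F.l i))
      val_inv := by rw [co_mul, co_l]
      inv_val := by rw [co_mul, co_l] }, by
    intro i j k
    change rO _ (F.co i _ _) * rO _ (F.co j _ _) = rO _ (F.co i _ _)
    rw [rO_co, rO_co, rO_co, rs_rs, rs_rs, rs_rs]
    exact F.co_mul i j _ _ _⟩

theorem coc_v (i j : ι) {W : X.Opens} (hi : W ≤ U i) (hj : W ≤ U j) :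
    F.coc.v i j hi hj = F.co i hi (rs L hj (F.l j)) := by
  rw [Coc.v]
  change rO _ (F.co i _ _) = _
  rw [rO_co, rs_rs]

/-- the coordinates of sections with respect to a frame, as a morphism -/
def hom : L ⟶ (Coc.tw F.coc).obj (Coc.OO X) :=
  Coc.lift F.coc (N := L) (M := Coc.OO X)
    (fun i W hi => (AddMonoidHom.mk' (F.co i hi) (F.co_add i hi) : Γ(L, W) →+ Γ(X, W)))
    (fun i W hi r s => F.co_smul i hi r s)
    (fun i W W' hi h s => F.rO_co i hi h s)
    (fun i j W hi hj s => by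
      change F.co i hi s = F.coc.v i j hi hj * F.co j hj s
      rw [coc_v, co_mul])

theorem tevL_hom (i : ι) {W : X.Opens} (hi : W ≤ U i) (s : Γ(L, W)) :
    Coc.tevL F.coc (Coc.OO X) i hi (ap F.hom W s) = F.co i hi s := by
  rw [Coc.tevL_apply]
  refine (Coc.tev_lift (g := F.coc) (N := L) (M := Coc.OO X) _ _ _ _ s i le_rfl hi).trans ?_
  change F.co i hi (rs L le_rfl s) = _
  rw [rs_self]

/-- a sheaf with a frame over a cover is the twist of the structure sheaf by the cocycle of the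
frame -/
theorem isIso_hom [IsCov U] : IsIso F.hom := by
  refine isIso_of_locally F.hom U IsCov.cov fun i V hV => ?_
  have h1 : Function.Bijective fun s => Coc.tevL F.coc (Coc.OO X) i hV (ap F.hom V s) := by
    have h2 : (fun s => Coc.tevL F.coc (Coc.OO X) i hV (ap F.hom V s)) = F.co i hV :=
      funext fun s => F.tevL_hom i hV s
    rw [h2]
    exact F.co_bijective i hV
  exact (Function.Bijective.of_comp_iff' (Coc.tevL F.coc (Coc.OO X) i hV).bijective _).1 h1

/-- restriction of a frame to a finer family -/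
def pull {κ : Type u} (V : κ → X.Opens) (f : κ → ι) (h : ∀ k, V k ≤ U (f k)) : LbFrame V L where
  l k := rs L (h k) (F.l (f k))
  bij k W hW := by
    have h1 := F.bij (f k) W (hW.trans (h k))
    simpa only [rs_rs] using h1

end LbFrame

end

variable {X : Scheme.{0}}

/-- a line bundle has a frame over a cover -/
theorem IsLineBundle.exists_frame {L : X.Modules} (h : IsLineBundle L) :
    ∃ (ι : Type) (U : ι → X.Opens), ⨆ i, U i = ⊤ ∧ Nonempty (LbFrame U L) := by
  obtain ⟨ι, U, l, h1, h2⟩ := h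
  exact ⟨ι, U, h1, ⟨⟨l, h2⟩⟩⟩

/-- a pair of inverse line bundles is given by a cocycle and its inverse -/
theorem exists_coc {ω L : X.Modules} (hω : IsLineBundle ω) (hL : IsLineBundle L)
    (e : Nonempty (tens ω L ≅ strSheaf X)) : ∃ K : LineBundle X,
      Nonempty (ω ≅ (Coc.tw K.g).obj (Coc.OO X)) ∧
      Nonempty (L ≅ (Coc.tw K.g⁻¹).obj (Coc.OO X)) := by
  obtain ⟨ι, U, hU, ⟨F⟩⟩ := hω.exists_frame
  obtain ⟨κ, V, hV, ⟨G⟩⟩ := hL.exists_frame
  obtain ⟨e⟩ := e
  let W : ι × κ → X.Opens := fun p => U p.1 ⊓ V p.2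
  have hW : ⨆ p, W p = ⊤ := by
    rw [← hU, ← inf_top_eq (⨆ i, U i), ← hV, iSup_inf_iSup]
  have : IsCov W := ⟨hW⟩
  let F' : LbFrame W ω := F.pull W Prod.fst fun p => inf_le_left
  let G' : LbFrame W L := G.pull W Prod.snd fun p => inf_le_right
  have := F'.isIso_hom
  have := G'.isIso_hom
  let a : ω ≅ (Coc.tw F'.coc).obj (Coc.OO X) := asIso F'.hom
  let b : L ≅ (Coc.tw G'.coc).obj (Coc.OO X) := asIso G'.hom
  let c : (Coc.tw (G'.coc * F'.coc)).obj (Coc.OO X) ≅ Coc.OO X :=
    ((Coc.mulIso rfl).app _).symm ≪≫ (Coc.tw G'.coc).mapIso a.symm ≪≫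
      (Coc.tensIso b ω).symm ≪≫ e
  refine ⟨⟨ι × κ, W, hW, F'.coc⟩, ⟨a⟩, ⟨?_⟩⟩
  exact b ≪≫ ((Coc.mulIso (inv_mul_cancel_comm_assoc F'.coc G'.coc)).app _).symm ≪≫
    (Coc.tw F'.coc⁻¹).mapIso c

end Fdim
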