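import Pool.Agent.Work.MP_f714fc_ag.Geo.CocDefs
import Pool.Agent.Work.MP_f714fc_ag.Geo.BrT
import Pool.Agent.Work.MP_f714fc_ag.Abs.SerreIso

/-!
MP_f714fc_ag: Fano varieties in terms of sheaves of modules are Fano varieties in terms of
cocycles.
-/

open CategoryTheory CategoryTheory.Abelian Limits TopologicalSpace AlgebraicGeometry Opposite

attribute [-instance] CategoryTheory.catToReflQuiver

namespace Fdim

/-- Serre duality of A and M depends only on M up to isomorphism -/
theorem SerreDual.congr {k : Type*} [Field k] {C : Type*} [Category C] [Abelian C] [Linear k C]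
    [HasExt C] {n : ℕ} {A M M' : C} (h : SerreDual k n A M) (e : M ≅ M') :
    SerreDual k n A M' := by
  obtain ⟨tr, htr⟩ := h
  exact ⟨_, fun B => ⟨fun p q hpq => serrePairing_isPerfPair_iso e tr B p q hpq ((htr B).1 p q hpq),
    (htr B).2⟩⟩

/-- global generation is invariant under isomorphisms -/
theorem GloballyGenerated.congr {X : Scheme.{0}} {A A' : X.Modules} (h : GloballyGenerated A)
    (e : A ≅ A') : GloballyGenerated A' := by
  obtain ⟨j, f, hf⟩ := h
  refine ⟨j, fun i => f i ≫ e.hom, fun B g hg => ?_⟩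
  have h1 : e.hom ≫ g = 0 := hf B (e.hom ≫ g) (fun i => by
    rw [← Category.assoc]
    exact hg i)
  rw [← cancel_epi e.hom, h1, comp_zero]

/-- a coherent sheaf generated by global sections as a sheaf of modules is generated by global
sections in the category of coherent sheaves -/
theorem GloballyGenerated.genBySections {X : Scheme.{0}} {A : Coh X}
    (h : GloballyGenerated A.obj) : GenBySections (Coh.O X) A := by
  obtain ⟨j, f, hf⟩ := h
  refine ⟨j, fun i => ObjectProperty.homMk (f i), fun B g hg => ?_⟩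
  apply (IsCoh X).hom_ext
  exact hf B.obj g.hom (fun i => congrArg (fun φ => φ.hom) (hg i))

section

variable {X : Scheme.{0}} {ι : Type} {U : ι → X.Opens} [IsCov U] {ω L : X.Modules} {g : Coc U}

/-- the canonical bundle in terms of cocycles -/
theorem IsCanonical.isSerreTwist [X.Over SpecC] [IsLocallyNoetherian X] {n : ℕ}
    (h : IsCanonical ω n) (e : ω ≅ (Coc.tw g).obj (Coc.OO X)) :
    IsSerreTwist ℂ n (Coc.twCoh g) := by
  intro A
  obtain ⟨M, ⟨e1⟩, hM⟩ := h A
  have e2 : M ≅ (Coc.twCoh g).obj A :=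
    (IsCoh X).isoMk (e1 ≪≫ Coc.tensIso e A.obj)
  exact hM.congr e2

/-- ampleness in terms of cocycles -/
theorem IsAmple.isAmpleTwist (h : IsAmple L) (e : L ≅ (Coc.tw g⁻¹).obj (Coc.OO X)) :
    IsAmpleTwist (Coh.O X) fun m : ℤ => Coc.twCoh (g ^ (-m)) := by
  intro A
  obtain ⟨N, hN⟩ := h A
  refine ⟨N, fun m hm => ?_⟩
  obtain ⟨n, rfl⟩ := Int.eq_ofNat_of_zero_le ((Int.natCast_nonneg N).trans hm)
  obtain ⟨i⟩ := Coc.tensIter e A.obj n
  have h1 : g⁻¹ ^ n = g ^ (-(n : ℤ)) := by rw [inv_pow, zpow_neg, zpow_natCast]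
  have i' : (fun M => tensor M L)^[n] A.obj ≅ (Coc.tw (g ^ (-(n : ℤ)))).obj A.obj :=
    i ≪≫ eqToIso (by rw [h1])
  have h2 : GloballyGenerated ((Coc.twCoh (g ^ (-(n : ℤ)))).obj A).obj :=
    (hN n (by exact_mod_cast hm)).congr i'
  exact h2.genBySections

end

/-- Fano varieties from cocycle data -/
theorem SmoothProjVar.isFanoCoc_of (V : SmoothProjVar) {n : ℕ}
    (hdim : topologicalKrullDim V.X = n) {ω L : V.X.Modules} {ι : Type} {U : ι → V.X.Opens}
    [hU : IsCov U] {g : Coc U} (e1 : ω ≅ (Coc.tw g).obj (Coc.OO V.X))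
    (e2 : L ≅ (Coc.tw g⁻¹).obj (Coc.OO V.X)) (hc : IsCanonical ω n) (ha : IsAmple L) :
    V.IsFanoCoc n :=
  ⟨hdim, ⟨ι, U, hU.cov, g⟩, hc.isSerreTwist e1, ha.isAmpleTwist e2⟩

end Fdim
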