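import Pool.Agent.Work.MP_f714fc_ag.Geo.CocDefs
import Pool.Agent.Work.MP_f714fc_ag.Geo.BrT

/-!
MP_f714fc_ag: a variety which is Fano in terms of cocycles is Fano.
-/

open CategoryTheory CategoryTheory.Abelian Limits TopologicalSpace AlgebraicGeometry Opposite

attribute [-instance] CategoryTheory.catToReflQuiver

namespace Fdim

variable {X : Scheme.{0}}

/-- the twists of the structure sheaf by a cocycle and by its inverse are inverse -/
theorem tens_tw_inv {ι : Type} {U : ι → X.Opens} [IsCov U] (g : Coc U) :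
    Nonempty (tens ((Coc.tw g).obj (Coc.OO X)) ((Coc.tw g⁻¹).obj (Coc.OO X)) ≅ strSheaf X) :=
  ⟨Coc.tensorIso g⁻¹ _ ≪≫ (Coc.mulIso (inv_mul_cancel g)).app (Coc.OO X) ≪≫
    (Coc.oneIsoApp rfl (Coc.OO X)).symm⟩

/-- generation by global sections respects isomorphisms -/
theorem GloballyGenerated.of_iso {A B : X.Modules} (h : GloballyGenerated A) (e : A ≅ B) :
    GloballyGenerated B := by
  obtain ⟨j, f, hf⟩ := h
  refine ⟨j, fun i => f i ≫ e.hom, fun C g hg => ?_⟩
  rw [← cancel_epi e.hom, comp_zero]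
  exact hf C (e.hom ≫ g) fun i => by rw [← Category.assoc]; exact hg i

section Noeth

variable [IsLocallyNoetherian X]

/-- jointly epimorphic families of morphisms of coherent sheaves are jointly epimorphic in the
category of sheaves of modules -/
theorem gen_of_gen {O A : Coh X} {j : ℕ} (f : Fin j → (O ⟶ A))
    (h : ∀ (B : Coh X) (g : A ⟶ B), (∀ i, f i ≫ g = 0) → g = 0) (B : X.Modules)
    (g : A.obj ⟶ B) (hg : ∀ i, (f i).hom ≫ g = 0) : g = 0 := by
  have : HasFiniteBiproducts (Coh X) := Abelian.hasFiniteBiproducts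
  let F : (⨁ fun _ : Fin j => O) ⟶ A := biproduct.desc f
  have h1 : Epi F := by
    apply Preadditive.epi_of_cancel_zero
    intro B g hg
    apply h
    intro i
    have := congrArg (fun x => biproduct.ι (fun _ : Fin j => O) i ≫ x) hg
    simpa [F] using this
  have h2 : Epi F.hom := (Coh.epi_iff F).1 h1
  rw [← cancel_epi F.hom, comp_zero]
  have h3 : F = ∑ i, biproduct.π (fun _ : Fin j => O) i ≫ f i := by
    rw [← Category.id_comp F, ← biproduct.total, Preadditive.sum_comp]
    simp [F]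
  have h4 : F.hom = ∑ i, (biproduct.π (fun _ : Fin j => O) i).hom ≫ (f i).hom := by
    rw [h3]
    change (IsCoh X).ι.map _ = _
    rw [Functor.map_sum]
    rfl
  rw [h4, Preadditive.sum_comp]
  apply Finset.sum_eq_zero
  intro i _
  rw [Category.assoc, hg, comp_zero]

/-- a coherent sheaf generated by global sections in the category of coherent sheaves is
generated by global sections -/
theorem GenBySections.globallyGenerated {A : Coh X} (h : GenBySections (Coh.O X) A) :
    GloballyGenerated A.obj := by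
  obtain ⟨j, f, hf⟩ := h
  exact ⟨j, fun i => (f i).hom, gen_of_gen f hf⟩

/-- the twist of the structure sheaf by a cocycle of a line bundle with ample inverse -/
theorem LineBundle.InvAmple.isAmple [X.Over SpecC] {ω : LineBundle X} (h : ω.InvAmple) :
    IsAmple ((Coc.tw ω.g⁻¹).obj (Coc.OO X)) := by
  intro A
  obtain ⟨n₀, hn⟩ := h A
  refine ⟨n₀.toNat, fun n hn' => ?_⟩
  obtain ⟨e⟩ := Coc.tensIter (Iso.refl ((Coc.tw ω.g⁻¹).obj (Coc.OO X))) A.obj n
  have h1 := (hn (n : ℤ) (by omega)).globallyGenerated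
  have h2 : ω.g⁻¹ ^ n = ω.g ^ (-(n : ℤ)) := by rw [zpow_neg, zpow_natCast, inv_pow]
  rw [h2] at e
  exact h1.of_iso e.symm

/-- Serre duality for the twist by a cocycle -/
theorem LineBundle.IsCanonical.isCanonical [X.Over SpecC] {ω : LineBundle X} {n : ℕ}
    (h : ω.IsCanonical n) : Fdim.IsCanonical ((Coc.tw ω.g).obj (Coc.OO X)) n := fun A =>
  ⟨(Coc.twCoh ω.g).obj A, ⟨(Coc.tensorIso ω.g A.obj).symm⟩, h A⟩

end Noeth

/-- a variety which is Fano in terms of cocycles is Fano -/
theorem SmoothProjVar.IsFanoCoc.isFano'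
    (hL : ∀ (X : Scheme.{0}) (ι : Type) (U : ι → X.Opens) [IsCov U] (g : Coc U),
      IsLineBundle ((Coc.tw g).obj (Coc.OO X))) {V : SmoothProjVar} {n : ℕ}
    (h : V.IsFanoCoc n) : V.IsFano n := by
  obtain ⟨hd, ω, h1, h2⟩ := h
  exact ⟨hd, (Coc.tw ω.g).obj (Coc.OO V.X), (Coc.tw ω.g⁻¹).obj (Coc.OO V.X), hL _ _ _ _,
    hL _ _ _ _, tens_tw_inv ω.g, h1.isCanonical, h2.isAmple⟩

end Fdim
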