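import Pool.Agent.Work.MP_f714fc_ag.Geo.BrB
import Pool.Agent.Work.MP_f714fc_ag.Geo.BrA

/-!
MP_f714fc_ag: Fano varieties in terms of sheaves of modules are Fano varieties in terms of
cocycles.
-/

open CategoryTheory CategoryTheory.Abelian Limits TopologicalSpace AlgebraicGeometry Opposite

attribute [-instance] CategoryTheory.catToReflQuiver

namespace Fdim

/-- bridge -/
theorem SmoothProjVar.IsFano.coc {V : SmoothProjVar} {n : ℕ} (h : V.IsFano n) :
    V.IsFanoCoc n := by
  obtain ⟨hdim, ω, L, hω, hL, e, hc, ha⟩ := h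
  obtain ⟨K, ⟨e1⟩, ⟨e2⟩⟩ := exists_coc hω hL e
  exact V.isFanoCoc_of hdim e1 e2 hc ha

end Fdim
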