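import Pool.Agent.Work.MP_f714fc_ag.Geo.BrB

/-!
MP_f714fc_ag: the inverse of a line bundle in terms of cocycles.
-/

open CategoryTheory CategoryTheory.Abelian Limits TopologicalSpace AlgebraicGeometry Opposite

attribute [-instance] CategoryTheory.catToReflQuiver

namespace Fdim

/-- If the tensor product of the line bundles of g and h is trivial, then the line bundle of h is
the line bundle of the inverse of g. -/
theorem Coc.nonempty_iso_inv {X : Scheme.{0}} {ι : Type} {U : ι → X.Opens} [IsCov U]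
    {ω L : X.Modules} {g h : Coc U} (e1 : ω ≅ (Coc.tw g).obj (Coc.OO X))
    (e2 : L ≅ (Coc.tw h).obj (Coc.OO X)) (e : tens ω L ≅ strSheaf X) :
    Nonempty (L ≅ (Coc.tw g⁻¹).obj (Coc.OO X)) := by
  have h1 : (Coc.tw (h * g)).obj (Coc.OO X) ≅ Coc.OO X :=
    ((Coc.mulIso (rfl : h * g = h * g)).app (Coc.OO X)).symm ≪≫ (Coc.tw h).mapIso e1.symm ≪≫
      (Coc.tensIso e2 ω).symm ≪≫ e
  have h2 : g⁻¹ * (h * g) = h := by rw [mul_comm h g, inv_mul_cancel_left]
  exact ⟨e2 ≪≫ ((Coc.mulIso h2).app (Coc.OO X)).symm ≪≫ (Coc.tw g⁻¹).mapIso h1⟩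

/-- Fano varieties from two line bundles given by cocycles on a common cover -/
theorem SmoothProjVar.isFanoCoc_of_pair (V : SmoothProjVar) {n : ℕ}
    (hdim : topologicalKrullDim V.X = n) {ω L : V.X.Modules} {ι : Type} {U : ι → V.X.Opens}
    [IsCov U] {g h : Coc U} (e1 : ω ≅ (Coc.tw g).obj (Coc.OO V.X))
    (e2 : L ≅ (Coc.tw h).obj (Coc.OO V.X)) (e : tens ω L ≅ strSheaf V.X)
    (hc : IsCanonical ω n) (ha : IsAmple L) : V.IsFanoCoc n := by
  obtain ⟨i⟩ := Coc.nonempty_iso_inv e1 e2 e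
  exact V.isFanoCoc_of hdim e1 i hc ha

end Fdim
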