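import Pool.Agent.Work.MP_f714fc_ag.Geo.BrC
import Pool.Agent.Work.MP_f714fc_ag.Tw.Local

/-!
MP_f714fc_ag: the twist of the structure sheaf by a cocycle is a line bundle; a variety which is
Fano in terms of cocycles is Fano.
-/

open CategoryTheory CategoryTheory.Abelian Limits TopologicalSpace AlgebraicGeometry Opposite

attribute [-instance] CategoryTheory.catToReflQuiver

namespace Fdim

/-- the twist of the structure sheaf by a cocycle is a line bundle -/
theorem isLineBundle_tw {X : Scheme.{0}} {ι : Type} {U : ι → X.Opens} [IsCov U] (g : Coc U) :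
    IsLineBundle ((Coc.tw g).obj (Coc.OO X)) := by
  refine ⟨ι, U, fun i => Coc.tinv g (Coc.OO X) i le_rfl (1 : Γ(X, U i)), IsCov.cov,
    fun i W h => ?_⟩
  have key : ∀ r : Γ(X, W), (Coc.tevL g (Coc.OO X) i h) (r • rs ((Coc.tw g).obj (Coc.OO X)) h
      (Coc.tinv g (Coc.OO X) i le_rfl (1 : Γ(X, U i)))) = r := by
    intro r
    rw [map_smul, Coc.tevL_rs i (le_refl (U i)) h, Coc.tevL_apply, Coc.tev_tinv, Coc.v_self, one_smul]
    rw [rs_self, Coc.rs_OO, map_one]
    exact mul_one r
  constructor
  · intro r s hrs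
    have := congrArg (Coc.tevL g (Coc.OO X) i h) hrs
    exact (key r).symm.trans (this.trans (key s))
  · intro s
    exact ⟨Coc.tevL g (Coc.OO X) i h s, (Coc.tevL g (Coc.OO X) i h).injective (key _)⟩

/-- a variety which is Fano in terms of cocycles is Fano -/
theorem SmoothProjVar.IsFanoCoc.isFano {V : SmoothProjVar} {n : ℕ} (h : V.IsFanoCoc n) :
    V.IsFano n :=
  SmoothProjVar.IsFanoCoc.isFano' (fun _ _ _ _ g => isLineBundle_tw g) h

end Fdim
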