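import Pool.Agent.Work.MP_f714fc_ag.Geo.CohAb
import Pool.Agent.Work.MP_f714fc_ag.CA.Dim

/-!
# Charts: sections on affine opens as exact functors, dimension of charts
-/

open CategoryTheory Limits TopologicalSpace AlgebraicGeometry Opposite

attribute [-instance] CategoryTheory.catToReflQuiver

universe u

namespace Fdim

noncomputable section

variable {X : Scheme.{u}}

/-- the dimension of an affine chart -/
theorem ringKrullDim_chart_le {n : WithBot ℕ∞} (h : topologicalKrullDim X ≤ n) {U : X.Opens}
    (hU : IsAffineOpen U) : ringKrullDim Γ(X, U) ≤ n := by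
  rw [← PrimeSpectrum.topologicalKrullDim_eq_ringKrullDim]
  change topologicalKrullDim (Spec Γ(X, U)) ≤ n
  rw [← IsHomeomorph.topologicalKrullDim_eq _ hU.isoSpec.hom.homeomorph.isHomeomorph]
  exact (topologicalKrullDim_subspace_le X U).trans h

end

end Fdim
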