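import Pool.Agent.Work.MP_f714fc_ag.Coh.Qc
import Pool.Agent.Work.MP_f714fc_ag.Geo.RankMod

/-!
# The rank does not depend on the affine open subset
-/

open CategoryTheory Limits TopologicalSpace AlgebraicGeometry Opposite

attribute [-instance] CategoryTheory.catToReflQuiver

universe u

namespace Fdim

variable {X : Scheme.{u}}

/-- sections on a smaller open subset as a module over the functions on the larger one -/
@[reducible] noncomputable def resModule (M : X.Modules) {U V : X.Opens} (h : V ≤ U) :
    Module Γ(X, U) Γ(M, V) := Module.compHom _ (rO h)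

/-- the restriction as a linear map -/
noncomputable def rsl (M : X.Modules) {U V : X.Opens} (h : V ≤ U) :
    letI := resModule M h
    Γ(M, U) →ₗ[Γ(X, U)] Γ(M, V) :=
  letI := resModule M h
  { toFun := rs M h
    map_add' := map_add _
    map_smul' := fun r s => rs_smul M h r s }

theorem rsl_apply (M : X.Modules) {U V : X.Opens} (h : V ≤ U) (s : Γ(M, U)) :
    letI := resModule M h
    rsl M h s = rs M h s := rfl

theorem isUnit_rO_basicOpen {U : X.Opens} (f : Γ(X, U)) :
    IsUnit (rO (X.basicOpen_le f) f) := by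
  have := (X.toLocallyRingedSpace.toRingedSpace.isUnit_res_basicOpen f)
  exact this

/-- sections of a quasi-coherent sheaf on a basic open subset of an affine open subset are the
localization -/
theorem isLocalizedModule_rsl (M : X.Modules) [M.IsQuasicoherent] {U : X.Opens}
    (hU : IsAffineOpen U) (f : Γ(X, U)) :
    letI := resModule M (X.basicOpen_le f)
    IsLocalizedModule (Submonoid.powers f) (rsl M (X.basicOpen_le f)) := by
  let _ := resModule M (X.basicOpen_le f)
  constructor
  · rintro ⟨_, n, rfl⟩
    rw [Module.End.isUnit_iff]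
    have hu : IsUnit (rO (X.basicOpen_le f) (f ^ n)) := by
      rw [map_pow]
      exact (isUnit_rO_basicOpen f).pow n
    obtain ⟨v, hv⟩ := hu
    constructor
    · intro s t hst
      have h1 : rO (X.basicOpen_le f) (f ^ n) • s = rO (X.basicOpen_le f) (f ^ n) • t := hst
      rw [← hv] at h1
      exact (smul_left_cancel_iff v).1 h1
    · intro s
      refine ⟨v⁻¹ • s, ?_⟩
      change rO (X.basicOpen_le f) (f ^ n) • v⁻¹ • s = s
      rw [← hv]
      exact smul_inv_smul v s
  · intro s
    obtain ⟨n, t, ht⟩ := Coh.qc_exists hU M f s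
    refine ⟨(t, ⟨f ^ n, n, rfl⟩), ?_⟩
    change rO (X.basicOpen_le f) (f ^ n) • s = rs M (X.basicOpen_le f) t
    rw [map_pow]
    exact ht.symm
  · intro s t hst
    have h1 : rs M (X.basicOpen_le f) (s - t) = 0 := by
      rw [map_sub, sub_eq_zero]
      exact hst
    obtain ⟨n, hn⟩ := Coh.qc_unique hU M f (s - t) h1
    refine ⟨⟨f ^ n, n, rfl⟩, ?_⟩
    rw [smul_sub, sub_eq_zero] at hn
    exact hn

/-- the rank may be computed on a basic open subset -/
theorem rk_basicOpen [IsIntegral X] (M : X.Modules) [M.IsQuasicoherent] {U : X.Opens}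
    (hU : IsAffineOpen U) (f : Γ(X, U)) (hf : ((X.basicOpen f : X.Opens) : Set X).Nonempty) :
    rk (X.basicOpen f) M = rk U M := by
  let _ := resModule M (X.basicOpen_le f)
  have hne : Nonempty U := by
    obtain ⟨x, hx⟩ := hf
    exact ⟨x, X.basicOpen_le f hx⟩
  have hf0 : f ≠ 0 := by
    rintro rfl
    rw [Scheme.basicOpen_zero] at hf
    exact absurd hf (by simp)
  have h1 := isLocalizedModule_rsl M hU f
  have h2 := hU.isLocalization_basicOpen f
  have h3 : IsScalarTower Γ(X, U) Γ(X, X.basicOpen f) Γ(M, X.basicOpen f) := by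
    constructor
    intro a b s
    change (rO (X.basicOpen_le f) a * b) • s = rO (X.basicOpen_le f) a • b • s
    rw [mul_smul]
  have hp : Submonoid.powers f ≤ nonZeroDivisors Γ(X, U) := powers_le_nonZeroDivisors_of_noZeroDivisors hf0
  rw [rk, rk, IsLocalization.finrank_eq Γ(X, X.basicOpen f) (Submonoid.powers f) hp,
    IsLocalizedModule.finrank_eq (Submonoid.powers f) (rsl M (X.basicOpen_le f)) hp]

/-- the rank does not depend on the nonempty affine open subset -/
theorem rk_eq_rk [IsIntegral X] (M : X.Modules) [M.IsQuasicoherent] {U V : X.Opens}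
    (hU : IsAffineOpen U) (hV : IsAffineOpen V) (hU' : (U : Set X).Nonempty)
    (hV' : (V : Set X).Nonempty) : rk U M = rk V M := by
  obtain ⟨x, hx⟩ := nonempty_preirreducible_inter U.2 V.2 hU' hV'
  obtain ⟨f, g, hfg, hxf⟩ := exists_basicOpen_le_affine_inter hU hV x hx
  rw [← rk_basicOpen M hU f ⟨x, hxf⟩, ← rk_basicOpen M hV g ⟨x, hfg ▸ hxf⟩, hfg]

/-- a finitely generated module over a domain of rank zero is killed by a nonzero element -/
theorem exists_smul_eq_zero_of_finrank_eq_zero {R M : Type*} [CommRing R] [IsDomain R]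
    [AddCommGroup M] [Module R M] [Module.Finite R M] (h : Module.finrank R M = 0) :
    ∃ a : R, a ≠ 0 ∧ ∀ m : M, a • m = 0 := by
  have ht : Module.IsTorsion R M := by
    intro m
    by_contra hm
    push Not at hm
    have hli : LinearIndependent R (fun _ : Unit => m) := by
      rw [linearIndependent_iff']
      intro s c hs i hi
      have h2 : s = {i} := by
        ext j
        simp [Subsingleton.elim j i, hi]
      rw [h2, Finset.sum_singleton] at hs
      by_contra hc
      exact hm ⟨c i, mem_nonZeroDivisors_of_ne_zero hc⟩ hs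
    have := hli.fintype_card_le_finrank
    simp [h] at this
  obtain ⟨a, ha, ha0⟩ := Submodule.annihilator_top_inter_nonZeroDivisors ht
  refine ⟨a, nonZeroDivisors.ne_zero ha0, fun m => ?_⟩
  exact Submodule.mem_annihilator.1 ha m trivial

/-- a module over a domain which is killed by a nonzero element has rank zero -/
theorem finrank_eq_zero_of_smul_eq_zero {R M : Type*} [CommRing R] [IsDomain R]
    [AddCommGroup M] [Module R M] {a : R} (ha : a ≠ 0) (h : ∀ m : M, a • m = 0) :
    Module.finrank R M = 0 := by
  have : Module.rank R M = 0 := by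
    rw [rank_eq_zero_iff]
    exact fun m => ⟨a, ha, h m⟩
  rw [Module.finrank, this]
  simp

/-- a coherent sheaf of rank zero is torsion on every nonempty affine open subset -/
theorem exists_smul_eq_zero_of_rk_eq_zero [IsIntegral X] (M : X.Modules) [M.IsQuasicoherent]
    {U V : X.Opens} (hU : IsAffineOpen U) (hV : IsAffineOpen V) (hU' : (U : Set X).Nonempty)
    (hV' : (V : Set X).Nonempty) (hfin : Module.Finite Γ(X, V) Γ(M, V)) (h : rk U M = 0) :
    ∃ a : Γ(X, V), a ≠ 0 ∧ ∀ s : Γ(M, V), a • s = 0 := by
  have : Nonempty V := hV'.to_subtype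
  rw [rk_eq_rk M hU hV hU' hV'] at h
  exact exists_smul_eq_zero_of_finrank_eq_zero h

/-- a sheaf without sections on all small open subsets of a cover is zero -/
theorem isZero_of_cover {ι : Type*} (M : X.Modules) (U : ι → X.Opens) (hU : ⨆ i, U i = ⊤)
    (h : ∀ i, ∀ W ≤ U i, ∀ s : Γ(M, W), s = 0) : IsZero M := by
  rw [IsZero.iff_id_eq_zero]
  apply hom_ext'
  intro V s
  rw [ap_id, ap_zero]
  have hc : V ≤ ⨆ i, U i ⊓ V := by rw [← iSup_inf_eq, hU, top_inf_eq]
  refine sec_ext M (fun i => (inf_le_right : U i ⊓ V ≤ V)) hc fun i => ?_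
  rw [h i _ inf_le_left (rs M _ s), map_zero]

/-- a quasi-coherent sheaf without sections on the members of an affine cover is zero -/
theorem isZero_of_affine_cover {ι : Type*} (M : X.Modules) [M.IsQuasicoherent] (U : ι → X.Opens)
    (hU : ⨆ i, U i = ⊤) (hA : ∀ i, IsAffineOpen (U i)) (h : ∀ i, ∀ s : Γ(M, U i), s = 0) :
    IsZero M :=
  isZero_of_cover M U hU fun i => sec_eq_zero_of_qc (hA i) (h i)

end Fdim
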