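import Pool.Agent.Work.MP_f714fc_ag.Geo.CohAb
import Pool.Agent.Work.MP_f714fc_ag.Geo.RankTw
import Pool.Agent.Work.MP_f714fc_ag.Geo.RankLoc

/-!
# The generic rank of coherent sheaves on an integral scheme
-/

open CategoryTheory Limits TopologicalSpace AlgebraicGeometry Opposite

attribute [-instance] CategoryTheory.catToReflQuiver

universe u

namespace Fdim

variable {X : Scheme.{u}}

theorem exists_affine_nonempty (X : Scheme.{u}) [Nonempty X] :
    ∃ U : X.Opens, IsAffineOpen U ∧ (U : Set X).Nonempty := by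
  obtain ⟨x⟩ := ‹Nonempty X›
  obtain ⟨U, hU, hx, -⟩ := exists_isAffineOpen_mem_and_subset (X := X) (x := x) (U := ⊤) trivial
  exact ⟨U, hU, x, hx⟩

/-- a nonempty affine open subset inside a nonempty open subset -/
theorem exists_affine_le (V : X.Opens) (hV : (V : Set X).Nonempty) :
    ∃ U : X.Opens, IsAffineOpen U ∧ (U : Set X).Nonempty ∧ U ≤ V := by
  obtain ⟨x, hx⟩ := hV
  obtain ⟨U, hU, hxU, h⟩ := exists_isAffineOpen_mem_and_subset (X := X) (x := x) (U := V) hx
  exact ⟨U, hU, ⟨x, hxU⟩, h⟩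

/-- the generic rank of a coherent sheaf -/
noncomputable def Coh.r [IsIntegral X] (A : Coh X) : ℕ :=
  rk (exists_affine_nonempty X).choose A.obj

instance Coh.isQuasicoherent (A : Coh X) : A.obj.IsQuasicoherent := A.property.1

theorem Coh.finite (A : Coh X) {U : X.Opens} (hU : IsAffineOpen U) :
    Module.Finite Γ(X, U) Γ(A.obj, U) := A.property.2 ⟨U, hU⟩

variable [IsIntegral X]

/-- the rank may be computed on every nonempty affine open subset -/
theorem Coh.r_eq_rk (A : Coh X) {U : X.Opens} (hU : IsAffineOpen U) (hne : (U : Set X).Nonempty) :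
    Coh.r A = rk U A.obj :=
  rk_eq_rk A.obj (exists_affine_nonempty X).choose_spec.1 hU
    (exists_affine_nonempty X).choose_spec.2 hne

theorem Coh.r_eq_finrank (A : Coh X) {U : X.Opens} (hU : IsAffineOpen U)
    (hne : (U : Set X).Nonempty) : Coh.r A = Module.finrank Γ(X, U) Γ(A.obj, U) :=
  Coh.r_eq_rk A hU hne

theorem Coh.r_eq_of_iso {A B : Coh X} (e : A ≅ B) : Coh.r A = Coh.r B :=
  rk_eq_of_iso _ ((IsCoh X).ι.mapIso e)

theorem Coh.r_add [IsLocallyNoetherian X] (S : ShortComplex (Coh X)) (hS : S.ShortExact) :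
    Coh.r S.X₂ = Coh.r S.X₁ + Coh.r S.X₃ := by
  obtain ⟨U, hU, hne⟩ := exists_affine_nonempty X
  have hne' : Nonempty U := hne.to_subtype
  rw [Coh.r_eq_rk S.X₂ hU hne, Coh.r_eq_rk S.X₁ hU hne, Coh.r_eq_rk S.X₃ hU hne]
  have h := Coh.shortExact_sec hS hU
  have h1 : (S.map (IsCoh X).ι).ShortExact := (Coh.shortExact_iff S).1 hS
  refine rk_eq_add U (S.map (IsCoh X).ι) h1 ?_ (Coh.finite S.X₂ hU)
  have := h.epi_g
  exact (ModuleCat.epi_iff_surjective _).1 this

theorem Coh.r_O : Coh.r (Coh.O X) = 1 := by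
  obtain ⟨U, hU, hne⟩ := exists_affine_nonempty X
  have hne' : Nonempty U := hne.to_subtype
  rw [Coh.r_eq_rk (Coh.O X) hU hne]
  exact rk_OX U

theorem Coh.r_tw {ι : Type u} {U : ι → X.Opens} (hU : ⨆ i, U i = ⊤) (g : Coc U) (A B : Coh X)
    (e : B.obj ≅ (Coc.tw g).obj A.obj) : Coh.r B = Coh.r A := by
  obtain ⟨i, hi⟩ : ∃ i, (U i : Set X).Nonempty := by
    by_contra h
    push Not at h
    obtain ⟨x⟩ : Nonempty X := inferInstance
    have hx : x ∈ ⨆ i, U i := by rw [hU]; trivial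
    obtain ⟨i, hi⟩ := Opens.mem_iSup.1 hx
    have := h i
    rw [Set.eq_empty_iff_forall_notMem] at this
    exact this x hi
  obtain ⟨W, hW, hne, hWi⟩ := exists_affine_le (U i) hi
  rw [Coh.r_eq_rk B hW hne, Coh.r_eq_rk A hW hne, rk_eq_of_iso W e, Coc.rk_tw g A.obj i hWi]

omit [IsIntegral X] in
theorem Coh.hom_eq_zero {A B : Coh X} {f : A ⟶ B} (h : f.hom = 0) : f = 0 :=
  ObjectProperty.hom_ext _ h

/-- the underlying morphism of a section -/
def Coh.ofO {B : Coh X} (s : Coh.O X ⟶ B) : OX X ⟶ B.obj := s.hom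

/-- the underlying morphism of a morphism to the structure sheaf -/
def Coh.toO {A : Coh X} (s : A ⟶ Coh.O X) : A.obj ⟶ OX X := s.hom

/-- nonzero sections of line bundles are injective -/
theorem Coh.mono_of_ne {ι : Type u} {U : ι → X.Opens} (hU : ⨆ i, U i = ⊤) (g : Coc U) (B : Coh X)
    (e : B.obj ≅ (Coc.tw g).obj (OX X)) (s : Coh.O X ⟶ B) (hs : s ≠ 0) : Mono s := by
  have h1 : Mono (Coh.ofO s ≫ e.hom) := by
    refine mono_of_ne_zero (tfree_tw_OX g hU) _ fun h => hs ?_
    have h2 : Coh.ofO s = 0 := by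
      rw [← cancel_mono e.hom, h, zero_comp]
    exact Coh.hom_eq_zero h2
  have h2 : Mono (Coh.ofO s) := mono_of_mono (Coh.ofO s) e.hom
  have h3 : Mono ((IsCoh X).ι.map s) := h2
  exact (IsCoh X).ι.mono_of_mono_map h3

omit [IsIntegral X] in
theorem Coh.mono_hom [IsLocallyNoetherian X] {A B : Coh X} (i : A ⟶ B) [Mono i] : Mono i.hom := by
  have hS : (ShortComplex.mk i (cokernel.π i) (cokernel.condition i)).ShortExact :=
    { exact := ShortComplex.exact_cokernel i }
  have h1 := (Coh.shortExact_iff _).1 hS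
  exact h1.mono_f

/-- the structure sheaf is torsion free -/
theorem Coh.tors_free [IsLocallyNoetherian X] (A : Coh X) (i : A ⟶ Coh.O X) (hi : Mono i)
    (h : Coh.r A = 0) : IsZero A := by
  obtain ⟨U, hU, hne⟩ := exists_affine_nonempty X
  have hne' : Nonempty U := hne.to_subtype
  rw [Coh.r_eq_rk A hU hne] at h
  have hm : Mono (Coh.toO i) := Coh.mono_hom i
  have h0 : IsZero A.obj := isZero_of_rk_eq_zero hU (Coh.finite A hU) (Coh.toO i) h
  rw [IsZero.iff_id_eq_zero] at h0 ⊢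
  exact Coh.hom_eq_zero h0

/-- sheaves of rank zero are torsion on every nonempty affine open subset -/
theorem Coh.exists_smul_eq_zero (A : Coh X) (h : Coh.r A = 0) {V : X.Opens} (hV : IsAffineOpen V)
    (hne : (V : Set X).Nonempty) : ∃ a : Γ(X, V), a ≠ 0 ∧ ∀ s : Γ(A.obj, V), a • s = 0 := by
  have hne' : Nonempty V := hne.to_subtype
  rw [Coh.r_eq_rk A hV hne] at h
  have := Coh.finite A hV
  exact exists_smul_eq_zero_of_finrank_eq_zero h

end Fdim
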