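import Pool.Agent.Work.MP_f714fc_ag.Tw.AmpleExt
import Pool.Agent.Work.MP_f714fc_ag.Geo.Rank

/-!
# Finite affine covers by nonempty charts
-/

open CategoryTheory Limits TopologicalSpace AlgebraicGeometry Opposite

attribute [-instance] CategoryTheory.catToReflQuiver

universe u

namespace Fdim

variable {X : Scheme.{u}}

/-- a finite affine cover by nonempty open subsets of the members of a given cover -/
theorem exists_chart_cover [CompactSpace X] {ι : Type*} (U : ι → X.Opens) (hU : ⨆ i, U i = ⊤) :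
    ∃ (n : ℕ) (V : Fin n → X.Opens) (idx : Fin n → ι), (∀ a, IsAffineOpen (V a)) ∧
      (∀ a, V a ≤ U (idx a)) ∧ (∀ a, (V a : Set X).Nonempty) ∧ ⨆ a, V a = ⊤ := by
  obtain ⟨κ, hκ, V, idx, hV, hVU, -, hcov⟩ := exists_affine_cover U (W := (⊤ : X.Opens))
    isCompact_univ hU.ge
  have : Finite {a : κ // (V a : Set X).Nonempty} := inferInstance
  obtain ⟨n, ⟨e⟩⟩ := Finite.exists_equiv_fin {a : κ // (V a : Set X).Nonempty}
  refine ⟨n, fun a => V (e.symm a).1, fun a => idx (e.symm a).1, fun a => hV _, fun a => hVU _,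
    fun a => (e.symm a).2, ?_⟩
  rw [eq_top_iff]
  intro x hx
  obtain ⟨a, ha⟩ := Opens.mem_iSup.1 (hcov hx)
  let b : {a : κ // (V a : Set X).Nonempty} := ⟨a, ⟨x, ha⟩⟩
  refine Opens.mem_iSup.2 ⟨e b, ?_⟩
  have h1 : e.symm (e b) = b := e.symm_apply_apply b
  change x ∈ V (e.symm (e b)).1
  rw [h1]
  exact ha

/-- the functions on an affine open subset of a locally noetherian scheme -/
theorem isNoetherianRing_sec [IsLocallyNoetherian X] {V : X.Opens} (hV : IsAffineOpen V) :
    IsNoetherianRing Γ(X, V) := IsLocallyNoetherian.component_noetherian ⟨V, hV⟩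

end Fdim
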