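import Pool.Agent.Work.MP_f714fc_ag.Geo.CohAb

/-!
# Coherent sheaves on a noetherian scheme are noetherian objects
-/

open CategoryTheory Limits TopologicalSpace AlgebraicGeometry Opposite

universe u

namespace Fdim

noncomputable section

variable {X : Scheme.{u}}

theorem exists_finite_affine_cover (X : Scheme.{u}) [CompactSpace X] :
    ∃ (s : Finset X.affineOpens), ∀ x : X, ∃ i : s, x ∈ i.1.1 := by
  have h : ∀ x : X, ∃ U : X.affineOpens, x ∈ U.1 := by
    intro x
    obtain ⟨U, hU, hx, -⟩ := Opens.isBasis_iff_nbhd.1 X.isBasis_affineOpens (Opens.mem_top x)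
    exact ⟨⟨U, hU⟩, hx⟩
  choose U hU using h
  obtain ⟨t, ht⟩ := isCompact_univ.elim_finite_subcover (fun x : X => ((U x).1 : Set X))
    (fun x => (U x).1.isOpen) (fun x _ => Set.mem_iUnion.2 ⟨x, hU x⟩)
  classical
  refine ⟨t.image U, fun x => ?_⟩
  obtain ⟨y, hy, hxy⟩ := Set.mem_iUnion₂.1 (ht (Set.mem_univ x))
  exact ⟨⟨U y, Finset.mem_image_of_mem U hy⟩, hxy⟩

section
variable [IsLocallyNoetherian X]

theorem Coh.isNoetherian_sec {U : X.Opens} (hU : IsAffineOpen U) (A : Coh X) :
    IsNoetherian Γ(X, U) ((Coh.sec U).obj A) := by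
  have h1 := Coh.finite_sec hU A
  have h2 : IsNoetherianRing Γ(X, U) := IsLocallyNoetherian.component_noetherian ⟨U, hU⟩
  exact isNoetherian_of_isNoetherianRing_of_finite _ _

/-- the submodule of sections of a subobject -/
def Coh.subSec (U : X.Opens) {A : Coh X} (P : Subobject A) :
    Submodule Γ(X, U) ((Coh.sec U).obj A) :=
  LinearMap.range ((Coh.sec U).map P.arrow).hom

omit [IsLocallyNoetherian X] in
theorem Coh.subSec_mono (U : X.Opens) {A : Coh X} {P Q : Subobject A} (h : P ≤ Q) :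
    Coh.subSec U P ≤ Coh.subSec U Q := by
  rintro _ ⟨s, rfl⟩
  refine ⟨((Coh.sec U).map (Subobject.ofLE P Q h)).hom s, ?_⟩
  rw [← Subobject.ofLE_arrow h, Functor.map_comp]
  rfl

theorem Coh.eq_of_subSec {ι : Type*} (U : ι → X.Opens) (hc : ∀ x : X, ∃ i, x ∈ U i)
    (hU : ∀ i, IsAffineOpen (U i)) {A : Coh X} {P Q : Subobject A} (h : P ≤ Q)
    (hs : ∀ i, Coh.subSec (U i) Q ≤ Coh.subSec (U i) P) : P = Q := by
  let φ := Subobject.ofLE P Q h
  have hφ : IsIso φ := by
    refine Coh.isIso_of_cover U hc hU φ fun i => ?_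
    have h1 : Mono ((Coh.sec (U i)).map φ) := inferInstance
    have h2 : Epi ((Coh.sec (U i)).map φ) := by
      rw [ModuleCat.epi_iff_surjective]
      intro t
      obtain ⟨s, hs'⟩ := hs i ⟨t, rfl⟩
      refine ⟨s, ?_⟩
      have h3 : Mono ((Coh.sec (U i)).map Q.arrow) := inferInstance
      apply (ModuleCat.mono_iff_injective _).1 h3
      rw [← hs', ← Subobject.ofLE_arrow h, Functor.map_comp]
      rfl
    exact isIso_of_mono_of_epi _
  refine le_antisymm h (Subobject.le_of_comm (inv φ) ?_)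
  rw [IsIso.inv_comp_eq]
  exact (Subobject.ofLE_arrow h).symm

/-- coherent sheaves on a noetherian scheme are noetherian objects -/
theorem Coh.isNoetherianObject [CompactSpace X] (A : Coh X) : IsNoetherianObject A := by
  rw [isNoetherianObject_iff_monotone_chain_condition]
  intro f
  obtain ⟨s, hs⟩ := exists_finite_affine_cover X
  have h1 : ∀ i : s, ∃ n, ∀ m, n ≤ m → Coh.subSec i.1.1 (f n) = Coh.subSec i.1.1 (f m) := by
    intro i
    have := Coh.isNoetherian_sec i.1.2 A
    exact monotone_stabilizes_iff_noetherian.2 this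
      ⟨fun n => Coh.subSec i.1.1 (f n), fun a b hab => Coh.subSec_mono _ (f.monotone hab)⟩
  choose n hn using h1
  refine ⟨Finset.univ.sup n, fun m hm => ?_⟩
  refine Coh.eq_of_subSec (fun i : s => i.1.1) hs (fun i => i.1.2) (f.monotone hm) fun i => ?_
  have h2 : n i ≤ Finset.univ.sup n := Finset.le_sup (Finset.mem_univ i)
  rw [← hn i _ h2, ← hn i m (h2.trans hm)]

end

end

end Fdim
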