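import Pool.Agent.Work.MP_f714fc_ag.Tw.AmpleCoh
import Pool.Agent.Work.MP_f714fc_ag.Geo.CohNoeth
import Pool.Agent.Work.MP_f714fc_ag.Geo.Rank

/-!
# The category of coherent sheaves on an integral noetherian scheme with an ample line bundle
-/

open CategoryTheory Limits TopologicalSpace AlgebraicGeometry Opposite

attribute [-instance] CategoryTheory.catToReflQuiver

universe u t

namespace Fdim

noncomputable section

variable {X : Scheme.{u}} {ι : Type u} {U : ι → X.Opens}

namespace Coc

variable [IsCov U] {k : Type t} [Field k] [IsLocallyNoetherian X] [Linear k (Coh X)]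
  {c : k → Γ(X, (⊤ : X.Opens))}

/-- coherent sheaves on an integral noetherian scheme with an ample line bundle -/
def intAmpleData [IsIntegral X] [CompactSpace X] (φ : Multiplicative ℤ →* Coc U) (hc : IsLin c)
    (hgg : IsAmpleTwist (Coh.O X) fun n : ℤ => twCoh (at' φ n)) :
    letI := hasShiftCoh φ
    haveI : ∀ n : ℤ, (shiftFunctor (Coh X) n).Additive := shiftFunctorCoh_additive φ
    haveI : ∀ n : ℤ, (shiftFunctor (Coh X) n).Linear k := shiftFunctorCoh_linear hc φ
    IntAmpleData k (Coh X) :=
  letI := hasShiftCoh φ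
  haveI : ∀ n : ℤ, (shiftFunctor (Coh X) n).Additive := shiftFunctorCoh_additive φ
  haveI : ∀ n : ℤ, (shiftFunctor (Coh X) n).Linear k := shiftFunctorCoh_linear hc φ
  { ampleData φ hc hgg with
    noeth := Coh.isNoetherianObject
    r := Coh.r
    r_add := Coh.r_add
    r_O := Coh.r_O
    r_shift := fun A n => Coh.r_tw IsCov.cov (at' φ n) A _ (Iso.refl _)
    mono_of_ne := fun n s hs => Coh.mono_of_ne IsCov.cov (at' φ n) _ (Iso.refl _) s hs
    tors_free := Coh.tors_free }

end Coc

end

end Fdim
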