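import Pool.Agent.Work.MP_f714fc_ag.Abs.Charts
import Pool.Agent.Work.MP_f714fc_ag.Geo.ChartBase
import Pool.Agent.Work.MP_f714fc_ag.Geo.ChartCov
import Pool.Agent.Work.MP_f714fc_ag.Geo.IntAmple

/-!
# Charts of the category of coherent sheaves on an integral surface
-/

open CategoryTheory Limits TopologicalSpace AlgebraicGeometry Opposite

attribute [-instance] CategoryTheory.catToReflQuiver

universe u t

namespace Fdim

noncomputable section

variable {X : Scheme.{u}} {ι : Type u} {U : ι → X.Opens}

namespace Coc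

section locv

variable [IsCov U]

/-- the value of a morphism `O → O ⊗ L` on a chart -/
def locv {g : Coc U} (s : Coh.O X ⟶ (twCoh g).obj (Coh.O X)) (i : ι) {W : X.Opens}
    (hi : W ≤ U i) : Γ(X, W) := sv (secOf (g := g) s.hom) i le_top hi

theorem locv_add {g : Coc U} (s t : Coh.O X ⟶ (twCoh g).obj (Coh.O X)) (i : ι) {W : X.Opens}
    (hi : W ≤ U i) : locv (s + t) i hi = locv s i hi + locv t i hi :=
  sv_add (secOf (g := g) s.hom) (secOf (g := g) t.hom) i le_top hi

theorem locv_smul {k : Type t} [Field k] [IsLocallyNoetherian X] [Linear k (Coh X)]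
    {c : k → Γ(X, (⊤ : X.Opens))} (hc : IsLin c) {g : Coc U} (a : k)
    (s : Coh.O X ⟶ (twCoh g).obj (Coh.O X)) (i : ι) {W : X.Opens}
    (hi : W ≤ U i) : locv (a • s) i hi = rO le_top (c a) * locv s i hi := by
  have h : secOf (g := g) (a • s).hom = c a • secOf (g := g) s.hom := by
    have := hc a s ⊤ (1 : Γ(X, ⊤))
    rw [rO_self] at this
    exact this
  rw [locv, h, sv_smul]
  rfl

theorem twSec_actCoh {g : Coc U} (s : Coh.O X ⟶ (twCoh g).obj (Coh.O X)) (A : Coh X) (i : ι)
    {W : X.Opens} (hi : W ≤ U i) (m : Γ(A.obj, W)) :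
    twSec g A.obj i hi (ap (M := A.obj) (N := (tw g).obj A.obj) (actCoh s A).hom W m) =
      locv s i hi • m := by
  refine (tev_actCoh s A m i le_rfl hi).trans ?_
  rw [rs_self]
  rfl

end locv

variable [IsCov U] {k : Type t} [Field k] [IsLocallyNoetherian X] [Linear k (Coh X)]

/-- the charts of an integral surface -/
def chartData [IsIntegral X] [CompactSpace X] (φ : Multiplicative ℤ →* Coc U)
    (c : k →+* Γ(X, (⊤ : X.Opens))) (hc : IsLin c)
    (hgg : IsAmpleTwist (Coh.O X) fun n : ℤ => twCoh (at' φ n))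
    (hdim : topologicalKrullDim X ≤ 2) {N : ℕ} (V : Fin N → X.Opens) (idx : Fin N → ι)
    (hV : ∀ a, IsAffineOpen (V a)) (hVU : ∀ a, V a ≤ U (idx a))
    (hne : ∀ a, (V a : Set X).Nonempty) (hcov : ⨆ a, V a = ⊤) :
    letI := hasShiftCoh φ
    haveI : ∀ n : ℤ, (shiftFunctor (Coh X) n).Additive := shiftFunctorCoh_additive φ
    haveI : ∀ n : ℤ, (shiftFunctor (Coh X) n).Linear k := shiftFunctorCoh_linear hc φ
    ChartData (intAmpleData φ hc hgg) :=
  letI := hasShiftCoh φ
  haveI : ∀ n : ℤ, (shiftFunctor (Coh X) n).Additive := shiftFunctorCoh_additive φ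
  haveI : ∀ n : ℤ, (shiftFunctor (Coh X) n).Linear k := shiftFunctorCoh_linear hc φ
  letI alg : ∀ a, Algebra k Γ(X, V a) := fun a => ((rO le_top).comp c).toAlgebra
  { I := Fin N
    finI := inferInstance
    A := fun a => Γ(X, V a)
    ring := fun a => inferInstance
    alg := alg
    dom := fun a => by
      have : Nonempty (V a) := (hne a).to_subtype
      infer_instance
    noethA := fun a => isNoetherianRing_sec (hV a)
    G := fun a => Coh.sec (V a)
    add := fun a => inferInstance
    lim := fun a => inferInstance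
    colim := fun a => Coh.preservesFiniteColimits_sec (hV a)
    finite := fun a T => Coh.finite_sec (hV a) T
    cons := fun T hT => by
      apply Coh.isZero_of_cover V _ hV
      · intro a
        have := hT a
        exact ModuleCat.isZero_of_subsingleton _
      · intro x
        have hx : x ∈ ⨆ a, V a := by rw [hcov]; trivial
        exact Opens.mem_iSup.1 hx
    eO := fun a => toR
    tw := fun a n T => twSec (at' φ n) T.obj (idx a) (hVU a)
    tw_nat := fun a n S T f x => twSec_map (at' φ n) f.hom (idx a) (hVU a) x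
    loc := fun a n =>
      { toFun := fun s => locv (g := at' φ n) s (idx a) (hVU a)
        map_add' := fun s t => locv_add (g := at' φ n) s t (idx a) (hVU a)
        map_smul' := fun b s => locv_smul hc (g := at' φ n) b s (idx a) (hVU a) }
    act_eq := fun a n T s x => twSec_actCoh (g := at' φ n) s T (idx a) (hVU a) x
    tors := fun T hT a => Coh.exists_smul_eq_zero T hT (hV a) (hne a)
    dim2 := fun a => ringKrullDim_chart_le hdim (hV a) }

/-- an integral surface has charts -/
theorem nonempty_chartData [IsIntegral X] [CompactSpace X] (φ : Multiplicative ℤ →* Coc U)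
    (c : k →+* Γ(X, (⊤ : X.Opens))) (hc : IsLin c)
    (hgg : IsAmpleTwist (Coh.O X) fun n : ℤ => twCoh (at' φ n))
    (hdim : topologicalKrullDim X ≤ 2) :
    letI := hasShiftCoh φ
    haveI : ∀ n : ℤ, (shiftFunctor (Coh X) n).Additive := shiftFunctorCoh_additive φ
    haveI : ∀ n : ℤ, (shiftFunctor (Coh X) n).Linear k := shiftFunctorCoh_linear hc φ
    Nonempty (ChartData.{u, u + 1, t, u, u} (intAmpleData φ hc hgg)) := by
  obtain ⟨N, V, idx, hV, hVU, hne, hcov⟩ := exists_chart_cover U (IsCov.cov (U := U))
  exact ⟨chartData φ c hc hgg hdim V idx hV hVU hne hcov⟩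

end Coc

end

end Fdim
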