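import Pool.Agent.Work.MP_f714fc_ag.Geo.Defs
import Pool.Agent.Work.MP_f714fc_ag.Tw.TwCoh

/-!
MP_f714fc_ag: line bundles given by cocycles, the canonical bundle and Fano varieties in terms of
cocycles.  Used in the proofs; the statement uses Geo/Defs.lean only.
-/

open CategoryTheory CategoryTheory.Abelian Limits TopologicalSpace AlgebraicGeometry Opposite

attribute [-instance] CategoryTheory.catToReflQuiver

namespace Fdim

/-- the bounded derived category of coherent sheaves -/
abbrev Db (X : Scheme.{0}) [IsLocallyNoetherian X] := DerivedCategory.Bounded (Coh X)

/-- A line bundle on X, given by an open cover and a cocycle of units.  Its tensor product with a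
coherent sheaf A is the sheaf Coc.twCoh g A of families a_i of sections of A with
a_i = g_ij a_j. -/
structure LineBundle (X : Scheme.{0}) where
  /-- index set of the cover -/
  ι : Type
  /-- the open cover -/
  U : ι → X.Opens
  cover : ⨆ i, U i = ⊤
  /-- the transition functions -/
  g : Coc U

instance {X : Scheme.{0}} (L : LineBundle X) : IsCov L.U := ⟨L.cover⟩

variable {X : Scheme.{0}} [X.Over SpecC] [IsLocallyNoetherian X]

/-- The line bundle omega is the canonical bundle of X, dim X = n: the tensor product with omega,
shifted by n, is the Serre functor of the derived category; that is, Serre duality holds with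
omega as dualizing sheaf. -/
def LineBundle.IsCanonical (ω : LineBundle X) (n : ℕ) : Prop :=
  IsSerreTwist ℂ n (Coc.twCoh ω.g)

/-- The inverse of the line bundle L is ample: for every coherent sheaf A the sheaves
A tensor L^(-m) are generated by global sections for all large m. -/
def LineBundle.InvAmple (L : LineBundle X) : Prop :=
  IsAmpleTwist (Coh.O X) fun m : ℤ => Coc.twCoh (L.g ^ (-m))

/-- V is a Fano variety of dimension n, in terms of cocycles -/
def SmoothProjVar.IsFanoCoc (V : SmoothProjVar) (n : ℕ) : Prop :=
  topologicalKrullDim V.X = n ∧ ∃ ω : LineBundle V.X, ω.IsCanonical n ∧ ω.InvAmple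

end Fdim
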