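import Pool.Agent.Work.MP_f714fc_ag.Geo.CohLin
import Pool.Agent.Work.MP_f714fc_ag.Tw.AmpleCoh

/-!
# The linear structure of `Coh X` is compatible with the twists
-/

open CategoryTheory Limits TopologicalSpace AlgebraicGeometry Opposite

attribute [-instance] CategoryTheory.catToReflQuiver

universe u

namespace Fdim

variable {X : Scheme.{u}}

theorem isLin (k : Type u) [Field k] (X : Scheme.{u}) [IsLocallyNoetherian X]
    [X.Over (Spec (.of k))] : Coc.IsLin (X := X) (k := k) (scal k X) :=
  fun a _ _ f V s => ap_linear a f.hom V s

/-- the twists of coherent sheaves are linear -/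
instance linear_twCoh (k : Type u) [Field k] [IsLocallyNoetherian X] [X.Over (Spec (.of k))]
    {ι : Type u} {U : ι → X.Opens} [IsCov U] (g : Coc U) : (Coc.twCoh g).Linear k :=
  Coc.twCoh_linear (isLin k X) g

end Fdim
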