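import Pool.Agent.Work.MP_f714fc_ag.Geo.CohLin
import Pool.Agent.Work.MP_f714fc_ag.Def.Gen
import Pool.Agent.Work.MP_f714fc_ag.Sch.Charts

/-!
MP_f714fc_ag: the definitions of the problem.  Coherent sheaves and their bounded derived
category, smooth projective varieties, the canonical bundle, Fano varieties, Fano hosts, the Fano
dimension, families over the complex line.
-/

open CategoryTheory CategoryTheory.Abelian Limits TopologicalSpace AlgebraicGeometry Opposite

attribute [-instance] CategoryTheory.catToReflQuiver

namespace Fdim

/-- the complex point -/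
noncomputable abbrev SpecC : Scheme.{0} := Spec (CommRingCat.of ℂ)

/-- Ext groups of coherent sheaves -/
noncomputable instance cohHasExt (X : Scheme.{0}) [IsLocallyNoetherian X] :
    HasExt.{1} (Coh X) := HasExt.standard (Coh X)

/-- the derived category of coherent sheaves -/
noncomputable instance cohHasDerivedCategory (X : Scheme.{0}) [IsLocallyNoetherian X] :
    HasDerivedCategory.{1} (Coh X) := HasDerivedCategory.standard (Coh X)

section Canonical

variable {X : Scheme.{0}}

/-- the structure sheaf -/
noncomputable abbrev strSheaf (X : Scheme.{0}) : X.Modules := SheafOfModules.unit X.ringCatSheaf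

/-- The tensor product of sheaves of modules: the sheaf associated with the presheaf of the
modules Gamma(M, V) tensor Gamma(N, V). -/
noncomputable def tens (M N : X.Modules) : X.Modules :=
  (PresheafOfModules.sheafification (𝟙 X.ringCatSheaf.obj)).obj
    (PresheafOfModules.Monoidal.tensorObj (R := X.presheaf) M.val N.val)

/-- L is a line bundle: locally free of rank one.  There are an open cover and sections l_i of L
over its members which generate L freely. -/
def IsLineBundle (L : X.Modules) : Prop :=
  ∃ (ι : Type) (U : ι → X.Opens) (l : ∀ i, Γ(L, U i)), ⨆ i, U i = ⊤ ∧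
    ∀ (i : ι) (W : X.Opens) (h : W ≤ U i),
      Function.Bijective fun r : Γ(X, W) => r • L.presheaf.map (homOfLE h).op (l i)

/-- The sheaf A is generated by finitely many global sections. -/
def GloballyGenerated (A : X.Modules) : Prop :=
  ∃ (j : ℕ) (f : Fin j → (strSheaf X ⟶ A)), ∀ (B : X.Modules) (g : A ⟶ B),
    (∀ i, f i ≫ g = 0) → g = 0

/-- The line bundle L is ample: for every coherent sheaf A the sheaves A tensor L^n are generated
by global sections for all large n. -/
def IsAmple (L : X.Modules) : Prop :=
  ∀ A : Coh X, ∃ n₀ : ℕ, ∀ n ≥ n₀, GloballyGenerated ((fun M => tens M L)^[n] A.obj)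

variable [X.Over SpecC] [IsLocallyNoetherian X]

/-- The line bundle omega is the canonical bundle of X, dim X = n: Serre duality holds with omega
as dualizing sheaf.  For every coherent sheaf A there is a trace Ext^n(A, A tensor omega) -> C
such that the Yoneda pairings of Ext^p(A, B) and Ext^(n - p)(B, A tensor omega) are perfect for
all coherent B, and Ext^p(A, B) = 0 for p > n. -/
def IsCanonical (ω : X.Modules) (n : ℕ) : Prop :=
  ∀ A : Coh X, ∃ M : Coh X, Nonempty (M.obj ≅ tens A.obj ω) ∧ SerreDual ℂ n A M

end Canonical

/-- smooth projective variety over the complex numbers -/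
structure IsSmoothProj (X : Scheme.{0}) [X.Over SpecC] : Prop where
  integral : IsIntegral X
  smooth : Smooth (X ↘ SpecC)
  projective : IsProjective ℂ (X ↘ SpecC) (𝟙 SpecC)

theorem IsSmoothProj.isLocallyNoetherian {X : Scheme.{0}} [X.Over SpecC] (h : IsSmoothProj X) :
    IsLocallyNoetherian X := by
  have := h.smooth
  exact LocallyOfFiniteType.isLocallyNoetherian (X ↘ SpecC)

/-- smooth projective varieties over the complex numbers -/
structure SmoothProjVar where
  /-- the underlying scheme -/
  X : Scheme.{0}
  /-- the structure morphism -/
  [str : X.Over SpecC]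
  is : IsSmoothProj X

attribute [instance] SmoothProjVar.str

instance (V : SmoothProjVar) : IsLocallyNoetherian V.X := V.is.isLocallyNoetherian

/-- V is a Fano variety of dimension n: the anticanonical bundle, the inverse L of the canonical
bundle omega, is ample. -/
def SmoothProjVar.IsFano (V : SmoothProjVar) (n : ℕ) : Prop :=
  topologicalKrullDim V.X = n ∧ ∃ ω L : V.X.Modules, IsLineBundle ω ∧ IsLineBundle L ∧
    Nonempty (tens ω L ≅ strSheaf V.X) ∧ IsCanonical ω n ∧ IsAmple L

/-- W contains V: there is a fully faithful exact functor from the bounded derived category of V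
to the bounded derived category of W.  If lin is true, the functor is required to be complex
linear. -/
def SmoothProjVar.Contains (lin : Prop) (W V : SmoothProjVar) : Prop :=
  DbEmbeds ℂ lin (Coh V.X) (Coh W.X)

/-- the Fano dimension: the minimal dimension of a Fano host (infinite if there is none) -/
noncomputable def fdim (lin : Prop) (V : SmoothProjVar) : ℕ∞ :=
  sInf {m : ℕ∞ | ∃ (n : ℕ) (W : SmoothProjVar), m = n ∧ W.IsFano n ∧ W.Contains lin V}

/-- the fibre over a complex number t of a scheme over the complex line -/
noncomputable def fib {X : Scheme.{0}} (π : X ⟶ Spec (CommRingCat.of (Polynomial ℂ))) (t : ℂ) :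
    Scheme.{0} :=
  pullback π (Spec.map (CommRingCat.ofHom (Polynomial.evalRingHom t)))

noncomputable instance {X : Scheme.{0}} (π : X ⟶ Spec (CommRingCat.of (Polynomial ℂ))) (t : ℂ) :
    (fib π t).Over SpecC := ⟨pullback.snd _ _⟩

/-- a smooth projective family of varieties over the complex line -/
structure Family where
  /-- the total space -/
  X : Scheme.{0}
  /-- the projection to the complex line -/
  π : X ⟶ Spec (CommRingCat.of (Polynomial ℂ))
  smooth : Smooth π
  projective : IsProjective ℂ π (Spec.map (CommRingCat.ofHom (algebraMap ℂ (Polynomial ℂ))))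
  fib_is : ∀ t : ℂ, IsSmoothProj (fib π t)

/-- the fibre of a family -/
noncomputable def Family.fiber (F : Family) (t : ℂ) : SmoothProjVar := ⟨fib F.π t, F.fib_is t⟩

end Fdim
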