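import Pool.Agent.Work.MP_f714fc_ag.Geo.Defs
import Pool.Agent.Work.MP_f714fc_ag.Sch.YtCharts
import Pool.Agent.Work.MP_f714fc_ag.Sch.YtProj
import Pool.Agent.Work.MP_f714fc_ag.Sch.BaseChange
import Pool.Agent.Work.MP_f714fc_ag.Sch.YGeom
import Pool.Agent.Work.MP_f714fc_ag.Sch.YGeom2

/-!
# The family of surfaces over the complex line

The total space is `Y(ℂ[x], x)`, the fibre over `c` is `Y(ℂ, c)`.
-/

open CategoryTheory Limits TopologicalSpace AlgebraicGeometry Opposite

attribute [-instance] CategoryTheory.catToReflQuiver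

namespace Fdim

/-- the projection of the total space of the family to the complex line -/
noncomputable abbrev famπ :
    Yt (Polynomial.X : Polynomial ℂ) ⟶ Spec (CommRingCat.of (Polynomial ℂ)) :=
  Yt.π (Polynomial.X : Polynomial ℂ)

/-- the charts of the fibres -/
theorem nonempty_fibCharts (c : ℂ) :
    Nonempty (YCharts (.of ℂ) c (fib famπ c ↘ SpecC)) := by
  have h : IsPullback (pullback.fst famπ
      (Spec.map (CommRingCat.ofHom (Polynomial.evalRingHom c)))) (fib famπ c ↘ SpecC) famπ
      (Spec.map (CommRingCat.ofHom (Polynomial.evalRingHom c))) := IsPullback.of_hasPullback _ _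
  obtain ⟨D⟩ := YCharts.baseChange (CommRingCat.ofHom (Polynomial.evalRingHom c)) h
    (Yt.charts (Polynomial.X : Polynomial ℂ))
  have h1 : (CommRingCat.ofHom (Polynomial.evalRingHom c)).hom Polynomial.X = c :=
    Polynomial.eval_X
  rw [h1] at D
  exact ⟨D⟩

theorem isProjective_fib (c : ℂ) : IsProjective ℂ (fib famπ c ↘ SpecC) (𝟙 SpecC) := by
  have h : IsPullback (pullback.fst famπ
      (Spec.map (CommRingCat.ofHom (Polynomial.evalRingHom c)))) (fib famπ c ↘ SpecC) famπ
      (Spec.map (CommRingCat.ofHom (Polynomial.evalRingHom c))) := IsPullback.of_hasPullback _ _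
  have h1 := (Yt.isProjective (k := ℂ) (Polynomial.X : Polynomial ℂ)).baseChange h
  have h2 : Spec.map (CommRingCat.ofHom (Polynomial.evalRingHom c)) ≫
      Spec.map (CommRingCat.ofHom (algebraMap ℂ (Polynomial ℂ))) = 𝟙 SpecC := by
    rw [← Spec.map_comp, ← CommRingCat.ofHom_comp, ← Spec.map_id]
    congr 1
    ext a
    simp
  rw [h2] at h1
  exact h1

theorem isSmoothProj_fib (c : ℂ) : IsSmoothProj (fib famπ c) := by
  obtain ⟨D⟩ := nonempty_fibCharts c
  have := D.smooth
  exact ⟨D.isIntegral, SmoothOfRelativeDimension.smooth 2 _, isProjective_fib c⟩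

/-- the family of surfaces -/
noncomputable def fam : Family where
  X := Yt (Polynomial.X : Polynomial ℂ)
  π := famπ
  smooth := by
    have := (Yt.charts (Polynomial.X : Polynomial ℂ)).smooth
    exact SmoothOfRelativeDimension.smooth 2 _
  projective := Yt.isProjective (k := ℂ) (Polynomial.X : Polynomial ℂ)
  fib_is := isSmoothProj_fib

theorem nonempty_famCharts (c : ℂ) :
    Nonempty (YCharts (.of ℂ) c ((fam.fiber c).X ↘ SpecC)) := nonempty_fibCharts c

end Fdim
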