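import Pool.Agent.Work.MP_f714fc_ag.Geo.CocDefs
import Pool.Agent.Work.MP_f714fc_ag.Geo.Fam

/-!
# The family of surfaces: reduction of the existence statement to one fibre
-/

open CategoryTheory CategoryTheory.Abelian Limits TopologicalSpace AlgebraicGeometry Opposite

attribute [-instance] CategoryTheory.catToReflQuiver

namespace Fdim

/-- `exists_family` from the two statements on one surface `Y(ℂ, c)` -/
theorem exists_family_of
    (ha : ∀ (X : Scheme.{0}) [X.Over SpecC] [IsLocallyNoetherian X], IsSmoothProj X →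
      ∀ c : ℂ, c ≠ 0 → YCharts (.of ℂ) c (X ↘ SpecC) →
        ∃ ω : LineBundle X, ω.IsCanonical 2 ∧ ω.InvAmple)
    (hb : ∀ (X : Scheme.{0}) [X.Over SpecC] [IsLocallyNoetherian X], IsSmoothProj X →
      YCharts (.of ℂ) (0 : ℂ) (X ↘ SpecC) →
        ∃ M : Coh X, Module.finrank ℂ (M ⟶ M) = 1 ∧ Subsingleton (Ext M M 1) ∧
          Nontrivial (Ext M M 2)) :
    ∃ F : Family, (∀ c : ℂ, c ≠ 0 → (F.fiber c).IsFanoCoc 2) ∧
      ∃ M : Coh (F.fiber 0).X, Module.finrank ℂ (M ⟶ M) = 1 ∧ Subsingleton (Ext M M 1) ∧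
        Nontrivial (Ext M M 2) := by
  refine ⟨fam, fun c hc => ?_, ?_⟩
  · obtain ⟨D⟩ := nonempty_famCharts c
    exact ⟨D.topologicalKrullDim, ha _ (fam.fiber c).is c hc D⟩
  · obtain ⟨D⟩ := nonempty_famCharts 0
    exact hb _ (fam.fiber 0).is D

end Fdim
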