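import Pool.Agent.Work.MP_f714fc_ag.Geo.YCoc
import Pool.Agent.Work.MP_f714fc_ag.Tw.SctMul

/-!
# Sections of cocycles, their non-vanishing loci, and the ample sections on `Y(A, t)`

On `Y(A, t)`: the sections `1, p, z, z q` of `C∞ + f` have the loci `U 0, U 1, U 2, U 3`; if `t` is
a unit then the sections `p ^ 2, q ^ 2, z p + t, z p` of `2 C∞` have affine loci covering `X`.
-/

open CategoryTheory Limits TopologicalSpace AlgebraicGeometry Opposite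

attribute [-instance] CategoryTheory.catToReflQuiver

set_option linter.unusedSimpArgs false

universe u

namespace Fdim

section

variable {X : Scheme.{u}} {ι : Type u} {U : ι → X.Opens}

/-- the family `s` is a section of the line bundle of the cocycle `g` -/
def IsSec (g : Coc U) (s : ∀ i, Γ(X, U i)) : Prop :=
  ∀ (i j : ι) (W : X.Opens) (hi : W ≤ U i) (hj : W ≤ U j),
    rO hi (s i) = g.v i j hi hj * rO hj (s j)

/-- the locus where a section does not vanish -/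
noncomputable def locF (s : ∀ i, Γ(X, U i)) : X.Opens := ⨆ i, X.basicOpen (s i)

theorem Frame.isSec (F : Frame U) (j : ι) : IsSec F.coc (fun i => F.e i j) := by
  intro i k W hi hk
  rw [F.coc_v]
  exact (F.mulW i k j hi hk).symm

namespace IsSec

variable {g h : Coc U} {s s' : ∀ i, Γ(X, U i)}

/-- it suffices to test on the double overlaps -/
theorem mk' (H : ∀ i j, rO (inf_le_left : U i ⊓ U j ≤ U i) (s i) =
    g.v i j inf_le_left inf_le_right * rO (inf_le_right : U i ⊓ U j ≤ U j) (s j)) : IsSec g s := by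
  intro i j W hi hj
  have h1 := congrArg (rO (le_inf hi hj)) (H i j)
  simpa only [map_mul, rO_rO, Coc.rO_v] using h1

/-- the relation on the overlap in the other direction -/
theorem swap {i j : ι} (H : rO (inf_le_left : U i ⊓ U j ≤ U i) (s i) =
    g.v i j inf_le_left inf_le_right * rO (inf_le_right : U i ⊓ U j ≤ U j) (s j)) :
    rO (inf_le_left : U j ⊓ U i ≤ U j) (s j) =
      g.v j i inf_le_left inf_le_right * rO (inf_le_right : U j ⊓ U i ≤ U i) (s i) := by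
  have h1 := congrArg (rO (le_inf inf_le_right inf_le_left : U j ⊓ U i ≤ U i ⊓ U j)) H
  simp only [map_mul, rO_rO, Coc.rO_v] at h1
  rw [h1, ← mul_assoc, g.v_swap, one_mul]

theorem diag (i : ι) : rO (inf_le_left : U i ⊓ U i ≤ U i) (s i) =
    g.v i i inf_le_left inf_le_right * rO (inf_le_right : U i ⊓ U i ≤ U i) (s i) := by
  rw [Coc.v_self, one_mul]

theorem add (hs : IsSec g s) (hs' : IsSec g s') : IsSec g (fun i => s i + s' i) := by
  intro i j W hi hj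
  rw [map_add, map_add, hs i j W hi hj, hs' i j W hi hj, mul_add]

theorem sub (hs : IsSec g s) (hs' : IsSec g s') : IsSec g (fun i => s i - s' i) := by
  intro i j W hi hj
  rw [map_sub, map_sub, hs i j W hi hj, hs' i j W hi hj, mul_sub]

theorem mul (hs : IsSec g s) (hs' : IsSec h s') : IsSec (g * h) (fun i => s i * s' i) := by
  intro i j W hi hj
  rw [map_mul, map_mul, hs i j W hi hj, hs' i j W hi hj, Coc.v_mul]
  ring

theorem one : IsSec (1 : Coc U) (fun _ => 1) := by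
  intro i j W hi hj
  simp

theorem pow (hs : IsSec g s) (n : ℕ) : IsSec (g ^ n) (fun i => s i ^ n) := by
  induction n with
  | zero => simpa using (one (U := U))
  | succ n ih =>
    have := ih.mul hs
    simpa only [pow_succ] using this

/-- multiplication by functions given on all opens, compatible with restriction -/
theorem smul (hs : IsSec g s) (r : ∀ V : X.Opens, Γ(X, V))
    (hr : ∀ {V W : X.Opens} (h : W ≤ V), rO h (r V) = r W) :
    IsSec g (fun i => r (U i) * s i) := by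
  intro i j W hi hj
  rw [map_mul, map_mul, hs i j W hi hj, hr, hr]
  ring

theorem basicOpen_inf (hs : IsSec g s) (i j : ι) :
    X.basicOpen (s i) ⊓ U j = X.basicOpen (s j) ⊓ U i := by
  have h1 := hs i j (U i ⊓ U j) inf_le_left inf_le_right
  have h2 : X.basicOpen (g.v i j (inf_le_left : U i ⊓ U j ≤ U i) inf_le_right) = U i ⊓ U j :=
    X.basicOpen_of_isUnit (IsUnit.of_mul_eq_one _ (g.v_swap i j _ _))
  have h3 := congrArg X.basicOpen h1
  rw [basicOpen_rO, X.basicOpen_mul, basicOpen_rO, h2, ← inf_assoc, inf_idem] at h3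
  have e1 : X.basicOpen (s i) ⊓ U i = X.basicOpen (s i) := inf_eq_left.2 (X.basicOpen_le _)
  have e2 : X.basicOpen (s j) ⊓ U j = X.basicOpen (s j) := inf_eq_left.2 (X.basicOpen_le _)
  calc X.basicOpen (s i) ⊓ U j = (X.basicOpen (s i) ⊓ U i) ⊓ U j := by rw [e1]
    _ = U i ⊓ U j ⊓ X.basicOpen (s i) := by rw [inf_assoc, inf_comm]
    _ = U i ⊓ U j ⊓ X.basicOpen (s j) := h3
    _ = (X.basicOpen (s j) ⊓ U j) ⊓ U i := by rw [inf_comm, inf_comm (U i), ← inf_assoc]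
    _ = X.basicOpen (s j) ⊓ U i := by rw [e2]

/-- the locus on the open subset `U i` is the basic open subset of the component `s i` -/
theorem locus_inf (hs : IsSec g s) (i : ι) : locF s ⊓ U i = X.basicOpen (s i) := by
  apply le_antisymm
  · rw [locF, iSup_inf_eq]
    refine iSup_le fun j => ?_
    rw [hs.basicOpen_inf j i]
    exact inf_le_left
  · exact le_inf (le_iSup (fun i => X.basicOpen (s i)) i) (X.basicOpen_le _)

/-- if the locus is contained in `U j`, it is the basic open subset of `s j` -/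
theorem locus_eq (hs : IsSec g s) (j : ι) (H : ∀ i, X.basicOpen (s i) ≤ U j) :
    locF s = X.basicOpen (s j) := by
  rw [← hs.locus_inf j]
  exact (inf_eq_left.2 (iSup_le H)).symm

theorem isAffineOpen_locus (hs : IsSec g s) (j : ι) (hj : IsAffineOpen (U j))
    (H : ∀ i, X.basicOpen (s i) ≤ U j) : IsAffineOpen (locF s) := by
  rw [hs.locus_eq j H]
  exact hj.basicOpen (s j)

end IsSec

theorem basicOpen_powS {V : X.Opens} (f : Γ(X, V)) {n : ℕ} (h : 0 < n) :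
    X.basicOpen (f ^ n) = X.basicOpen f := X.basicOpen_pow f h

theorem locus_pow (s : ∀ i, Γ(X, U i)) {n : ℕ} (h : 0 < n) :
    locF (fun i => s i ^ n) = locF s := by
  rw [locF, locF]
  congr 1
  funext i
  exact basicOpen_powS _ h

end

variable {A : CommRingCat.{0}} {t : A} {X : Scheme.{0}} {π : X ⟶ Spec A}

namespace YCharts

variable (Y : YCharts A t π)

theorem basicOpen_str {V : X.Opens} (h : IsUnit t) : X.basicOpen (str π V t) = V :=
  X.basicOpen_of_isUnit (h.map (str π V))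

/-! ### the loci of the sections of `C∞` and `C∞ + f` -/

/-- the section `l j` of `C∞ + f` -/
noncomputable def sH (j : Fin 4) (i : Fin 4) : Γ(X, Y.U i) := Y.eC i j * Y.eF i j

theorem isSec_sH (j : Fin 4) : IsSec (Y.gC * Y.gF) (Y.sH j) :=
  (Y.frC.isSec j).mul (Y.frF.isSec j)

theorem basicOpen_sH (i j : Fin 4) : X.basicOpen (Y.sH j i) = Y.U i ⊓ Y.U j := by
  have hl : ∀ {V : X.Opens} (f : Γ(X, V)), V ⊓ X.basicOpen f = X.basicOpen f := fun f =>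
    inf_eq_right.2 (X.basicOpen_le f)
  have hr : ∀ {V : X.Opens} (f : Γ(X, V)), X.basicOpen f ⊓ V = X.basicOpen f := fun f =>
    inf_eq_left.2 (X.basicOpen_le f)
  have h1 : ∀ V : X.Opens, X.basicOpen (1 : Γ(X, V)) = V := fun V =>
    X.basicOpen_of_isUnit isUnit_one
  match i, j with
  | 0, 0 => simp [sH, eC, eF, h1]
  | 0, 1 => simp [sH, eC, eF, h1, Y.b01]
  | 0, 2 => simp [sH, eC, eF, h1, Y.b02]
  | 0, 3 =>
    rw [Y.b03]
    have : Y.sH 3 0 = (Y.x 0 * (Y.x 0 * Y.y 0 + str π _ t)) * Y.x 0 := by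
      simp only [sH, eC, eF, Matrix.cons_val]
      ring
    rw [this, X.basicOpen_mul, X.basicOpen_mul, inf_right_comm, inf_idem]
  | 1, 0 => simp [sH, eC, eF, h1, ← Y.b10, inf_comm]
  | 1, 1 => simp [sH, eC, eF, h1]
  | 1, 2 =>
    rw [Y.b12]
    have : Y.sH 2 1 = Y.x 1 * Y.y 1 := by
      simp only [sH, eC, eF, Matrix.cons_val]
      ring
    rw [this]
  | 1, 3 =>
    rw [Y.b13]
    have : Y.sH 3 1 = (Y.x 1 * (Y.x 1 + str π _ t * Y.y 1)) * Y.x 1 := by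
      simp only [sH, eC, eF, Matrix.cons_val]
    rw [this, X.basicOpen_mul, X.basicOpen_mul, inf_right_comm, inf_idem]
  | 2, 0 =>
    rw [inf_comm, Y.b20]
    simp [sH, eC, eF]
  | 2, 1 =>
    rw [inf_comm, Y.b21]
    have : Y.sH 1 2 = (Y.x 2 * (Y.x 2 * Y.y 2 - str π _ t)) * Y.x 2 := by
      simp only [sH, eC, eF, Matrix.cons_val, Matrix.cons_val_one]
      ring
    rw [this, X.basicOpen_mul, X.basicOpen_mul, inf_right_comm, inf_idem]
  | 2, 2 => simp [sH, eC, eF, h1]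
  | 2, 3 => simp [sH, eC, eF, Y.b23]
  | 3, 0 =>
    rw [inf_comm, Y.b30]
    have : Y.sH 0 3 = Y.x 3 * Y.y 3 := by
      simp only [sH, eC, eF, Matrix.cons_val, Matrix.cons_val_zero]
      ring
    rw [this]
  | 3, 1 =>
    rw [inf_comm, Y.b31]
    have : Y.sH 1 3 = (Y.x 3 * (Y.x 3 - str π _ t * Y.y 3)) * Y.x 3 := by
      simp only [sH, eC, eF, Matrix.cons_val, Matrix.cons_val_one]
    rw [this, X.basicOpen_mul, X.basicOpen_mul, inf_right_comm, inf_idem]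
  | 3, 2 =>
    rw [inf_comm, Y.b32]
    simp [sH, eC, eF]
  | 3, 3 => simp [sH, eC, eF, h1]

/-- the section `l j` of `C∞ + f` vanishes nowhere exactly on `U j` -/
theorem locus_sH (j : Fin 4) : locF (Y.sH j) = Y.U j := by
  rw [locF]
  simp only [basicOpen_sH]
  rw [← iSup_inf_eq, Y.cover, top_inf_eq]

/-- the sections `l j` of `C∞ + f` have affine loci covering `X`, for all `t` -/
theorem ampleData_H : (∀ j, IsSec (Y.gC * Y.gF) (Y.sH j)) ∧ (∀ j, IsAffineOpen (locF (Y.sH j))) ∧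
    ⨆ j, locF (Y.sH j) = ⊤ := by
  simp only [locus_sH]
  exact ⟨Y.isSec_sH, Y.aff, Y.cover⟩

/-- the section `z p` of `C∞` -/
noncomputable def szp : ∀ i : Fin 4, Γ(X, Y.U i)
  | 0 => Y.x 0 * Y.y 0
  | 1 => Y.x 1
  | 2 => Y.x 2 * Y.y 2 - str π _ t
  | 3 => Y.x 3 - str π _ t * Y.y 3

theorem isSec_szp : IsSec Y.gC Y.szp := by
  have h01 : rO (inf_le_left : Y.U 0 ⊓ Y.U 1 ≤ Y.U 0) (Y.szp 0) =
      Y.gC.v 0 1 inf_le_left inf_le_right *
        rO (inf_le_right : Y.U 0 ⊓ Y.U 1 ≤ Y.U 1) (Y.szp 1) := by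
    have hx := Y.rel01x (W := Y.U 0 ⊓ Y.U 1) inf_le_left inf_le_right
    simp only [gC_v, szp, eC, Matrix.cons_val, Matrix.cons_val_one, map_mul]
    rw [hx, mul_comm]
  have h02 : rO (inf_le_left : Y.U 0 ⊓ Y.U 2 ≤ Y.U 0) (Y.szp 0) =
      Y.gC.v 0 2 inf_le_left inf_le_right *
        rO (inf_le_right : Y.U 0 ⊓ Y.U 2 ≤ Y.U 2) (Y.szp 2) := by
    have hx := Y.rel02x (W := Y.U 0 ⊓ Y.U 2) inf_le_left inf_le_right
    have hy := Y.rel02y (W := Y.U 0 ⊓ Y.U 2) inf_le_left inf_le_right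
    simp only [gC_v, szp, eC, Matrix.cons_val, Matrix.cons_val_one, map_mul, map_sub, map_one,
      rO_str]
    rw [hy]
    generalize rO _ (Y.x 0) = z at *
    generalize rO _ (Y.x 2) = w at *
    generalize rO _ (Y.y 0) = p at *
    linear_combination (- z * p - str π (Y.U 0 ⊓ Y.U 2) t) * hx
  have h03 : rO (inf_le_left : Y.U 0 ⊓ Y.U 3 ≤ Y.U 0) (Y.szp 0) =
      Y.gC.v 0 3 inf_le_left inf_le_right *
        rO (inf_le_right : Y.U 0 ⊓ Y.U 3 ≤ Y.U 3) (Y.szp 3) := by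
    have hx := Y.rel03x (W := Y.U 0 ⊓ Y.U 3) inf_le_left inf_le_right
    have hy := Y.rel03y (W := Y.U 0 ⊓ Y.U 3) inf_le_left inf_le_right
    simp only [gC_v, szp, eC, Matrix.cons_val, Matrix.cons_val_one, map_mul, map_sub, map_one,
      map_add, map_pow, rO_str]
    generalize rO _ (Y.x 0) = z at *
    generalize rO _ (Y.x 3) = w at *
    generalize rO _ (Y.y 0) = p at *
    generalize rO _ (Y.y 3) = q' at *
    linear_combination (- z * p - str π (Y.U 0 ⊓ Y.U 3) t) * hx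
      + str π (Y.U 0 ⊓ Y.U 3) t * hy
  have h12 : rO (inf_le_left : Y.U 1 ⊓ Y.U 2 ≤ Y.U 1) (Y.szp 1) =
      Y.gC.v 1 2 inf_le_left inf_le_right *
        rO (inf_le_right : Y.U 1 ⊓ Y.U 2 ≤ Y.U 2) (Y.szp 2) := by
    have hx := Y.rel12x (W := Y.U 1 ⊓ Y.U 2) inf_le_left inf_le_right
    have hy := Y.rel12y (W := Y.U 1 ⊓ Y.U 2) inf_le_left inf_le_right
    simp only [gC_v, szp, eC, Matrix.cons_val, Matrix.cons_val_one, map_mul, map_sub, map_one,
      rO_str]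
    generalize rO _ (Y.x 1) = z at *
    generalize rO _ (Y.x 2) = w at *
    generalize rO _ (Y.y 1) = p' at *
    generalize rO _ (Y.y 2) = q at *
    linear_combination (- z) * hy + p' * (w * q - str π (Y.U 1 ⊓ Y.U 2) t) * hx
  have h13 : rO (inf_le_left : Y.U 1 ⊓ Y.U 3 ≤ Y.U 1) (Y.szp 1) =
      Y.gC.v 1 3 inf_le_left inf_le_right *
        rO (inf_le_right : Y.U 1 ⊓ Y.U 3 ≤ Y.U 3) (Y.szp 3) := by
    have hx := Y.rel13x (W := Y.U 1 ⊓ Y.U 3) inf_le_left inf_le_right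
    have hy := Y.rel13y (W := Y.U 1 ⊓ Y.U 3) inf_le_left inf_le_right
    simp only [gC_v, szp, eC, Matrix.cons_val, Matrix.cons_val_one, map_mul, map_sub, map_one,
      map_add, rO_str]
    generalize rO _ (Y.x 1) = z at *
    generalize rO _ (Y.x 3) = w at *
    generalize rO _ (Y.y 1) = p' at *
    generalize rO _ (Y.y 3) = q' at *
    linear_combination (- z - str π (Y.U 1 ⊓ Y.U 3) t * p') * hx
      + str π (Y.U 1 ⊓ Y.U 3) t * hy
  have h23 : rO (inf_le_left : Y.U 2 ⊓ Y.U 3 ≤ Y.U 2) (Y.szp 2) =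
      Y.gC.v 2 3 inf_le_left inf_le_right *
        rO (inf_le_right : Y.U 2 ⊓ Y.U 3 ≤ Y.U 3) (Y.szp 3) := by
    have hx := Y.rel23x (W := Y.U 2 ⊓ Y.U 3) inf_le_left inf_le_right
    have hy := Y.rel23y (W := Y.U 2 ⊓ Y.U 3) inf_le_left inf_le_right
    simp only [gC_v, szp, eC, Matrix.cons_val, Matrix.cons_val_one, map_mul, map_sub, map_one,
      rO_str]
    rw [← hx]
    linear_combination str π (Y.U 2 ⊓ Y.U 3) t * hy
  apply IsSec.mk'
  intro i j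
  match i, j with
  | 0, 0 => exact IsSec.diag 0
  | 0, 1 => exact h01
  | 0, 2 => exact h02
  | 0, 3 => exact h03
  | 1, 0 => exact IsSec.swap h01
  | 1, 1 => exact IsSec.diag 1
  | 1, 2 => exact h12
  | 1, 3 => exact h13
  | 2, 0 => exact IsSec.swap h02
  | 2, 1 => exact IsSec.swap h12
  | 2, 2 => exact IsSec.diag 2
  | 2, 3 => exact h23
  | 3, 0 => exact IsSec.swap h03
  | 3, 1 => exact IsSec.swap h13
  | 3, 2 => exact IsSec.swap h23
  | 3, 3 => exact IsSec.diag 3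

/-- the section `z p + t` of `C∞` -/
noncomputable def szt (i : Fin 4) : Γ(X, Y.U i) := Y.szp i + str π _ t * Y.eC i 0

theorem isSec_szt : IsSec Y.gC Y.szt :=
  Y.isSec_szp.add ((Y.frC.isSec 0).smul (fun V => str π V t) (fun h => rO_str h t))

theorem szt_zero : Y.szt 0 = Y.x 0 * Y.y 0 + str π _ t := by
  simp [szt, szp, eC]

theorem szt_two : Y.szt 2 = Y.x 2 * Y.y 2 := by
  simp [szt, szp, eC]

theorem szt_three : Y.szt 3 = Y.x 3 := by
  simp [szt, szp, eC]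

/-- the four sections `p ^ 2`, `q ^ 2`, `z p + t`, `z p` of `2 C∞` -/
noncomputable def sA : Fin 4 → ∀ i : Fin 4, Γ(X, Y.U i) :=
  ![fun i => Y.eC i 1 ^ 2, fun i => Y.eC i 3 ^ 2, fun i => Y.eC i 0 * Y.szt i,
    fun i => Y.eC i 0 * Y.szp i]

theorem isSec_sA (a : Fin 4) : IsSec (Y.gC ^ 2) (Y.sA a) := by
  match a with
  | 0 => exact (Y.frC.isSec 1).pow 2
  | 1 => exact (Y.frC.isSec 3).pow 2
  | 2 =>
    rw [pow_two]
    exact (Y.frC.isSec 0).mul Y.isSec_szt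
  | 3 =>
    rw [pow_two]
    exact (Y.frC.isSec 0).mul Y.isSec_szp

theorem basicOpen_eC_one (i : Fin 4) : X.basicOpen (Y.eC i 1) = Y.U i ⊓ Y.U 1 := by
  have h1 : ∀ V : X.Opens, X.basicOpen (1 : Γ(X, V)) = V := fun V =>
    X.basicOpen_of_isUnit isUnit_one
  match i with
  | 0 =>
    rw [Y.b01]
    simp [eC]
  | 1 => simp [eC, h1]
  | 2 =>
    rw [inf_comm, Y.b21]
    have : Y.eC 2 1 = Y.x 2 * (Y.x 2 * Y.y 2 - str π _ t) := by
      simp only [eC, Matrix.cons_val, Matrix.cons_val_one]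
      ring
    rw [this]
  | 3 =>
    rw [inf_comm, Y.b31]
    simp [eC]

theorem basicOpen_eC_three (i : Fin 4) : X.basicOpen (Y.eC i 3) = Y.U i ⊓ Y.U 3 := by
  have h1 : ∀ V : X.Opens, X.basicOpen (1 : Γ(X, V)) = V := fun V =>
    X.basicOpen_of_isUnit isUnit_one
  match i with
  | 0 =>
    rw [Y.b03]
    have : Y.eC 0 3 = Y.x 0 * (Y.x 0 * Y.y 0 + str π _ t) := by
      simp only [eC, Matrix.cons_val]
      ring
    rw [this]
  | 1 =>
    rw [Y.b13]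
    simp [eC]
  | 2 =>
    rw [Y.b23]
    simp [eC]
  | 3 => simp [eC, h1]

theorem locus_sA_zero : locF (Y.sA 0) = Y.U 1 := by
  change locF (fun i => Y.eC i 1 ^ 2) = _
  rw [locus_pow _ two_pos, locF]
  simp only [basicOpen_eC_one]
  rw [← iSup_inf_eq, Y.cover, top_inf_eq]

theorem locus_sA_one : locF (Y.sA 1) = Y.U 3 := by
  change locF (fun i => Y.eC i 3 ^ 2) = _
  rw [locus_pow _ two_pos, locF]
  simp only [basicOpen_eC_three]
  rw [← iSup_inf_eq, Y.cover, top_inf_eq]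

theorem basicOpen_y1_le : X.basicOpen (Y.y 1) ≤ Y.U 0 := Y.b10 ▸ inf_le_left

theorem sA_two_le (i : Fin 4) : X.basicOpen (Y.sA 2 i) ≤ Y.U 0 := by
  match i with
  | 0 => exact X.basicOpen_le _
  | 1 =>
    have e : Y.sA 2 1 = Y.y 1 * Y.szt 1 := by
      change Y.eC 1 0 * _ = _
      simp [eC]
    rw [e, X.basicOpen_mul]
    exact inf_le_left.trans Y.basicOpen_y1_le
  | 2 =>
    have e : Y.sA 2 2 = Y.x 2 * Y.y 2 := by
      change Y.eC 2 0 * Y.szt 2 = _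
      rw [szt_two]
      simp [eC]
    rw [e, X.basicOpen_mul]
    exact inf_le_left.trans (Y.b20 ▸ inf_le_left)
  | 3 =>
    have e : Y.sA 2 3 = Y.x 3 * Y.y 3 := by
      change Y.eC 3 0 * Y.szt 3 = _
      rw [szt_three]
      simp [eC, mul_comm]
    rw [e, ← Y.b30]
    exact inf_le_left

theorem sA_three_le (i : Fin 4) : X.basicOpen (Y.sA 3 i) ≤ Y.U 2 := by
  match i with
  | 0 =>
    have e : Y.sA 3 0 = Y.x 0 * Y.y 0 := by
      change Y.eC 0 0 * Y.szp 0 = _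
      simp [eC, szp]
    rw [e, X.basicOpen_mul]
    exact inf_le_left.trans (Y.b02 ▸ inf_le_right)
  | 1 =>
    have e : Y.sA 3 1 = Y.x 1 * Y.y 1 := by
      change Y.eC 1 0 * Y.szp 1 = _
      simp [eC, szp, mul_comm]
    rw [e, ← Y.b12]
    exact inf_le_right
  | 2 => exact X.basicOpen_le _
  | 3 =>
    have e : Y.sA 3 3 = Y.y 3 * Y.szp 3 := by
      change Y.eC 3 0 * _ = _
      simp [eC]
    rw [e, X.basicOpen_mul]
    exact inf_le_left.trans (Y.b32 ▸ inf_le_left)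

theorem locus_sA_two : locF (Y.sA 2) = X.basicOpen (Y.x 0 * Y.y 0 + str π _ t) := by
  rw [(Y.isSec_sA 2).locus_eq 0 Y.sA_two_le]
  congr 1
  change Y.eC 0 0 * Y.szt 0 = _
  rw [szt_zero]
  simp [eC]

theorem locus_sA_three : locF (Y.sA 3) = X.basicOpen (Y.x 2 * Y.y 2 - str π _ t) := by
  rw [(Y.isSec_sA 3).locus_eq 2 Y.sA_three_le]
  congr 1
  change Y.eC 2 0 * Y.szp 2 = _
  simp [eC, szp]

theorem isAffineOpen_sA (a : Fin 4) : IsAffineOpen (locF (Y.sA a)) := by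
  match a with
  | 0 =>
    rw [locus_sA_zero]
    exact Y.aff 1
  | 1 =>
    rw [locus_sA_one]
    exact Y.aff 3
  | 2 => exact (Y.isSec_sA 2).isAffineOpen_locus 0 (Y.aff 0) Y.sA_two_le
  | 3 => exact (Y.isSec_sA 3).isAffineOpen_locus 2 (Y.aff 2) Y.sA_three_le

theorem cover_sA (ht : IsUnit t) : ⨆ a, locF (Y.sA a) = ⊤ := by
  have l0 : locF (Y.sA 0) ≤ ⨆ a, locF (Y.sA a) := le_iSup (fun a => locF (Y.sA a)) 0
  have l1 : locF (Y.sA 1) ≤ ⨆ a, locF (Y.sA a) := le_iSup (fun a => locF (Y.sA a)) 1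
  have l2 : locF (Y.sA 2) ≤ ⨆ a, locF (Y.sA a) := le_iSup (fun a => locF (Y.sA a)) 2
  have l3 : locF (Y.sA 3) ≤ ⨆ a, locF (Y.sA a) := le_iSup (fun a => locF (Y.sA a)) 3
  rw [locus_sA_zero] at l0
  rw [locus_sA_one] at l1
  rw [locus_sA_two] at l2
  rw [locus_sA_three] at l3
  rw [← top_le_iff]
  conv_lhs => rw [← Y.cover]
  refine iSup_le fun i => ?_
  match i with
  | 0 =>
    have h1 : (str π (Y.U 0) t : Γ(X, Y.U 0)) =
        (Y.x 0 * Y.y 0 + str π _ t) + (- (Y.x 0)) * Y.y 0 := by ring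
    have h2 : Y.U 0 ≤ X.basicOpen (Y.x 0 * Y.y 0 + str π _ t) ⊔
        X.basicOpen ((- (Y.x 0)) * Y.y 0) := by
      refine le_trans ?_ (X.basicOpen_add_le _ _)
      rw [← h1, basicOpen_str ht]
    refine h2.trans (sup_le l2 ?_)
    rw [X.basicOpen_mul]
    refine inf_le_right.trans ?_
    rw [← Y.b01]
    exact inf_le_right.trans l0
  | 1 => exact l0
  | 2 =>
    have h1 : (- str π (Y.U 2) t : Γ(X, Y.U 2)) =
        (Y.x 2 * Y.y 2 - str π _ t) + (- (Y.x 2)) * Y.y 2 := by ring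
    have h2 : Y.U 2 ≤ X.basicOpen (Y.x 2 * Y.y 2 - str π _ t) ⊔
        X.basicOpen ((- (Y.x 2)) * Y.y 2) := by
      refine le_trans ?_ (X.basicOpen_add_le _ _)
      rw [← h1, X.basicOpen_of_isUnit (ht.map (str π (Y.U 2))).neg]
    refine h2.trans (sup_le l3 ?_)
    rw [X.basicOpen_mul]
    refine inf_le_right.trans ?_
    rw [← Y.b23]
    exact inf_le_right.trans l1
  | 3 => exact l1

/-- if `t` is a unit then the sections `p ^ 2`, `q ^ 2`, `z p + t`, `z p` of `2 C∞` have affine loci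
covering `X` -/
theorem ampleData_C (ht : IsUnit t) : (∀ a, IsSec (Y.gC ^ 2) (Y.sA a)) ∧
    (∀ a, IsAffineOpen (locF (Y.sA a))) ∧ ⨆ a, locF (Y.sA a) = ⊤ :=
  ⟨Y.isSec_sA, Y.isAffineOpen_sA, Y.cover_sA ht⟩

/-! ### values of the cocycles -/

theorem gC_01 {W : X.Opens} (h0 : W ≤ Y.U 0) (h1 : W ≤ Y.U 1) :
    Y.gC.v 0 1 h0 h1 = rO h0 (Y.y 0) := by
  rw [gC_v]
  simp [eC]

theorem gC_02 {W : X.Opens} (h0 : W ≤ Y.U 0) (h2 : W ≤ Y.U 2) :
    Y.gC.v 0 2 h0 h2 = 1 := by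
  rw [gC_v]
  simp [eC]

theorem gC_03 {W : X.Opens} (h0 : W ≤ Y.U 0) (h3 : W ≤ Y.U 3) :
    Y.gC.v 0 3 h0 h3 = rO h0 (Y.x 0 ^ 2 * Y.y 0 + str π _ t * Y.x 0) := by
  rw [gC_v]
  simp [eC]

theorem gC_12 {W : X.Opens} (h1 : W ≤ Y.U 1) (h2 : W ≤ Y.U 2) :
    Y.gC.v 1 2 h1 h2 = rO h1 (Y.y 1) := by
  rw [gC_v]
  simp [eC]

theorem gC_13 {W : X.Opens} (h1 : W ≤ Y.U 1) (h3 : W ≤ Y.U 3) :
    Y.gC.v 1 3 h1 h3 = rO h1 (Y.x 1 * (Y.x 1 + str π _ t * Y.y 1)) := by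
  rw [gC_v]
  simp [eC]

theorem gC_23 {W : X.Opens} (h2 : W ≤ Y.U 2) (h3 : W ≤ Y.U 3) :
    Y.gC.v 2 3 h2 h3 = rO h2 (Y.y 2) := by
  rw [gC_v]
  simp [eC]

theorem gF_01 {W : X.Opens} (h0 : W ≤ Y.U 0) (h1 : W ≤ Y.U 1) : Y.gF.v 0 1 h0 h1 = 1 := by
  rw [gF_v]
  simp [eF]

theorem gF_02 {W : X.Opens} (h0 : W ≤ Y.U 0) (h2 : W ≤ Y.U 2) :
    Y.gF.v 0 2 h0 h2 = rO h0 (Y.x 0) := by
  rw [gF_v]
  simp [eF]

theorem gF_03 {W : X.Opens} (h0 : W ≤ Y.U 0) (h3 : W ≤ Y.U 3) :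
    Y.gF.v 0 3 h0 h3 = rO h0 (Y.x 0) := by
  rw [gF_v]
  simp [eF]

theorem gF_12 {W : X.Opens} (h1 : W ≤ Y.U 1) (h2 : W ≤ Y.U 2) :
    Y.gF.v 1 2 h1 h2 = rO h1 (Y.x 1) := by
  rw [gF_v]
  simp [eF]

theorem gF_13 {W : X.Opens} (h1 : W ≤ Y.U 1) (h3 : W ≤ Y.U 3) :
    Y.gF.v 1 3 h1 h3 = rO h1 (Y.x 1) := by
  rw [gF_v]
  simp [eF]

theorem gF_23 {W : X.Opens} (h2 : W ≤ Y.U 2) (h3 : W ≤ Y.U 3) : Y.gF.v 2 3 h2 h3 = 1 := by
  rw [gF_v]
  simp [eF]

/-- the group of twists: (n, m) is O(n C_inf + m f) -/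
noncomputable def gg : Multiplicative (ℤ × ℤ) →* Coc Y.U where
  toFun a := Y.gC ^ a.toAdd.1 * Y.gF ^ a.toAdd.2
  map_one' := by simp
  map_mul' a b := by
    simp only [toAdd_mul, Prod.fst_add, Prod.snd_add, zpow_add]
    exact mul_mul_mul_comm (Y.gC ^ _) (Y.gC ^ _) (Y.gF ^ _) (Y.gF ^ _)

/-! ### the sections as `Coc.Sct` -/

open Coc

/-- C4: the section of O(C_inf) with divisor C_inf -/
theorem exists_sC : ∃ s : Sct Y.gC, s.c 0 = 1 ∧ s.c 1 = Y.y 1 ∧ s.c 2 = 1 ∧ s.c 3 = Y.y 3 :=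
  ⟨⟨fun i => Y.eC i 0, Y.frC.isSec 0⟩, rfl, rfl, rfl, rfl⟩

/-- C5: the two sections of O(f) -/
theorem exists_sF : (∃ s : Sct Y.gF, s.c 0 = 1 ∧ s.c 1 = 1 ∧ s.c 2 = Y.x 2 ∧ s.c 3 = Y.x 3) ∧
    ∃ s : Sct Y.gF, s.c 0 = Y.x 0 ∧ s.c 1 = Y.x 1 ∧ s.c 2 = 1 ∧ s.c 3 = 1 :=
  ⟨⟨⟨fun i => Y.eF i 0, Y.frF.isSec 0⟩, rfl, rfl, rfl, rfl⟩,
    ⟨⟨fun i => Y.eF i 2, Y.frF.isSec 2⟩, rfl, rfl, rfl, rfl⟩⟩

/-- C6: H = C_inf + f has four sections whose loci are the charts -/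
theorem exists_sH (i : Fin 4) : ∃ s : Sct (Y.gC * Y.gF), s.locus = Y.U i :=
  ⟨⟨Y.sH i, Y.isSec_sH i⟩, Y.locus_sH i⟩

/-- C7: t a unit: four sections of 2 C_inf with affine loci covering X -/
theorem exists_s2C (ht : IsUnit t) : ∃ s : Fin 4 → Sct (Y.gC ^ (2 : ℤ)),
    (∀ i, IsAffineOpen (s i).locus) ∧ ⨆ i, (s i).locus = ⊤ := by
  have e : Y.gC ^ (2 : ℤ) = Y.gC ^ 2 := zpow_ofNat Y.gC 2
  rw [e]
  exact ⟨fun a => ⟨Y.sA a, Y.isSec_sA a⟩, Y.isAffineOpen_sA, Y.cover_sA ht⟩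

end YCharts

theorem Coc.v_inv {X : Scheme.{u}} {ι : Type u} {U : ι → X.Opens} (g : Coc U) (i j : ι)
    {W : X.Opens} (hi : W ≤ U i) (hj : W ≤ U j) : (g⁻¹).v i j hi hj = g.v j i hj hi := by
  have h1 := g.v_inv_mul i j hi hj
  have h2 := g.v_swap i j hi hj
  linear_combination g.v j i hj hi * h1 - (g⁻¹).v i j hi hj * h2

theorem Coc.v_neg_two {X : Scheme.{u}} {ι : Type u} {U : ι → X.Opens} (g : Coc U) (i j : ι)
    {W : X.Opens} (hi : W ≤ U i) (hj : W ≤ U j) :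
    (g ^ (-2 : ℤ)).v i j hi hj = g.v j i hj hi ^ 2 := by
  have e : g ^ (-2 : ℤ) = g⁻¹ * g⁻¹ := by
    rw [← mul_inv, ← pow_two, zpow_neg]
    congr 1
  rw [e, Coc.v_mul, Coc.v_inv, pow_two]

namespace YCharts

variable (Y : YCharts A t π)

open Coc

/-- the components of the section of O(C_inf - 2f) with divisor C = {p = q = 0} -/
noncomputable def s0 : ∀ i : Fin 4, Γ(X, Y.U i)
  | 0 => Y.y 0
  | 1 => 1
  | 2 => Y.y 2
  | 3 => 1

theorem isSec_s0 (ht : t = 0) : IsSec (Y.gC * Y.gF ^ (-2 : ℤ)) Y.s0 := by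
  subst ht
  have h01 : rO (inf_le_left : Y.U 0 ⊓ Y.U 1 ≤ Y.U 0) (Y.s0 0) =
      (Y.gC * Y.gF ^ (-2 : ℤ)).v 0 1 inf_le_left inf_le_right *
        rO (inf_le_right : Y.U 0 ⊓ Y.U 1 ≤ Y.U 1) (Y.s0 1) := by
    rw [v_mul, v_neg_two, gC_v, gF_v]
    simp [s0, eC, eF]
  have h02 : rO (inf_le_left : Y.U 0 ⊓ Y.U 2 ≤ Y.U 0) (Y.s0 0) =
      (Y.gC * Y.gF ^ (-2 : ℤ)).v 0 2 inf_le_left inf_le_right *
        rO (inf_le_right : Y.U 0 ⊓ Y.U 2 ≤ Y.U 2) (Y.s0 2) := by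
    have hx := Y.rel02x (W := Y.U 0 ⊓ Y.U 2) inf_le_left inf_le_right
    have hy := Y.rel02y (W := Y.U 0 ⊓ Y.U 2) inf_le_left inf_le_right
    simp only [v_mul, v_neg_two, gC_v, gF_v, s0, eC, eF, Matrix.cons_val, Matrix.cons_val_zero,
      map_one, map_zero] at hy ⊢
    rw [hy]
    generalize rO _ (Y.x 0) = z at *
    generalize rO _ (Y.x 2) = w at *
    generalize rO _ (Y.y 0) = p at *
    linear_combination (- p * (z * w + 1)) * hx
  have h03 : rO (inf_le_left : Y.U 0 ⊓ Y.U 3 ≤ Y.U 0) (Y.s0 0) =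
      (Y.gC * Y.gF ^ (-2 : ℤ)).v 0 3 inf_le_left inf_le_right *
        rO (inf_le_right : Y.U 0 ⊓ Y.U 3 ≤ Y.U 3) (Y.s0 3) := by
    have hx := Y.rel03x (W := Y.U 0 ⊓ Y.U 3) inf_le_left inf_le_right
    simp only [v_mul, v_neg_two, gC_v, gF_v, s0, eC, eF, Matrix.cons_val, Matrix.cons_val_zero,
      map_one, map_zero, map_mul, map_add, map_pow, rO_str]
    generalize rO _ (Y.x 0) = z at *
    generalize rO _ (Y.x 3) = w at *
    generalize rO _ (Y.y 0) = p at *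
    linear_combination (- p * (z * w + 1)) * hx
  have h12 : rO (inf_le_left : Y.U 1 ⊓ Y.U 2 ≤ Y.U 1) (Y.s0 1) =
      (Y.gC * Y.gF ^ (-2 : ℤ)).v 1 2 inf_le_left inf_le_right *
        rO (inf_le_right : Y.U 1 ⊓ Y.U 2 ≤ Y.U 2) (Y.s0 2) := by
    have hy := Y.rel12y (W := Y.U 1 ⊓ Y.U 2) inf_le_left inf_le_right
    simp only [v_mul, v_neg_two, gC_v, gF_v, s0, eC, eF, Matrix.cons_val, Matrix.cons_val_one,
      map_one, map_zero] at hy ⊢
    linear_combination - hy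
  have h13 : rO (inf_le_left : Y.U 1 ⊓ Y.U 3 ≤ Y.U 1) (Y.s0 1) =
      (Y.gC * Y.gF ^ (-2 : ℤ)).v 1 3 inf_le_left inf_le_right *
        rO (inf_le_right : Y.U 1 ⊓ Y.U 3 ≤ Y.U 3) (Y.s0 3) := by
    have hx := Y.rel13x (W := Y.U 1 ⊓ Y.U 3) inf_le_left inf_le_right
    simp only [v_mul, v_neg_two, gC_v, gF_v, s0, eC, eF, Matrix.cons_val, Matrix.cons_val_one,
      map_one, map_zero, map_mul, map_add, rO_str]
    generalize rO _ (Y.x 1) = z at *
    generalize rO _ (Y.x 3) = w at *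
    linear_combination (- (z * w + 1)) * hx
  have h23 : rO (inf_le_left : Y.U 2 ⊓ Y.U 3 ≤ Y.U 2) (Y.s0 2) =
      (Y.gC * Y.gF ^ (-2 : ℤ)).v 2 3 inf_le_left inf_le_right *
        rO (inf_le_right : Y.U 2 ⊓ Y.U 3 ≤ Y.U 3) (Y.s0 3) := by
    rw [v_mul, v_neg_two, gC_v, gF_v]
    simp [s0, eC, eF]
  apply IsSec.mk'
  intro i j
  match i, j with
  | 0, 0 => exact IsSec.diag 0
  | 0, 1 => exact h01
  | 0, 2 => exact h02
  | 0, 3 => exact h03
  | 1, 0 => exact IsSec.swap h01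
  | 1, 1 => exact IsSec.diag 1
  | 1, 2 => exact h12
  | 1, 3 => exact h13
  | 2, 0 => exact IsSec.swap h02
  | 2, 1 => exact IsSec.swap h12
  | 2, 2 => exact IsSec.diag 2
  | 2, 3 => exact h23
  | 3, 0 => exact IsSec.swap h03
  | 3, 1 => exact IsSec.swap h13
  | 3, 2 => exact IsSec.swap h23
  | 3, 3 => exact IsSec.diag 3

/-- C8: t = 0: the section of O(C_inf - 2f) with divisor C = {p = q = 0} -/
theorem exists_s0 (ht : t = 0) : ∃ s : Sct (Y.gC * Y.gF ^ (-2 : ℤ)),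
    s.c 0 = Y.y 0 ∧ s.c 1 = 1 ∧ s.c 2 = Y.y 2 ∧ s.c 3 = 1 :=
  ⟨⟨Y.s0, Y.isSec_s0 ht⟩, rfl, rfl, rfl, rfl⟩

end YCharts

end Fdim
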