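import Pool.Agent.Work.MP_f714fc_ag.Geo.HostFinal
import Pool.Agent.Work.MP_f714fc_ag.Abs.KeyFun
import Pool.Agent.Work.MP_f714fc_ag.Yc.Fin
import Pool.Agent.Work.MP_f714fc_ag.Geo.BrA
import Pool.Agent.Work.MP_f714fc_ag.Geo.BrB
import Pool.Agent.Work.MP_f714fc_ag.Geo.BrL

open CategoryTheory CategoryTheory.Abelian Limits TopologicalSpace AlgebraicGeometry Opposite

attribute [-instance] CategoryTheory.catToReflQuiver

/-!
MP_f714fc_ag, Q2: the Fano dimension is not lower semicontinuous in families.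
-/

namespace Fdim

/-- a Fano variety is Fano in terms of cocycles -/
theorem SmoothProjVar.IsFano.coc {V : SmoothProjVar} {n : ℕ} (h : V.IsFano n) :
    V.IsFanoCoc n := by
  obtain ⟨hdim, ω, L, hω, hL, e, hc, ha⟩ := h
  obtain ⟨K, ⟨e1⟩, ⟨e2⟩⟩ := exists_coc hω hL e
  exact V.isFanoCoc_of hdim e1 e2 hc ha

variable {lin : Prop}

theorem SmoothProjVar.contains_self (V : SmoothProjVar) : V.Contains lin V :=
  ⟨𝟭 _, inferInstance, inferInstance, inferInstance, fun _ => inferInstance, inferInstance,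
    inferInstance⟩

theorem fdim_le_of_isFano {V : SmoothProjVar} {n : ℕ} (h : V.IsFano n) : fdim lin V ≤ n :=
  sInf_le ⟨n, V, rfl, h, V.contains_self⟩

theorem two_lt_fdim {V : SmoothProjVar} (M : Coh V.X) (h0 : Module.finrank ℂ (M ⟶ M) = 1)
    (h1 : Subsingleton (Ext M M 1)) (h2 : Nontrivial (Ext M M 2)) : ¬ fdim lin V ≤ 2 := by
  intro h
  have hne : {m : ℕ∞ | ∃ (n : ℕ) (W : SmoothProjVar), m = n ∧ W.IsFano n ∧
      W.Contains lin V}.Nonempty := by
    by_contra hne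
    rw [Set.not_nonempty_iff_eq_empty] at hne
    rw [fdim, hne, sInf_empty] at h
    exact absurd h (by decide)
  obtain ⟨n, W, hn, hW, Φ, i1, i2, i3, i4, i5, i6⟩ := csInf_mem hne
  have hn2 : n ≤ 2 := by
    have : ((n : ℕ) : ℕ∞) ≤ 2 := by
      rw [← hn]
      exact h
    exact_mod_cast this
  exact no_fully_faithful.{1, 1, 0, 1, 1, 1, 0, 1, 0} M h0 h1 h2 (hW.coc.two hn2) Φ

/-- Q2 of MP_f714fc_ag: the Fano dimension is not lower semicontinuous in families. -/
theorem not_lower_semicontinuous : ∃ F : Family, ∀ lin : Prop,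
    (∀ t : ℂ, t ≠ 0 → fdim lin (F.fiber t) ≤ 2) ∧ 2 < fdim lin (F.fiber 0) ∧
      ¬ IsClosed {t : ℂ | fdim lin (F.fiber t) ≤ 2} := by
  obtain ⟨F, hF, M, h0, h1, h2⟩ := exists_family'
  refine ⟨F, fun lin => ?_⟩
  have hne : ∀ t : ℂ, t ≠ 0 → fdim lin (F.fiber t) ≤ 2 := fun t ht =>
    fdim_le_of_isFano (hF t ht).isFano
  have hz : ¬ fdim lin (F.fiber 0) ≤ 2 := two_lt_fdim M h0 h1 h2
  refine ⟨hne, not_le.1 hz, fun hc => ?_⟩
  have h : {t : ℂ | fdim lin (F.fiber t) ≤ 2} = {0}ᶜ := by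
    ext t
    simp only [Set.mem_ofPred_eq, Set.mem_compl_iff, Set.mem_singleton_iff]
    constructor
    · rintro ht rfl
      exact hz ht
    · exact hne t
  rw [h, isClosed_compl_iff] at hc
  exact not_isOpen_singleton (0 : ℂ) hc

end Fdim
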