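import Pool.Agent.Work.MP_f714fc_ag.Geo.CocDefs
import Pool.Agent.Work.MP_f714fc_ag.Geo.IntAmple
import Pool.Agent.Work.MP_f714fc_ag.Geo.Charts
import Pool.Agent.Work.MP_f714fc_ag.Geo.CohLin2
import Pool.Agent.Work.MP_f714fc_ag.Abs.HostOf
import Pool.Agent.Work.MP_f714fc_ag.Sch.YGeom

/-!
MP_f714fc_ag: the category of coherent sheaves on a Fano variety of dimension at most two
satisfies the hypotheses of the key lemma.
-/

open CategoryTheory CategoryTheory.Abelian Limits TopologicalSpace AlgebraicGeometry Opposite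

attribute [-instance] CategoryTheory.catToReflQuiver

namespace Fdim

theorem SmoothProjVar.compactSpace (W : SmoothProjVar) : CompactSpace W.X := by
  have h1 : IsProper (W.X ↘ SpecC) := IsProjective.isProper W.is.projective
  have h2 : QuasiCompact (W.X ↘ SpecC) := inferInstance
  exact (quasiCompact_iff_compactSpace (W.X ↘ SpecC)).1 h2

/-- hosts -/
theorem SmoothProjVar.IsFanoCoc.two {W : SmoothProjVar} {n : ℕ} (hn : n ≤ 2) (h : W.IsFanoCoc n) :
    Two.{1} ℂ (Coh W.X) := by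
  obtain ⟨hdim, ω, hcan, hamp⟩ := h
  rcases Nat.lt_or_ge n 2 with h1 | h1
  · exact hcan.two_of_le_one (by omega)
  obtain rfl : n = 2 := by omega
  have hint : IsIntegral W.X := W.is.integral
  have hcomp : CompactSpace W.X := W.compactSpace
  let _ := Coc.hasShiftCoh (Coc.negPowHom ω.g)
  have hadd : ∀ n : ℤ, (shiftFunctor (Coh W.X) n).Additive :=
    Coc.shiftFunctorCoh_additive (Coc.negPowHom ω.g)
  have hlin : ∀ n : ℤ, (shiftFunctor (Coh W.X) n).Linear ℂ :=
    Coc.shiftFunctorCoh_linear (isLin ℂ W.X) (Coc.negPowHom ω.g)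
  have e : ∀ A : Coh W.X, Nonempty ((Coc.twCoh ω.g).obj A ≅ A⟦(-1 : ℤ)⟧) := by
    intro A
    have h2 : (Coc.twCoh (ω.g ^ (-(-1 : ℤ)))).obj A ≅ (Coc.twCoh ω.g).obj A :=
      eqToIso (by rw [neg_neg, zpow_one])
    exact ⟨h2.symm⟩
  obtain ⟨Y⟩ := Coc.nonempty_chartData (Coc.negPowHom ω.g) (scal ℂ W.X) (isLin ℂ W.X) hamp
    hdim.le
  exact two_of_charts (Coc.intAmpleData (Coc.negPowHom ω.g) (isLin ℂ W.X) hamp) Y hcan e

end Fdim
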