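import Mathlib

/-!
# Laurent polynomials: the projective line over a ring

Every element of `R[X, 1/X]` is uniquely `f(X) + u g(u)`, `u = 1/X`.
-/

open Polynomial

namespace Fdim

universe u v

section

variable {R : Type u} [CommRing R]

open LaurentPolynomial

lemma trunc_neg (g : R[X]) :
    trunc (T (-1) * invert (toLaurent g) : R[T;T⁻¹]) = 0 := by
  induction g using Polynomial.induction_on' with
  | add p q hp hq => rw [map_add, map_add, mul_add, map_add, hp, hq, add_zero]
  | monomial n a =>
    rw [← C_mul_X_pow_eq_monomial, toLaurent_C_mul_X_pow, map_mul invert, invert_C, invert_T,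
      mul_left_comm, ← T_add, trunc_C_mul_T, if_neg (by lia)]

lemma trunc_pos (f : R[X]) :
    trunc (invert (T 1 * toLaurent f) : R[T;T⁻¹]) = 0 := by
  induction f using Polynomial.induction_on' with
  | add p q hp hq => rw [map_add, mul_add, map_add, map_add, hp, hq, add_zero]
  | monomial n a =>
    rw [← C_mul_X_pow_eq_monomial, toLaurent_C_mul_X_pow, mul_left_comm, ← T_add,
      map_mul invert, invert_C, invert_T, trunc_C_mul_T, if_neg (by lia)]

lemma laurent_decomp (h : R[T;T⁻¹]) :
    toLaurent (trunc h) + T (-1) * invert (toLaurent (trunc (invert (T 1 * h)))) = h := by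
  induction h using LaurentPolynomial.induction_on' with
  | add p q hp hq =>
    rw [mul_add, map_add, map_add, map_add, map_add, map_add, map_add, mul_add]
    nth_rewrite 3 [← hp]
    nth_rewrite 3 [← hq]
    abel
  | C_mul_T n a =>
    rw [mul_left_comm, ← T_add, map_mul invert, invert_C, invert_T, trunc_C_mul_T,
      trunc_C_mul_T]
    by_cases h0 : 0 ≤ n
    · rw [if_pos h0, if_neg (by lia), map_zero, map_zero, mul_zero, add_zero,
        ← C_mul_X_pow_eq_monomial, toLaurent_C_mul_X_pow, Int.toNat_of_nonneg h0]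
    · rw [if_neg h0, if_pos (by lia), map_zero, zero_add, ← C_mul_X_pow_eq_monomial,
        toLaurent_C_mul_X_pow, map_mul invert, invert_C, invert_T, mul_left_comm, ← T_add,
        Int.toNat_of_nonneg (by lia)]
      congr 2
      lia

lemma laurent_bij : Function.Bijective (fun fg : R[X] × R[X] =>
    (toLaurent fg.1 + T (-1) * invert (toLaurent fg.2) : R[T;T⁻¹])) := by
  constructor
  · rintro ⟨f, g⟩ ⟨f', g'⟩ h
    simp only at h
    have h1 := congrArg trunc h
    rw [map_add, map_add, trunc_neg, trunc_neg, trunc_toLaurent, trunc_toLaurent, add_zero,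
      add_zero] at h1
    have h2 : (T (-1) * invert (toLaurent g) : R[T;T⁻¹]) = T (-1) * invert (toLaurent g') := by
      rw [h1] at h
      exact add_left_cancel h
    have h3 : (invert (toLaurent g) : R[T;T⁻¹]) = invert (toLaurent g') := by
      have := congrArg (fun x => T 1 * x) h2
      simpa only [← mul_assoc, ← T_add, add_neg_cancel, T_zero, one_mul] using this
    have h4 := toLaurent_injective (invert.injective h3)
    rw [h1, h4]
  · intro h
    exact ⟨(trunc h, trunc (invert (T 1 * h))), laurent_decomp h⟩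

/-- decomposition of `X^(-n) r` in `R[X, 1/X]`, evaluated in rings -/
theorem laurent_eval (r : R[X]) (n : ℕ) : ∃ f g : R[X],
    ∀ {S : Type v} [CommRing S] (φ ψ : R[X] →+* S), φ.comp Polynomial.C = ψ.comp Polynomial.C →
      φ X * ψ X = 1 → φ X ^ n * (φ f + ψ X * ψ g) = φ r := by
  have h0 := laurent_decomp (T (-n) * toLaurent r)
  refine ⟨trunc (T (-n) * toLaurent r), trunc (invert (T 1 * (T (-n) * toLaurent r))), ?_⟩
  set f := trunc (T (-n) * toLaurent r) with hf
  set g := trunc (invert (T 1 * (T (-n) * toLaurent r))) with hg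
  intro S _ φ ψ hc hu
  let x : Sˣ := ⟨φ X, ψ X, hu, by rw [mul_comm]; exact hu⟩
  let ev : R[T;T⁻¹] →+* S := LaurentPolynomial.eval₂ (φ.comp Polynomial.C) x
  have e1 : ∀ a : R[X], ev (toLaurent a) = φ a := by
    intro a
    rw [show ev (toLaurent a) = _ from eval₂_toLaurent _ _ _]
    change a.eval₂ (φ.comp Polynomial.C) (φ X) = φ a
    rw [← Polynomial.hom_eval₂ a Polynomial.C φ X, Polynomial.eval₂_C_X]
  have e2 : ∀ a : R[X], ev (invert (toLaurent a)) = ψ a := by
    intro a
    induction a using Polynomial.induction_on' with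
    | add p q hp hq => rw [map_add, map_add, map_add, hp, hq, map_add]
    | monomial k c =>
      rw [← C_mul_X_pow_eq_monomial, toLaurent_C_mul_X_pow, map_mul, invert_C, invert_T,
        show ev (_ * _) = _ from eval₂_C_mul_T_neg_n _ _ _ _, hc, map_mul, map_pow]
      rfl
  have e3 : ev (T (-1)) = ψ X := by
    have := LaurentPolynomial.eval₂_T_neg_n (φ.comp Polynomial.C) x 1
    simp only [Nat.cast_one, pow_one] at this
    exact this
  have e4 : ev (T n) = φ X ^ n := by
    rw [← toLaurent_X_pow, e1, map_pow]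
  have h1 := congrArg ev (congrArg (fun y => T n * y) h0)
  rw [map_mul, map_add, map_mul, e1, e2, e3, e4, ← mul_assoc, ← T_add, add_neg_cancel, T_zero,
    one_mul, e1] at h1
  exact h1

/-- `a` embeds `R[X]` in `S` and `u` is the inverse of the image of `X`. -/
structure IsLaurent {S : Type v} [CommRing S] (a : R[X] →+* S) (u : S) : Prop where
  unit : a X * u = 1
  inj : Function.Injective a

variable {S : Type v} [CommRing S] {a : R[X] →+* S} {u : S}

/-- the unit `X` in `S` -/
noncomputable def IsLaurent.un (h : IsLaurent a u) : Sˣ where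
  val := a X
  inv := u
  val_inv := h.unit
  inv_val := by rw [mul_comm]; exact h.unit

/-- the map from Laurent polynomials -/
noncomputable def IsLaurent.ev (h : IsLaurent a u) : R[T;T⁻¹] →+* S :=
  LaurentPolynomial.eval₂ (a.comp Polynomial.C) h.un

lemma IsLaurent.ev_toLaurent (h : IsLaurent a u) (f : R[X]) : h.ev (toLaurent f) = a f := by
  rw [IsLaurent.ev, eval₂_toLaurent]
  change f.eval₂ (a.comp Polynomial.C) (a X) = a f
  rw [← Polynomial.hom_eval₂ f Polynomial.C a X]
  simp

lemma IsLaurent.ev_invert (h : IsLaurent a u) (f : R[X]) :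
    h.ev (invert (toLaurent f)) = f.eval₂ (a.comp Polynomial.C) u := by
  induction f using Polynomial.induction_on' with
  | add p q hp hq => rw [map_add, map_add, map_add, hp, hq, eval₂_add]
  | monomial n r =>
    rw [← C_mul_X_pow_eq_monomial, toLaurent_C_mul_X_pow, map_mul, invert_C, invert_T]
    simp only [IsLaurent.ev, eval₂_C_mul_T_neg_n, Polynomial.eval₂_mul, Polynomial.eval₂_C,
      Polynomial.eval₂_X_pow]
    rfl

lemma IsLaurent.ev_T_neg_one (h : IsLaurent a u) : h.ev (T (-1)) = u := by
  have := LaurentPolynomial.eval₂_T_neg_n (a.comp Polynomial.C) h.un 1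
  simp only [Nat.cast_one, pow_one] at this
  exact this

lemma IsLaurent.ev_inj (h : IsLaurent a u) : Function.Injective h.ev := by
  rw [injective_iff_map_eq_zero]
  intro s hs
  obtain ⟨n, f, hf⟩ := exists_T_pow s
  have h1 : a f = 0 := by
    rw [← h.ev_toLaurent, hf, map_mul, hs, zero_mul]
  have h2 : f = 0 := h.inj (by rw [h1, map_zero])
  rw [h2, map_zero] at hf
  have h3 := congrArg (fun x => x * T (-n)) hf.symm
  simpa only [mul_assoc, ← T_add, add_neg_cancel, T_zero, mul_one, zero_mul] using h3

lemma IsLaurent.exists_ev (h : IsLaurent a u) {s : S} {n : ℕ} {f : R[X]}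
    (hf : a X ^ n * s = a f) : ∃ l, h.ev l = s := by
  refine ⟨T (-n) * toLaurent f, ?_⟩
  rw [map_mul, h.ev_toLaurent, ← hf]
  have h1 : h.ev (T (-n)) * a X ^ n = 1 := by
    have : a X ^ n = h.ev (T n) := by
      rw [← toLaurent_X_pow, h.ev_toLaurent, map_pow]
    rw [this, ← map_mul, ← T_add, neg_add_cancel, T_zero, map_one]
  rw [← mul_assoc, h1, one_mul]

/-- The decomposition `f(X) + u g(u)` is unique. -/
theorem IsLaurent.split_inj (h : IsLaurent a u) : Function.Injective (fun fg : R[X] × R[X] =>
    a fg.1 + u * fg.2.eval₂ (a.comp Polynomial.C) u) := by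
  have h1 := h.ev_inj.comp laurent_bij.injective
  convert h1 using 2 with fg
  simp only [Function.comp]
  rw [map_add, h.ev_toLaurent, map_mul, h.ev_T_neg_one, h.ev_invert]

/-- Every element of `R[X, 1/X]` is `f(X) + u g(u)`. -/
theorem IsLaurent.split (h : IsLaurent a u) {s : S} (hs : ∃ (n : ℕ) (f : R[X]), a X ^ n * s = a f) :
    ∃ f g : R[X], s = a f + u * g.eval₂ (a.comp Polynomial.C) u := by
  obtain ⟨n, f, hf⟩ := hs
  obtain ⟨l, rfl⟩ := h.exists_ev hf
  obtain ⟨⟨f', g'⟩, hfg⟩ := laurent_bij.surjective l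
  refine ⟨f', g', ?_⟩
  rw [← hfg]
  simp only
  rw [map_add, h.ev_toLaurent, map_mul, h.ev_T_neg_one, h.ev_invert]

/-- sections of `O(-1)` on the projective line -/
theorem IsLaurent.eq_zero (h : IsLaurent a u) {f g : R[X]}
    (hfg : a f = u * g.eval₂ (a.comp Polynomial.C) u) : f = 0 ∧ g = 0 := by
  have h2 : a f + u * (-g).eval₂ (a.comp Polynomial.C) u
      = a 0 + u * (0 : R[X]).eval₂ (a.comp Polynomial.C) u := by
    rw [hfg]
    simp
  have h3 := h.split_inj (a₁ := (f, -g)) (a₂ := (0, 0)) h2
  rw [Prod.mk.injEq, neg_eq_zero] at h3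
  exact h3

/-- sections of `O` on the projective line: constants -/
theorem IsLaurent.const (h : IsLaurent a u) {f g : R[X]}
    (hfg : a f = g.eval₂ (a.comp Polynomial.C) u) :
    ∃ r : R, f = Polynomial.C r ∧ g = Polynomial.C r := by
  have h1 : g = X * divX g + Polynomial.C (g.coeff 0) := (X_mul_divX_add g).symm
  have h2 : a (f - Polynomial.C (g.coeff 0)) = u * (divX g).eval₂ (a.comp Polynomial.C) u := by
    rw [map_sub, hfg]
    nth_rewrite 1 [h1]
    simp only [eval₂_add, eval₂_mul, eval₂_X, Polynomial.eval₂_C, RingHom.comp_apply]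
    ring
  obtain ⟨h4, h5⟩ := h.eq_zero h2
  refine ⟨g.coeff 0, sub_eq_zero.1 h4, ?_⟩
  nth_rewrite 1 [h1]
  rw [h5, mul_zero, zero_add]

end

end Fdim
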