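import Pool.Agent.Work.MP_f714fc_ag.Coh.Cover
import Pool.Agent.Work.MP_f714fc_ag.Coh.Unit
import Pool.Agent.Work.MP_f714fc_ag.Tw.TwFun

/-!
# The line bundle of a cocycle: sections as families of functions
-/

open CategoryTheory Limits TopologicalSpace AlgebraicGeometry Opposite

attribute [-instance] CategoryTheory.catToReflQuiver

universe w u

namespace Fdim

variable {X : Scheme.{u}} {ι : Type u} {U : ι → X.Opens}

/-- the line bundle of a cocycle -/
noncomputable abbrev LB (g : Coc U) : X.Modules := (Coc.tw g).obj (Coh.OX X)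

namespace LB

variable {g : Coc U}

/-- the function of index `i` of a section -/
noncomputable def fn {V : X.Opens} (s : Γ(LB g, V)) (i : ι) {W : X.Opens} (hV : W ≤ V)
    (hi : W ≤ U i) : Γ(X, W) :=
  Coc.tev s i hV hi

@[simp] theorem rO_fn {V : X.Opens} (s : Γ(LB g, V)) (i : ι) {W W' : X.Opens}
    (hV : W ≤ V) (hi : W ≤ U i) (h : W' ≤ W) :
    rO h (fn s i hV hi) = fn s i (h.trans hV) (h.trans hi) :=
  Coc.rs_tev s i hV hi h

@[simp] theorem fn_rs {V V' : X.Opens} (h : V' ≤ V) (s : Γ(LB g, V)) (i : ι)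
    {W : X.Opens} (hV : W ≤ V') (hi : W ≤ U i) :
    fn (rs (LB g) h s) i hV hi = fn s i (hV.trans h) hi :=
  Coc.tev_rs h s i hV hi

theorem fn_eq {V : X.Opens} (s : Γ(LB g, V)) (i j : ι) {W : X.Opens} (hV : W ≤ V)
    (hi : W ≤ U i) (hj : W ≤ U j) : fn s i hV hi = g.v i j hi hj * fn s j hV hj :=
  Coc.tev_eq s i j hV hi hj

@[simp] theorem fn_add {V : X.Opens} (s t : Γ(LB g, V)) (i : ι) {W : X.Opens}
    (hV : W ≤ V) (hi : W ≤ U i) : fn (s + t) i hV hi = fn s i hV hi + fn t i hV hi :=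
  Coc.tev_add s t i hV hi

@[simp] theorem fn_zero {V : X.Opens} (i : ι) {W : X.Opens}
    (hV : W ≤ V) (hi : W ≤ U i) : fn (0 : Γ(LB g, V)) i hV hi = 0 :=
  Coc.tev_zero i hV hi

@[simp] theorem fn_neg {V : X.Opens} (s : Γ(LB g, V)) (i : ι) {W : X.Opens}
    (hV : W ≤ V) (hi : W ≤ U i) : fn (-s) i hV hi = - fn s i hV hi :=
  Coc.tev_neg s i hV hi

@[simp] theorem fn_sub {V : X.Opens} (s t : Γ(LB g, V)) (i : ι) {W : X.Opens}
    (hV : W ≤ V) (hi : W ≤ U i) : fn (s - t) i hV hi = fn s i hV hi - fn t i hV hi := by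
  rw [sub_eq_add_neg, fn_add, fn_neg, sub_eq_add_neg]

@[simp] theorem fn_smul {V : X.Opens} (r : Γ(X, V)) (s : Γ(LB g, V)) (i : ι)
    {W : X.Opens} (hV : W ≤ V) (hi : W ≤ U i) :
    fn (r • s) i hV hi = rO hV r * fn s i hV hi :=
  Coc.tev_smul r s i hV hi

/-- sections agree if their functions agree on a cover by open sets inside of the charts -/
theorem fn_ext {V : X.Opens} {s t : Γ(LB g, V)} {κ : Type*} {W : κ → X.Opens}
    (hW : ∀ k, W k ≤ V) (hV : V ≤ ⨆ k, W k) (i : κ → ι) (hi : ∀ k, W k ≤ U (i k))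
    (h : ∀ k, fn s (i k) (hW k) (hi k) = fn t (i k) (hW k) (hi k)) : s = t := by
  apply sec_ext (LB g) hW hV
  intro k
  apply Coc.text
  intro j
  change fn _ j _ _ = fn _ j _ _
  rw [fn_rs, fn_rs, fn_eq s j (i k) _ _ (inf_le_left.trans (hi k)),
    fn_eq t j (i k) _ _ (inf_le_left.trans (hi k)), ← rO_fn s (i k) (hW k) (hi k) inf_le_left,
    ← rO_fn t (i k) (hW k) (hi k) inf_le_left, h]

/-- sections over an open set inside of a chart -/
theorem fn_ext' {V : X.Opens} {s t : Γ(LB g, V)} (i : ι) (hi : V ≤ U i)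
    (h : fn s i le_rfl hi = fn t i le_rfl hi) : s = t :=
  fn_ext (W := fun _ : Unit => V) (fun _ => le_rfl) (le_iSup (fun _ : Unit => V) ())
    (fun _ => i) (fun _ => hi) (fun _ => h)

/-- the section over an open set inside of a chart given by a function -/
noncomputable def mkfn (g : Coc U) {V : X.Opens} (i : ι) (hi : V ≤ U i) (a : Γ(X, V)) :
    Γ(LB g, V) :=
  Coc.tmk (g := g) (M := Coh.OX X)
    (fun j => Coh.toOX (g.v j i inf_le_right (inf_le_left.trans hi) * rO inf_le_left a)) (by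
      intro j k W hV hj hk
      have h1 : (rO (le_inf hV hj) (g.v j i inf_le_right (inf_le_left.trans hi) *
          rO inf_le_left a) : Γ(X, W)) = g.v j k hj hk *
          rO (le_inf hV hk) (g.v k i inf_le_right (inf_le_left.trans hi) * rO inf_le_left a) := by
        rw [map_mul, map_mul, rO_rO, rO_rO, Coc.rO_v, Coc.rO_v, ← mul_assoc, Coc.v_v]
      exact h1)

@[simp] theorem fn_mkfn {V : X.Opens} (i : ι) (hi : V ≤ U i) (a : Γ(X, V)) (j : ι) {W : X.Opens}
    (hV : W ≤ V) (hj : W ≤ U j) :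
    fn (mkfn g i hi a) j hV hj = g.v j i hj (hV.trans hi) * rO hV a := by
  rw [fn, mkfn, Coc.tev_tmk, Coh.rs_toOX]
  change rO _ _ = _
  rw [map_mul, rO_rO, Coc.rO_v]

/-- gluing of functions to a section -/
theorem exists_fn {V : X.Opens} {κ : Type u} {W : κ → X.Opens}
    (hW : ∀ k, W k ≤ V) (hV : V ≤ ⨆ k, W k) (i : κ → ι) (hi : ∀ k, W k ≤ U (i k))
    (a : ∀ k, Γ(X, W k))
    (h : ∀ k l, rO (inf_le_left : W k ⊓ W l ≤ W k) (a k) =
      g.v (i k) (i l) (inf_le_left.trans (hi k)) (inf_le_right.trans (hi l)) *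
        rO (inf_le_right : W k ⊓ W l ≤ W l) (a l)) :
    ∃ s : Γ(LB g, V), ∀ k, fn s (i k) (hW k) (hi k) = a k := by
  obtain ⟨s, hs⟩ := exists_glue (LB g) hW hV (fun k => mkfn g (i k) (hi k) (a k)) (by
    intro k l
    apply fn_ext' (i k) (inf_le_left.trans (hi k))
    rw [fn_rs, fn_rs, fn_mkfn, fn_mkfn, Coc.v_self, one_mul]
    exact h k l)
  refine ⟨s, fun k => ?_⟩
  have h1 := congrArg (fun x => fn x (i k) le_rfl (hi k)) (hs k)
  simp only [fn_rs, fn_mkfn, Coc.v_self, one_mul, rO_self] at h1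
  exact h1

/-- gluing of two functions to a section -/
theorem exists_fn2 {P Q : X.Opens} (i j : ι) (hi : P ≤ U i) (hj : Q ≤ U j) (a : Γ(X, P))
    (b : Γ(X, Q)) (h : rO inf_le_left a =
      g.v i j (inf_le_left.trans hi) (inf_le_right.trans hj) * rO inf_le_right b) :
    ∃ s : Γ(LB g, P ⊔ Q), fn s i le_sup_left hi = a ∧ fn s j le_sup_right hj = b := by
  obtain ⟨s, hs⟩ := exists_glue (LB g) (ι := Bool) (V := P ⊔ Q)
    (U := fun k => if k then P else Q)
    (fun k => by
      cases k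
      · exact le_sup_right
      · exact le_sup_left)
    (sup_le (le_iSup (fun k : Bool => if k then P else Q) true)
      (le_iSup (fun k : Bool => if k then P else Q) false))
    (fun k => match k with
      | true => mkfn g i hi a
      | false => mkfn g j hj b)
    (fun k l => by
      cases k <;> cases l
      · rfl
      · apply fn_ext' i (inf_le_right.trans hi)
        change fn (rs _ (inf_le_left : Q ⊓ P ≤ Q) _) _ _ _ =
          fn (rs _ (inf_le_right : Q ⊓ P ≤ P) _) _ _ _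
        rw [fn_rs, fn_rs, fn_mkfn, fn_mkfn, Coc.v_self, one_mul]
        have h1 := congrArg (rO (le_inf inf_le_right inf_le_left : Q ⊓ P ≤ P ⊓ Q)) h
        rw [map_mul, rO_rO, rO_rO, Coc.rO_v] at h1
        exact h1.symm
      · apply fn_ext' i (inf_le_left.trans hi)
        change fn (rs _ (inf_le_left : P ⊓ Q ≤ P) _) _ _ _ =
          fn (rs _ (inf_le_right : P ⊓ Q ≤ Q) _) _ _ _
        rw [fn_rs, fn_rs, fn_mkfn, fn_mkfn, Coc.v_self, one_mul]
        exact h
      · rfl)
  refine ⟨s, ?_, ?_⟩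
  · have h1 := congrArg (fun x => fn x i le_rfl hi) (hs true)
    change fn (rs _ (le_sup_left : P ≤ P ⊔ Q) s) i le_rfl hi = fn (mkfn g i hi a) i le_rfl hi at h1
    rwa [fn_rs, fn_mkfn, Coc.v_self, one_mul, rO_self] at h1
  · have h1 := congrArg (fun x => fn x j le_rfl hj) (hs false)
    change fn (rs _ (le_sup_right : Q ≤ P ⊔ Q) s) j le_rfl hj = fn (mkfn g j hj b) j le_rfl hj at h1
    rwa [fn_rs, fn_mkfn, Coc.v_self, one_mul, rO_self] at h1

section

variable [HasExt.{w} X.Modules]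

open Coh

/-- the first cohomology of a union of two open sets inside of charts -/
theorem hvan_one {P Q : X.Opens} (hP : HVan P (LB g) 1) (hQ : HVan Q (LB g) 1) (i j : ι)
    (hi : P ≤ U i) (hj : Q ≤ U j)
    (h : ∀ s : Γ(X, P ⊓ Q), ∃ (a : Γ(X, P)) (b : Γ(X, Q)), s = rO inf_le_left a +
      g.v i j (inf_le_left.trans hi) (inf_le_right.trans hj) * rO inf_le_right b) :
    HVan (P ⊔ Q) (LB g) 1 := by
  refine HVan.one hP hQ (fun s => ?_)
  obtain ⟨a, b, hab⟩ := h (fn s i le_rfl (inf_le_left.trans hi))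
  refine ⟨mkfn g i hi a, mkfn g j hj (-b), ?_⟩
  apply fn_ext' i (inf_le_left.trans hi)
  rw [fn_sub, fn_rs, fn_rs, fn_mkfn, fn_mkfn, hab, Coc.v_self, map_neg]
  ring

/-- vanishing of the sections over a union of two open sets inside of charts -/
theorem hvan_zero {P Q : X.Opens} (i j : ι) (hi : P ≤ U i) (hj : Q ≤ U j)
    (h : ∀ (a : Γ(X, P)) (b : Γ(X, Q)), rO inf_le_left a =
      g.v i j (inf_le_left.trans hi) (inf_le_right.trans hj) * rO inf_le_right b →
      a = 0 ∧ b = 0) :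
    HVan (P ⊔ Q) (LB g) 0 := by
  intro α
  apply (secEquiv _ _).injective
  rw [secEquiv_zero]
  set s := secEquiv _ _ α with hs
  have h1 := h (fn s i le_sup_left hi) (fn s j le_sup_right hj) (by
    rw [rO_fn, rO_fn]
    exact fn_eq s i j _ _ _)
  refine fn_ext (W := fun k : Bool => if k then P else Q) (by
    intro k
    cases k
    · exact le_sup_right
    · exact le_sup_left) (by
    refine sup_le ?_ ?_
    · exact le_iSup (fun k : Bool => if k then P else Q) true
    · exact le_iSup (fun k : Bool => if k then P else Q) false)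
    (fun k => if k then i else j) (by
    intro k
    cases k
    · exact hj
    · exact hi) ?_
  intro k
  cases k
  · simp only [fn_zero]
    exact h1.2
  · simp only [fn_zero]
    exact h1.1

end

end LB

end Fdim
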