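import Pool.Agent.Work.MP_f714fc_ag.Geo.LaurentSplit
import Pool.Agent.Work.MP_f714fc_ag.Tw.Sec

/-!
# Two affine charts which form a projective line over a ring
-/

open CategoryTheory Limits TopologicalSpace AlgebraicGeometry Opposite Polynomial

attribute [-instance] CategoryTheory.catToReflQuiver

universe u v

namespace Fdim

variable {X : Scheme.{u}}

/-- sections over a basic open subset of an affine open subset -/
theorem bo_exists {U W : X.Opens} (hU : IsAffineOpen U) (f : Γ(X, U)) (hW : W = X.basicOpen f)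
    (hWU : W ≤ U) (s : Γ(X, W)) : ∃ (n : ℕ) (a : Γ(X, U)), rO hWU f ^ n * s = rO hWU a := by
  let : Algebra Γ(X, U) Γ(X, W) := (X.presheaf.map (homOfLE hWU).op).hom.toAlgebra
  have h : IsLocalization.Away f Γ(X, W) :=
    hU.isLocalization_of_eq_basicOpen f (homOfLE hWU) hW
  obtain ⟨⟨a, ⟨_, n, rfl⟩⟩, ha⟩ := IsLocalization.surj (Submonoid.powers f) s
  refine ⟨n, a, ?_⟩
  rw [mul_comm, ← map_pow]
  exact ha

/-- a section which vanishes on a basic open subset of an affine open subset -/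
theorem bo_unique {U W : X.Opens} (hU : IsAffineOpen U) (f : Γ(X, U)) (hW : W = X.basicOpen f)
    (hWU : W ≤ U) (a : Γ(X, U)) (ha : rO hWU a = 0) : ∃ n : ℕ, f ^ n * a = 0 := by
  let : Algebra Γ(X, U) Γ(X, W) := (X.presheaf.map (homOfLE hWU).op).hom.toAlgebra
  have h : IsLocalization.Away f Γ(X, W) :=
    hU.isLocalization_of_eq_basicOpen f (homOfLE hWU) hW
  have h1 : algebraMap Γ(X, U) Γ(X, W) a = algebraMap Γ(X, U) Γ(X, W) 0 := by
    rw [map_zero]
    exact ha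
  obtain ⟨⟨_, n, rfl⟩, hn⟩ := IsLocalization.exists_of_eq (M := Submonoid.powers f) h1
  exact ⟨n, by simpa using hn⟩

/-- the function is invertible on its basic open subset -/
theorem bo_isUnit {U W : X.Opens} (f : Γ(X, U)) (hW : W = X.basicOpen f)
    (hWU : W ≤ U) : IsUnit (rO hWU f) := by
  subst hW
  exact RingedSpace.isUnit_res_basicOpen _ f

/-- `U`, `V` form the projective line over `R`: `U = Spec R[y]`, `V = Spec R[1/y]` -/
structure LinePair (R : Type v) [CommRing R] (U V : X.Opens) where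
  /-- the first chart -/
  α : R[X] →+* Γ(X, U)
  /-- the second chart -/
  β : R[X] →+* Γ(X, V)
  hα : Function.Bijective α
  hβ : Function.Bijective β
  aff : IsAffineOpen U
  aff' : IsAffineOpen V
  bo : U ⊓ V = X.basicOpen (α Polynomial.X)
  uv : rO (inf_le_left : U ⊓ V ≤ U) (α Polynomial.X) *
    rO (inf_le_right : U ⊓ V ≤ V) (β Polynomial.X) = 1
  const : ∀ r, rO (inf_le_left : U ⊓ V ≤ U) (α (C r)) = rO (inf_le_right : U ⊓ V ≤ V) (β (C r))

namespace LinePair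

variable {R : Type v} [CommRing R] {U V : X.Opens} (L : LinePair R U V)

include L in
theorem laurent : IsLaurent ((rO (inf_le_left : U ⊓ V ≤ U)).comp L.α)
    (rO (inf_le_right : U ⊓ V ≤ V) (L.β Polynomial.X)) where
  unit := L.uv
  inj := by
    rw [injective_iff_map_eq_zero]
    intro f hf
    obtain ⟨n, hn⟩ := bo_unique L.aff _ L.bo inf_le_left (L.α f) hf
    rw [← map_pow, ← map_mul] at hn
    have h1 : Polynomial.X ^ n * f = 0 := L.hα.injective (by rw [hn, map_zero])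
    have h2 : (Polynomial.X ^ n : R[X]) ∈ nonZeroDivisors R[X] :=
      pow_mem (Polynomial.X_mem_nonzeroDivisors) n
    exact (mul_left_mem_nonZeroDivisors_eq_zero_iff h2).1 h1

theorem eval₂_eq (g : R[X]) :
    g.eval₂ (((rO (inf_le_left : U ⊓ V ≤ U)).comp L.α).comp C)
      (rO (inf_le_right : U ⊓ V ≤ V) (L.β Polynomial.X)) =
    rO (inf_le_right : U ⊓ V ≤ V) (L.β g) := by
  have h : (eval₂RingHom (((rO (inf_le_left : U ⊓ V ≤ U)).comp L.α).comp C)
      (rO (inf_le_right : U ⊓ V ≤ V) (L.β Polynomial.X))) =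
      (rO (inf_le_right : U ⊓ V ≤ V)).comp L.β := by
    apply Polynomial.ringHom_ext
    · intro r
      simp only [coe_eval₂RingHom, eval₂_C, RingHom.comp_apply]
      exact L.const r
    · simp only [coe_eval₂RingHom, eval₂_X, RingHom.comp_apply]
  exact congr($h g)

/-- `H¹(P¹, O(-1)) = 0` -/
theorem split (s : Γ(X, U ⊓ V)) : ∃ (a : Γ(X, U)) (b : Γ(X, V)),
    s = rO inf_le_left a + rO inf_le_right (L.β Polynomial.X) * rO inf_le_right b := by
  obtain ⟨n, a, ha⟩ := bo_exists L.aff _ L.bo inf_le_left s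
  obtain ⟨f, rfl⟩ := L.hα.surjective a
  obtain ⟨f', g', hs⟩ := L.laurent.split (s := s) ⟨n, f, ha⟩
  refine ⟨L.α f', L.β g', ?_⟩
  rw [hs, L.eval₂_eq]
  rfl

/-- `H⁰(P¹, O(-1)) = 0` -/
theorem eq_zero {a : Γ(X, U)} {b : Γ(X, V)}
    (h : rO (inf_le_left : U ⊓ V ≤ U) a =
      rO (inf_le_right : U ⊓ V ≤ V) (L.β Polynomial.X) * rO inf_le_right b) : a = 0 ∧ b = 0 := by
  obtain ⟨f, rfl⟩ := L.hα.surjective a
  obtain ⟨g, rfl⟩ := L.hβ.surjective b
  have h1 : ((rO (inf_le_left : U ⊓ V ≤ U)).comp L.α) f =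
    (rO (inf_le_right : U ⊓ V ≤ V) (L.β Polynomial.X)) *
      g.eval₂ (((rO (inf_le_left : U ⊓ V ≤ U)).comp L.α).comp C)
      (rO (inf_le_right : U ⊓ V ≤ V) (L.β Polynomial.X)) := by
    rw [L.eval₂_eq]
    exact h
  obtain ⟨h2, h3⟩ := L.laurent.eq_zero h1
  rw [h2, h3, map_zero, map_zero]
  exact ⟨rfl, rfl⟩

/-- `H⁰(P¹, O) = R` -/
theorem eq_const {a : Γ(X, U)} {b : Γ(X, V)}
    (h : rO (inf_le_left : U ⊓ V ≤ U) a = rO (inf_le_right : U ⊓ V ≤ V) b) :
    ∃ r : R, a = L.α (C r) ∧ b = L.β (C r) := by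
  obtain ⟨f, rfl⟩ := L.hα.surjective a
  obtain ⟨g, rfl⟩ := L.hβ.surjective b
  have h1 : ((rO (inf_le_left : U ⊓ V ≤ U)).comp L.α) f =
      g.eval₂ (((rO (inf_le_left : U ⊓ V ≤ U)).comp L.α).comp C)
      (rO (inf_le_right : U ⊓ V ≤ V) (L.β Polynomial.X)) := by
    rw [L.eval₂_eq]
    exact h
  obtain ⟨r, h2, h3⟩ := L.laurent.const h1
  exact ⟨r, by rw [h2], by rw [h3]⟩

include L in
/-- `H¹(P¹, O) = 0` -/
theorem split' (s : Γ(X, U ⊓ V)) : ∃ (a : Γ(X, U)) (b : Γ(X, V)),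
    s = rO inf_le_left a + rO inf_le_right b := by
  obtain ⟨a, b, h⟩ := L.split s
  exact ⟨a, L.β Polynomial.X * b, by rw [h, map_mul]⟩

/-! ### the restriction to an open subset `D(t)` of the base -/

section Loc

variable (t : R) {U' V' : X.Opens} (hU' : U' = X.basicOpen (L.α (C t)))
  (hV' : V' = X.basicOpen (L.β (C t))) (hU : U' ≤ U) (hV : V' ≤ V)

include hU' hV' in
theorem inf_eq : U' ⊓ V' = X.basicOpen (rO (inf_le_left : U ⊓ V ≤ U) (L.α (C t))) := by
  have h1 : X.basicOpen (rO (inf_le_left : U ⊓ V ≤ U) (L.α (C t))) = U ⊓ V ⊓ U' := by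
    rw [hU']
    exact X.basicOpen_res _ _
  have h2 : X.basicOpen (rO (inf_le_right : U ⊓ V ≤ V) (L.β (C t))) = U ⊓ V ⊓ V' := by
    rw [hV']
    exact X.basicOpen_res _ _
  have hUU : U' ≤ U := hU' ▸ X.basicOpen_le _
  have hVV : V' ≤ V := hV' ▸ X.basicOpen_le _
  rw [← L.const] at h2
  apply le_antisymm
  · rw [h1]
    exact le_inf (inf_le_inf hUU hVV) inf_le_left
  · refine le_inf ?_ ?_
    · rw [h1]
      exact inf_le_right
    · rw [h2]
      exact inf_le_right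

include L in
theorem inf_affine : IsAffineOpen (U ⊓ V) := by
  rw [L.bo]
  exact L.aff.basicOpen _

include hU' hV' hU in
/-- `H¹(P¹, O(-1)) = 0` over `D(t)` -/
theorem split_loc (s : Γ(X, U' ⊓ V')) : ∃ (a : Γ(X, U')) (b : Γ(X, V')),
    s = rO inf_le_left a + rO (inf_le_right.trans hV) (L.β Polynomial.X) * rO inf_le_right b := by
  have hle : U' ⊓ V' ≤ U ⊓ V := inf_le_inf hU hV
  obtain ⟨n, s', hs⟩ := bo_exists L.inf_affine _ (L.inf_eq t hU' hV') hle s
  obtain ⟨a', b', rfl⟩ := L.split s'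
  obtain ⟨ua, hua⟩ := bo_isUnit _ hU' hU
  obtain ⟨ub, hub⟩ := bo_isUnit _ hV' hV
  refine ⟨↑(ua⁻¹ ^ n) * rO hU a', ↑(ub⁻¹ ^ n) * rO hV b', ?_⟩
  have hu1 : rO (inf_le_left : U' ⊓ V' ≤ U') (ua : Γ(X, U')) = rO (hle.trans inf_le_left) (L.α (C t)) := by
    rw [hua, rO_rO]
  have hu2 : rO (inf_le_right : U' ⊓ V' ≤ V') (ub : Γ(X, V')) = rO (hle.trans inf_le_left) (L.α (C t)) := by
    rw [hub, rO_rO]
    have := congrArg (rO hle) (L.const t)
    rw [rO_rO, rO_rO] at this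
    exact this.symm
  have hτ : IsUnit (rO (hle.trans inf_le_left) (L.α (C t)) : Γ(X, U' ⊓ V')) := by
    rw [← hu1]
    exact ua.isUnit.map _
  rw [rO_rO] at hs
  apply (hτ.pow n).mul_left_cancel
  rw [hs, mul_add, map_add, map_mul, map_mul, map_mul, rO_rO, rO_rO, rO_rO, rO_rO, rO_rO]
  have h1 : rO (hle.trans inf_le_left) (L.α (C t)) ^ n *
      rO (inf_le_left : U' ⊓ V' ≤ U') (↑(ua⁻¹ ^ n) : Γ(X, U')) = 1 := by
    rw [← hu1, ← map_pow, ← map_mul, ← Units.val_pow_eq_pow_val, ← Units.val_mul, ← mul_pow,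
      mul_inv_cancel, one_pow, Units.val_one, map_one]
  have h2 : rO (hle.trans inf_le_left) (L.α (C t)) ^ n *
      rO (inf_le_right : U' ⊓ V' ≤ V') (↑(ub⁻¹ ^ n) : Γ(X, V')) = 1 := by
    rw [← hu2, ← map_pow, ← map_mul, ← Units.val_pow_eq_pow_val, ← Units.val_mul, ← mul_pow,
      mul_inv_cancel, one_pow, Units.val_one, map_one]
  rw [← mul_assoc, h1, one_mul, mul_left_comm, ← mul_assoc (rO _ (L.α (C t)) ^ n), h2, one_mul]

include hU' hV' hU in
/-- `H⁰(P¹, O(-1)) = 0` over `D(t)` -/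
theorem eq_zero_loc {a : Γ(X, U')} {b : Γ(X, V')}
    (h : rO (inf_le_left : U' ⊓ V' ≤ U') a =
      rO (inf_le_right.trans hV : U' ⊓ V' ≤ V) (L.β Polynomial.X) * rO inf_le_right b) :
    a = 0 ∧ b = 0 := by
  have hle : U' ⊓ V' ≤ U ⊓ V := inf_le_inf hU hV
  obtain ⟨n, a', ha⟩ := bo_exists L.aff _ hU' hU a
  obtain ⟨m, b', hb⟩ := bo_exists L.aff' _ hV' hV b
  have hc : rO (hle.trans inf_le_right) (L.β (C t)) = rO (hle.trans inf_le_left) (L.α (C t)) := by
    have := congrArg (rO hle) (L.const t)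
    rw [rO_rO, rO_rO] at this
    exact this.symm
  have ha1 := congrArg (rO (inf_le_left : U' ⊓ V' ≤ U')) ha
  have hb1 := congrArg (rO (inf_le_right : U' ⊓ V' ≤ V')) hb
  rw [map_mul, map_pow, rO_rO, rO_rO] at ha1 hb1
  rw [hc] at hb1
  have h1 : rO hle (rO inf_le_left (L.α (C t) ^ m * a') -
      rO inf_le_right (L.β Polynomial.X) * rO inf_le_right (L.β (C t) ^ n * b')) = 0 := by
    simp only [map_sub, map_mul, map_pow, rO_rO]
    rw [← ha1, ← hb1, hc, h]
    ring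
  obtain ⟨N, hN⟩ := bo_unique L.inf_affine _ (L.inf_eq t hU' hV') hle _ h1
  have h2 : rO (inf_le_left : U ⊓ V ≤ U) (L.α (C t) ^ N * (L.α (C t) ^ m * a')) =
      rO (inf_le_right : U ⊓ V ≤ V) (L.β Polynomial.X) *
        rO (inf_le_right : U ⊓ V ≤ V) (L.β (C t) ^ N * (L.β (C t) ^ n * b')) := by
    have h3 := L.const t
    simp only [map_mul, map_pow] at hN ⊢
    rw [← h3] at hN ⊢
    linear_combination hN
  obtain ⟨h4, h5⟩ := L.eq_zero h2
  have e1 := congrArg (rO hU) h4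
  have e2 := congrArg (rO hV) h5
  simp only [map_mul, map_pow, map_zero] at e1 e2
  have u1 := bo_isUnit _ hU' hU
  have u2 := bo_isUnit _ hV' hV
  rw [← ha] at e1
  rw [← hb] at e2
  rw [(u1.pow N).mul_right_eq_zero, (u1.pow m).mul_right_eq_zero,
    (u1.pow n).mul_right_eq_zero] at e1
  rw [(u2.pow N).mul_right_eq_zero, (u2.pow n).mul_right_eq_zero,
    (u2.pow m).mul_right_eq_zero] at e2
  exact ⟨e1, e2⟩

include hU' hV' in
/-- `H⁰(P¹, O) = R_t` over `D(t)` -/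
theorem eq_const_loc {a : Γ(X, U')} {b : Γ(X, V')}
    (h : rO (inf_le_left : U' ⊓ V' ≤ U') a = rO (inf_le_right : U' ⊓ V' ≤ V') b) :
    ∃ (n : ℕ) (r : R), rO hU (L.α (C t)) ^ n * a = rO hU (L.α (C r)) ∧
      rO hV (L.β (C t)) ^ n * b = rO hV (L.β (C r)) := by
  have hle : U' ⊓ V' ≤ U ⊓ V := inf_le_inf hU hV
  obtain ⟨n, a', ha⟩ := bo_exists L.aff _ hU' hU a
  obtain ⟨m, b', hb⟩ := bo_exists L.aff' _ hV' hV b
  have hc : rO (hle.trans inf_le_right) (L.β (C t)) = rO (hle.trans inf_le_left) (L.α (C t)) := by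
    have := congrArg (rO hle) (L.const t)
    rw [rO_rO, rO_rO] at this
    exact this.symm
  have ha1 := congrArg (rO (inf_le_left : U' ⊓ V' ≤ U')) ha
  have hb1 := congrArg (rO (inf_le_right : U' ⊓ V' ≤ V')) hb
  rw [map_mul, map_pow, rO_rO, rO_rO] at ha1 hb1
  rw [hc] at hb1
  have h1 : rO hle (rO inf_le_left (L.α (C t) ^ m * a') -
      rO inf_le_right (L.β (C t) ^ n * b')) = 0 := by
    simp only [map_sub, map_mul, map_pow, rO_rO]
    rw [← ha1, ← hb1, hc, h]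
    ring
  obtain ⟨N, hN⟩ := bo_unique L.inf_affine _ (L.inf_eq t hU' hV') hle _ h1
  have h2 : rO (inf_le_left : U ⊓ V ≤ U) (L.α (C t) ^ N * (L.α (C t) ^ m * a')) =
        rO (inf_le_right : U ⊓ V ≤ V) (L.β (C t) ^ N * (L.β (C t) ^ n * b')) := by
    have h3 := L.const t
    simp only [map_mul, map_pow] at hN ⊢
    rw [← h3] at hN ⊢
    linear_combination hN
  obtain ⟨r, h4, h5⟩ := L.eq_const h2
  refine ⟨N + m + n, r, ?_, ?_⟩
  · have e1 := congrArg (rO hU) h4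
    simp only [map_mul, map_pow] at e1
    rw [← ha] at e1
    rw [← e1]
    ring
  · have e2 := congrArg (rO hV) h5
    simp only [map_mul, map_pow] at e2
    rw [← hb] at e2
    rw [← e2]
    ring

end Loc

end LinePair

end Fdim
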