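import Pool.Agent.Work.MP_f714fc_ag.Tw.Sec

/-!
# Quasi-coherent sheaves on a scheme: locality, kernels, cokernels, exactness of sections on
affine open subsets
-/

open CategoryTheory Limits TopologicalSpace AlgebraicGeometry Opposite

universe u

namespace Fdim

noncomputable section

variable {X Y : Scheme.{u}}

/-! ## Sections over an open subset as a functor to modules -/

/-- sections over an open subset, as a functor to modules -/
def secF (U : X.Opens) : X.Modules ⥤ ModuleCat.{u} Γ(X, U) :=
  Scheme.Modules.toPresheafOfModules X ⋙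
    PresheafOfModules.evaluation X.ringCatSheaf.obj (op U)

instance (U : X.Opens) : PreservesLimits (secF U) :=
  inferInstanceAs (PreservesLimits (Scheme.Modules.toPresheafOfModules X ⋙
    PresheafOfModules.evaluation X.ringCatSheaf.obj (op U)))

instance (U : X.Opens) : (secF U).Additive where
  map_add := rfl

theorem secF_obj (U : X.Opens) (M : X.Modules) :
    (secF U).obj M = ModuleCat.of Γ(X, U) Γ(M, U) := rfl

theorem secF_map_apply (U : X.Opens) {M N : X.Modules} (φ : M ⟶ N) (s : Γ(M, U)) :
    ((secF U).map φ).hom s = ap φ U s := rfl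

/-! ## Locality -/

set_option backward.isDefEq.respectTransparency false in
/-- presentation of the restriction to the slice from a presentation of the restriction -/
def overPresentation (U : X.Opens) (M : X.Modules) (P : (M.restrict U.ι).Presentation) :
    (SheafOfModules.over M U).Presentation := by
  let F := (Scheme.Modules.overEquiv U).inverse
  let P' := P.map F
    (TopologicalSpace.Opens.sheafOfModulesEquivOverInverseUnit U X.ringCatSheaf).symm
  exact P'.ofIsIso (F.map ((Scheme.Modules.overFunctorEquiv U).inv.app M) ≫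
    ((Scheme.Modules.overEquiv U).unitIso.inv.app (SheafOfModules.over M U)))

set_option backward.isDefEq.respectTransparency false in
/-- a quasi-coherent sheaf on a spectrum has a presentation -/
def specPresentation {R : CommRingCat.{u}} (M : (Spec R).Modules) [M.IsQuasicoherent] :
    M.Presentation :=
  haveI : IsIso M.fromTildeΓ := Scheme.Modules.isIso_fromTildeΓ_of_isQuasicoherent M
  SheafOfModules.Presentation.ofIsIso M.fromTildeΓ
    (presentationTilde.{u} _ .univ (by simp) _ (Submodule.span_eq _))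

set_option backward.isDefEq.respectTransparency false in
/-- a quasi-coherent sheaf has presentations on affine open subsets -/
def affinePresentation (M : X.Modules) {U : X.Opens} (hU : IsAffineOpen U)
    [(M.restrict hU.fromSpec).IsQuasicoherent] : (M.restrict U.ι).Presentation :=
  SheafOfModules.Presentation.ofIsIso.{u, u, u}
    (((Scheme.Modules.restrictFunctorComp hU.isoSpec.hom hU.fromSpec).symm ≪≫
      Scheme.Modules.restrictFunctorCongr hU.isoSpec_hom_fromSpec).app M).hom
    (Scheme.Modules.presentationRestrict hU.isoSpec.hom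
      (specPresentation (M.restrict hU.fromSpec)))

set_option backward.isDefEq.respectTransparency false in
/-- quasi-coherence may be checked on affine open subsets around every point -/
theorem isQuasicoherent_of_affine (M : X.Modules)
    (h : ∀ x : X, ∃ (U : X.Opens) (_ : x ∈ U) (hU : IsAffineOpen U),
      (M.restrict hU.fromSpec).IsQuasicoherent) : M.IsQuasicoherent := by
  choose U hx hU hM using h
  let q : SheafOfModules.QuasicoherentData.{u} (R := X.ringCatSheaf) M :=
    { I := X
      X := U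
      coversTop := by
        rw [Opens.coversTop_iff]
        rw [IsOpenCover]
        rw [eq_top_iff]
        intro x _
        exact Opens.mem_iSup.2 ⟨x, hx x⟩
      presentation := fun i => overPresentation (U i) M (affinePresentation M (hU i)) }
  exact q.isQuasicoherent

/-! ## Scalars on the restriction to an affine open subset -/

theorem image_fromSpec_le {U : X.Opens} (hU : IsAffineOpen U) (V : (Spec Γ(X, U)).Opens) :
    hU.fromSpec ''ᵁ V ≤ U := by
  have := hU.fromSpec.image_le_opensRange V
  rwa [hU.opensRange_fromSpec] at this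

theorem image_fromSpec_top {U : X.Opens} (hU : IsAffineOpen U) :
    hU.fromSpec ''ᵁ ⊤ = U := by
  rw [Scheme.Hom.image_top_eq_opensRange, hU.opensRange_fromSpec]

theorem appIso_inv_fromSpec {U : X.Opens} (hU : IsAffineOpen U) (V : (Spec Γ(X, U)).Opens)
    (r : Γ(X, U)) :
    (hU.fromSpec.appIso V).inv
      ((Spec Γ(X, U)).presheaf.map V.leTop.op ((Scheme.ΓSpecIso Γ(X, U)).inv r))
      = rO (image_fromSpec_le hU V) r := by
  have h := hU.fromSpec_app_self
  have h2 := hU.fromSpec.app_appIso_inv U
  have h3 : (Scheme.ΓSpecIso Γ(X, U)).inv ≫ (Spec Γ(X, U)).presheaf.map V.leTop.op ≫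
      (hU.fromSpec.appIso V).inv = X.presheaf.map (homOfLE (image_fromSpec_le hU V)).op := by
    have h4 : (Scheme.ΓSpecIso Γ(X, U)).inv = hU.fromSpec.app U ≫
      (Spec Γ(X, U)).presheaf.map (eqToHom hU.fromSpec_preimage_self.symm).op := by
      rw [h, Category.assoc, ← Functor.map_comp]
      simp
    rw [h4, Category.assoc, ← Functor.map_comp_assoc, Scheme.Hom.appIso_inv_naturality,
      reassoc_of% h2]
    exact (X.presheaf.map_comp _ _).symm
  exact congr($h3 r)

theorem smul_restrict_spec {U : X.Opens} (hU : IsAffineOpen U) (M : X.Modules)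
    (V : (Spec Γ(X, U)).Opens) (r : Γ(X, U)) (x : Γ(M.restrict hU.fromSpec, V)) :
    (M.restrictAppIso hU.fromSpec V).hom (r • x)
      = rO (image_fromSpec_le hU V) r • (M.restrictAppIso hU.fromSpec V).hom x := by
  rw [← appIso_inv_fromSpec hU V r]
  rfl

/-! ## Quasi-coherence in terms of sections -/

/-- the sections of `M` over `U` localize at `f` -/
def Lcz (M : X.Modules) (U : X.Opens) (f : Γ(X, U)) : Prop :=
  (∀ s : Γ(M, X.basicOpen f), ∃ (n : ℕ) (t : Γ(M, U)),
    rs M (X.basicOpen_le f) t = rO (X.basicOpen_le f) f ^ n • s) ∧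
  (∀ t : Γ(M, U), rs M (X.basicOpen_le f) t = 0 → ∃ n : ℕ, f ^ n • t = 0)

/-- the same on the spectrum -/
def LczS (M : X.Modules) {U : X.Opens} (hU : IsAffineOpen U) (f : Γ(X, U))
    (D : (Spec Γ(X, U)).Opens) : Prop :=
  (∀ s : Γ(M, hU.fromSpec ''ᵁ D), ∃ (n : ℕ) (t : Γ(M, hU.fromSpec ''ᵁ ⊤)),
    rO (image_fromSpec_le hU D) (f ^ n) • s = rs M (hU.fromSpec.image_mono le_top) t) ∧
  (∀ t : Γ(M, hU.fromSpec ''ᵁ ⊤), rs M (hU.fromSpec.image_mono (le_top : D ≤ ⊤)) t = 0 →
    ∃ n : ℕ, rO (image_fromSpec_le hU ⊤) (f ^ n) • t = 0)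

theorem lczS_iff (M : X.Modules) {U : X.Opens} (hU : IsAffineOpen U) (f : Γ(X, U))
    (D : (Spec Γ(X, U)).Opens) (hD : hU.fromSpec ''ᵁ D = X.basicOpen f) :
    LczS M hU f D ↔ Lcz M U f := by
  have ht := image_fromSpec_top hU
  constructor
  · rintro ⟨h1, h2⟩
    constructor
    · intro s
      obtain ⟨n, t, hn⟩ := h1 (rs M hD.le s)
      refine ⟨n, rs M ht.ge t, ?_⟩
      have h3 := congrArg (rs M hD.ge) hn
      rw [rs_rs, rs_smul, rO_rO, rs_rs, rs_self, map_pow] at h3
      rw [rs_rs, ← h3]
    · intro t ht0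
      obtain ⟨n, hn⟩ := h2 (rs M ht.le t) (by
        have h3 : rs M hD.le (rs M (X.basicOpen_le f) t) = 0 := by
          rw [ht0, map_zero]
        rw [rs_rs] at h3 ⊢
        exact h3)
      refine ⟨n, ?_⟩
      have h3 := congrArg (rs M ht.ge) hn
      rw [rs_smul, rO_rO, rs_rs, rs_self, rO_self, map_zero] at h3
      exact h3
  · rintro ⟨h1, h2⟩
    constructor
    · intro s
      obtain ⟨n, t, hn⟩ := h1 (rs M hD.ge s)
      refine ⟨n, rs M ht.le t, ?_⟩
      have h3 := congrArg (rs M hD.le) hn
      rw [rs_rs, rs_smul, map_pow, rO_rO, rs_rs, rs_self] at h3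
      rw [rs_rs, h3, map_pow]
    · intro t ht0
      obtain ⟨n, hn⟩ := h2 (rs M ht.ge t) (by
        have h3 : rs M hD.ge (rs M (hU.fromSpec.image_mono (le_top : D ≤ ⊤)) t) = 0 := by
          rw [ht0, map_zero]
        rw [rs_rs] at h3 ⊢
        exact h3)
      refine ⟨n, ?_⟩
      have h3 := congrArg (rs M ht.le) hn
      rw [rs_smul, rs_rs, rs_self, map_zero] at h3
      exact h3

theorem lczS_of_isLocalizing (M : X.Modules) {U : X.Opens} (hU : IsAffineOpen U)
    (h : IsLocalizing (modulesSpecToSheaf.obj (M.restrict hU.fromSpec))) (f : Γ(X, U)) :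
    LczS M hU f (PrimeSpectrum.basicOpen f) := by
  have hloc := h f
  constructor
  · intro s
    obtain ⟨⟨t', ⟨_, n, rfl⟩⟩, hn⟩ := hloc.surj s
    refine ⟨n, t', ?_⟩
    have h2 := smul_restrict_spec hU M (PrimeSpectrum.basicOpen f) (f ^ n) s
    exact Eq.trans h2.symm hn
  · intro t ht0
    obtain ⟨⟨_, n, rfl⟩, hn⟩ := (IsLocalizedModule.eq_zero_iff (.powers f)
      ((modulesSpecToSheaf.obj (M.restrict hU.fromSpec)).obj.map
        (PrimeSpectrum.basicOpen f).leTop.op).hom).1 ht0
    refine ⟨n, ?_⟩
    have h2 := smul_restrict_spec hU M ⊤ (f ^ n) t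
    exact h2.symm.trans hn

theorem isLocalizing_of_lczS (M : X.Modules) {U : X.Opens} (hU : IsAffineOpen U)
    (h : ∀ f : Γ(X, U), LczS M hU f (PrimeSpectrum.basicOpen f)) :
    IsLocalizing (modulesSpecToSheaf.obj (M.restrict hU.fromSpec)) := by
  intro f
  refine IsLocalizedModule.Away.mk_of_addCommGroup
    (Scheme.Modules.isUnit_algebraMap_end_of_le_basicOpen f le_rfl) ?_ ?_
  · intro s
    obtain ⟨n, t, hn⟩ := (h f).1 s
    refine ⟨n, t, ?_⟩
    have h2 := smul_restrict_spec hU M (PrimeSpectrum.basicOpen f) (f ^ n) s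
    exact Eq.trans h2 hn
  · intro t ht
    obtain ⟨n, hn⟩ := (h f).2 t ht
    refine ⟨n, ?_⟩
    have h2 := smul_restrict_spec hU M ⊤ (f ^ n) t
    exact Eq.trans h2 hn

set_option backward.isDefEq.respectTransparency false in
/-- quasi-coherence on an affine open subset, in terms of sections -/
theorem isQuasicoherent_restrict_iff (M : X.Modules) {U : X.Opens} (hU : IsAffineOpen U) :
    (M.restrict hU.fromSpec).IsQuasicoherent ↔ ∀ f : Γ(X, U), Lcz M U f := by
  rw [isQuasicoherent_iff_isIso_fromTildeΓ, isIso_fromTildeΓ_iff_isLocalizing]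
  constructor
  · intro h f
    exact (lczS_iff M hU f _ (hU.fromSpec_image_basicOpen f)).1 (lczS_of_isLocalizing M hU h f)
  · intro h
    exact isLocalizing_of_lczS M hU fun f =>
      (lczS_iff M hU f _ (hU.fromSpec_image_basicOpen f)).2 (h f)

/-- **Quasi-coherence in terms of sections over affine open subsets** -/
theorem isQuasicoherent_iff_lcz (M : X.Modules) :
    M.IsQuasicoherent ↔ ∀ (U : X.Opens) (_ : IsAffineOpen U) (f : Γ(X, U)), Lcz M U f := by
  constructor
  · intro h U hU
    rw [← isQuasicoherent_restrict_iff M hU]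
    exact Scheme.Modules.isQuasicoherent_restrictFunctor hU.fromSpec M
  · intro h
    apply isQuasicoherent_of_affine
    intro x
    obtain ⟨U, hU, hx, -⟩ := Opens.isBasis_iff_nbhd.1 X.isBasis_affineOpens (Opens.mem_top x)
    exact ⟨U, hx, hU, (isQuasicoherent_restrict_iff M hU).2 (h U hU)⟩


/-! ## Kernels and extensions -/

theorem ap_injective {M N : X.Modules} (φ : M ⟶ N) [Mono φ] (U : X.Opens) :
    Function.Injective (ap φ U) := by
  have : Mono ((secF U).map φ) := inferInstance
  exact (ModuleCat.mono_iff_injective _).1 this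

theorem exists_ap_eq {S : ShortComplex X.Modules} (hS : S.Exact) [Mono S.f] (U : X.Opens)
    (s : Γ(S.X₂, U)) (h : ap S.g U s = 0) : ∃ t : Γ(S.X₁, U), ap S.f U t = s := by
  have h2 : (S.map (secF U)).Exact := hS.map_of_mono_of_preservesKernel (secF U) inferInstance inferInstance
  rw [ShortComplex.moduleCat_exact_iff] at h2
  exact h2 s h

theorem isQuasicoherent_of_mono_exact {S : ShortComplex X.Modules} (hS : S.Exact) [Mono S.f]
    (h2 : S.X₂.IsQuasicoherent) (h3 : S.X₃.IsQuasicoherent) : S.X₁.IsQuasicoherent := by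
  rw [isQuasicoherent_iff_lcz] at h2 h3 ⊢
  intro U hU f
  constructor
  · intro s
    obtain ⟨n, t, hn⟩ := (h2 U hU f).1 (ap S.f _ s)
    obtain ⟨m, hm⟩ := (h3 U hU f).2 (ap S.g U t) (by
      rw [← ap_rs, hn, ap_smul, ← ap_comp, S.zero, ap_zero, smul_zero])
    obtain ⟨t', ht'⟩ := exists_ap_eq hS U (f ^ m • t) (by rw [ap_smul, hm])
    refine ⟨m + n, t', ?_⟩
    apply ap_injective S.f
    rw [ap_rs, ht', rs_smul, hn, ap_smul, smul_smul, map_pow, pow_add]
  · intro t ht
    obtain ⟨n, hn⟩ := (h2 U hU f).2 (ap S.f U t) (by rw [← ap_rs, ht, map_zero])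
    refine ⟨n, ap_injective S.f U ?_⟩
    rw [ap_smul, hn, map_zero]

/-- extensions, with surjectivity on sections -/
theorem isQuasicoherent_of_extension {S : ShortComplex X.Modules} (hS : S.ShortExact)
    (h1 : S.X₁.IsQuasicoherent) (h3 : S.X₃.IsQuasicoherent)
    (hs : ∀ (U : X.Opens) (_ : IsAffineOpen U), Function.Surjective (ap S.g U)) :
    S.X₂.IsQuasicoherent := by
  have := hS.mono_f
  rw [isQuasicoherent_iff_lcz] at h1 h3 ⊢
  intro U hU f
  have hUf : IsAffineOpen (X.basicOpen f) := hU.basicOpen f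
  constructor
  · intro s
    obtain ⟨n, t, hn⟩ := (h3 U hU f).1 (ap S.g _ s)
    obtain ⟨t', rfl⟩ := hs U hU t
    obtain ⟨a, ha⟩ := exists_ap_eq hS.exact _ (rO (X.basicOpen_le f) f ^ n • s - rs _ (X.basicOpen_le f) t') (by
      rw [map_sub, ap_smul, ap_rs, hn, sub_self])
    obtain ⟨m, b, hb⟩ := (h1 U hU f).1 a
    refine ⟨m + n, ap S.f U b + f ^ m • t', ?_⟩
    rw [map_add, ← ap_rs, hb, ap_smul, ha, rs_smul, map_pow, smul_sub, sub_add_cancel, smul_smul,
      pow_add]
  · intro t ht
    obtain ⟨n, hn⟩ := (h3 U hU f).2 (ap S.g U t) (by rw [← ap_rs, ht, map_zero])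
    obtain ⟨a, ha⟩ := exists_ap_eq hS.exact U (f ^ n • t) (by rw [ap_smul, hn])
    obtain ⟨m, hm⟩ := (h1 U hU f).2 a (by
      apply ap_injective S.f
      rw [ap_rs, ha, rs_smul, ht, smul_zero, map_zero])
    refine ⟨m + n, ?_⟩
    rw [pow_add, mul_smul, ← ha, ← ap_smul, hm, map_zero]

theorem isQuasicoherent_of_isZero {M : X.Modules} (h : IsZero M) : M.IsQuasicoherent := by
  have h0 : ∀ (U : X.Opens) (s : Γ(M, U)), s = 0 := by
    intro U s
    have h1 : (𝟙 M : M ⟶ M) = 0 := h.eq_of_src _ _
    have h2 : ap (𝟙 M) U s = ap (0 : M ⟶ M) U s := by rw [h1]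
    exact h2
  rw [isQuasicoherent_iff_lcz]
  intro U hU f
  constructor
  · intro s
    exact ⟨0, 0, by rw [h0 _ s, map_zero, smul_zero]⟩
  · intro t _
    exact ⟨0, by rw [h0 _ t, smul_zero]⟩

theorem isQuasicoherent_of_iso {M N : X.Modules} (e : M ≅ N) (h : M.IsQuasicoherent) :
    N.IsQuasicoherent :=
  (SheafOfModules.isQuasicoherent X.ringCatSheaf).prop_of_iso e h


/-! ## Exactness of sections over affine open subsets, cokernels -/

set_option backward.isDefEq.respectTransparency false in
theorem spec_epi {R : CommRingCat.{u}} {M N : (Spec R).Modules} (hM : M.IsQuasicoherent)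
    (hN : N.IsQuasicoherent) (q : M ⟶ N) [Epi q] : Epi ((moduleSpecΓFunctor (R := R)).map q) := by
  have h1 : IsIso M.fromTildeΓ := Scheme.Modules.isIso_fromTildeΓ_of_isQuasicoherent M
  have h2 : IsIso N.fromTildeΓ := Scheme.Modules.isIso_fromTildeΓ_of_isQuasicoherent N
  have h3 := (Scheme.Modules.fromTildeΓNatTrans (R := R)).naturality q
  have h4 : (tilde.functor R).map ((moduleSpecΓFunctor (R := R)).map q) =
      (M.fromTildeΓ ≫ q) ≫ inv N.fromTildeΓ := by
    rw [IsIso.eq_comp_inv]
    exact h3
  have h5 : Epi ((tilde.functor R).map ((moduleSpecΓFunctor (R := R)).map q)) := by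
    rw [h4]
    have := epi_comp M.fromTildeΓ q
    exact epi_comp _ _
  exact (tilde.functor R).epi_of_epi_map h5

set_option backward.isDefEq.respectTransparency false in
theorem spec_cokernel {R : CommRingCat.{u}} {M N : (Spec R).Modules} (hM : M.IsQuasicoherent)
    (hN : N.IsQuasicoherent) (q : M ⟶ N) : (cokernel q).IsQuasicoherent := by
  have h1 : IsIso M.fromTildeΓ := Scheme.Modules.isIso_fromTildeΓ_of_isQuasicoherent M
  have h2 : IsIso N.fromTildeΓ := Scheme.Modules.isIso_fromTildeΓ_of_isQuasicoherent N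
  have h3 := (Scheme.Modules.fromTildeΓNatTrans (R := R)).naturality q
  let g := (moduleSpecΓFunctor (R := R)).map q
  let e : cokernel ((tilde.functor R).map g) ≅ cokernel q :=
    cokernel.mapIso _ _ (asIso M.fromTildeΓ) (asIso N.fromTildeΓ) h3
  refine isQuasicoherent_of_iso (PreservesCokernel.iso (tilde.functor R) g ≪≫ e) ?_
  exact (presentationTilde.{u} (cokernel g) .univ (by simp) _
    (Submodule.span_eq _)).isQuasicoherent

set_option backward.isDefEq.respectTransparency false in
/-- **Exactness of sections over affine open subsets** -/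
theorem ap_surjective {M N : X.Modules} (hM : M.IsQuasicoherent) (hN : N.IsQuasicoherent)
    (q : M ⟶ N) [Epi q] {U : X.Opens} (hU : IsAffineOpen U) : Function.Surjective (ap q U) := by
  have h1 := Scheme.Modules.isQuasicoherent_restrictFunctor hU.fromSpec M
  have h2 := Scheme.Modules.isQuasicoherent_restrictFunctor hU.fromSpec N
  have h3 : Epi ((Scheme.Modules.restrictFunctor hU.fromSpec).map q) := inferInstance
  have h4 := spec_epi h1 h2 ((Scheme.Modules.restrictFunctor hU.fromSpec).map q)
  have h5 := (ModuleCat.epi_iff_surjective _).1 h4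
  have ht := image_fromSpec_top hU
  intro s
  obtain ⟨t, h⟩ := h5 (rs N ht.le s)
  have h6 : ap q (hU.fromSpec ''ᵁ ⊤) t = rs N ht.le s := h
  refine ⟨rs M ht.ge t, ?_⟩
  rw [ap_rs, h6, rs_rs, rs_self]

set_option backward.isDefEq.respectTransparency false in
theorem isQuasicoherent_cokernel {M N : X.Modules} (hM : M.IsQuasicoherent)
    (hN : N.IsQuasicoherent) (q : M ⟶ N) : (cokernel q).IsQuasicoherent := by
  apply isQuasicoherent_of_affine
  intro x
  obtain ⟨U, hU, hx, -⟩ := Opens.isBasis_iff_nbhd.1 X.isBasis_affineOpens (Opens.mem_top x)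
  refine ⟨U, hx, hU, ?_⟩
  have h1 := Scheme.Modules.isQuasicoherent_restrictFunctor hU.fromSpec M
  have h2 := Scheme.Modules.isQuasicoherent_restrictFunctor hU.fromSpec N
  exact isQuasicoherent_of_iso
    (PreservesCokernel.iso (Scheme.Modules.restrictFunctor hU.fromSpec) q).symm
    (spec_cokernel h1 h2 ((Scheme.Modules.restrictFunctor hU.fromSpec).map q))


end

end Fdim
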