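import Pool.Agent.Work.MP_f714fc_ag.Geo.LaurentSplit

/-!
# Pure algebra of the charts of `Y_c`

Subalgebras of a field `K` over `k` generated by `z`, `p`, `1/p`, `w = 1/z`, `q = z² p + c z`, `1/q`.
-/

open Polynomial

namespace Fdim

section P1

variable {k : Type*} {K : Type*} [Field k] [Field K] [Algebra k K]

/-- `S[x]` inside `K` -/
def adx (S : Subalgebra k K) (x : K) : Subalgebra k K := S ⊔ Algebra.adjoin k {x}

variable {S : Subalgebra k K} {x y : K}

lemma le_adx : S ≤ adx S x := le_sup_left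

lemma mem_adx (S : Subalgebra k K) (x : K) : x ∈ adx S x :=
  (le_sup_right : _ ≤ adx S x) (Algebra.self_mem_adjoin_singleton k x)

lemma adx_le {T : Subalgebra k K} (h : S ≤ T) (hx : x ∈ T) : adx S x ≤ T :=
  sup_le h (Algebra.adjoin_le (Set.singleton_subset_iff.2 hx))

lemma mem_adx_iff : y ∈ adx S x ↔ ∃ f : S[X], aeval x f = y := by
  constructor
  · intro h
    let R : Subalgebra k K := ((aeval x : S[X] →ₐ[S] K).restrictScalars k).range
    have hR : adx S x ≤ R := by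
      refine adx_le (fun s hs => ⟨C ⟨s, hs⟩, ?_⟩) ⟨X, ?_⟩
      · change aeval x (C (⟨s, hs⟩ : S)) = s
        rw [aeval_C]
        rfl
      · change aeval x (X : S[X]) = x
        rw [aeval_X]
    exact hR h
  · rintro ⟨f, rfl⟩
    rw [aeval_eq_sum_range]
    refine sum_mem fun i _ => ?_
    rw [Algebra.smul_def]
    exact mul_mem (le_adx (f.coeff i).2) (pow_mem (mem_adx S x) _)

lemma tr_ne_zero (hx : Transcendental S x) : x ≠ 0 := fun h => hx (h ▸ isAlgebraic_zero)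

lemma tr_laurent (hx : Transcendental S x) :
    IsLaurent (aeval x : S[X] →ₐ[S] K).toRingHom x⁻¹ where
  unit := by
    change aeval x (X : S[X]) * x⁻¹ = 1
    rw [aeval_X]
    exact mul_inv_cancel₀ (tr_ne_zero hx)
  inj := transcendental_iff_injective.1 hx

lemma eval₂_toRingHom (g : S[X]) :
    g.eval₂ ((aeval x : S[X] →ₐ[S] K).toRingHom.comp C) y = aeval y g := by
  rw [aeval_def]
  congr 1
  ext s
  change aeval x (C s) = _
  rw [aeval_C]

lemma pow_mem_of_mem_adxx (hx : x ≠ 0) (h : y ∈ adx (adx S x) x⁻¹) :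
    ∃ (n : ℕ) (f : S[X]), x ^ n * y = aeval x f := by
  obtain ⟨g, rfl⟩ := mem_adx_iff.1 h
  refine ⟨g.natDegree, ?_⟩
  have h1 : x ^ g.natDegree * aeval x⁻¹ g ∈ adx S x := by
    rw [aeval_eq_sum_range, Finset.mul_sum]
    refine sum_mem fun i hi => ?_
    rw [Algebra.smul_def]
    have h2 : x ^ g.natDegree * ((algebraMap (adx S x) K) (g.coeff i) * x⁻¹ ^ i)
        = (algebraMap (adx S x) K) (g.coeff i) * x ^ (g.natDegree - i) := by
      have h3 : g.natDegree = (g.natDegree - i) + i := by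
        have := Finset.mem_range.1 hi
        omega
      have h4 : x ^ i * x⁻¹ ^ i = 1 := by
        rw [← mul_pow, mul_inv_cancel₀ hx, one_pow]
      calc x ^ g.natDegree * ((algebraMap (adx S x) K) (g.coeff i) * x⁻¹ ^ i)
          = (algebraMap (adx S x) K) (g.coeff i) * x ^ (g.natDegree - i) * (x ^ i * x⁻¹ ^ i) := by
            nth_rewrite 1 [h3]
            rw [pow_add]
            ring
        _ = _ := by rw [h4, mul_one]
    rw [h2]
    exact mul_mem (g.coeff i).2 (pow_mem (mem_adx S x) _)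
  obtain ⟨f, hf⟩ := mem_adx_iff.1 h1
  exact ⟨f, hf.symm⟩

/-- `H¹(P¹_S, O(-1)) = 0` -/
theorem p1_exists (hx : Transcendental S x) (h : y ∈ adx (adx S x) x⁻¹) :
    ∃ a ∈ adx S x, ∃ b ∈ adx S x⁻¹, y = a + x⁻¹ * b := by
  obtain ⟨n, f, hf⟩ := pow_mem_of_mem_adxx (tr_ne_zero hx) h
  have h1 : (aeval x : S[X] →ₐ[S] K).toRingHom X ^ n * y = (aeval x : S[X] →ₐ[S] K).toRingHom f := by
    change aeval x (X : S[X]) ^ n * y = aeval x f
    rw [aeval_X, hf]
  obtain ⟨a, b, hab⟩ := (tr_laurent hx).split ⟨n, f, h1⟩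
  refine ⟨aeval x a, mem_adx_iff.2 ⟨a, rfl⟩, aeval x⁻¹ b, mem_adx_iff.2 ⟨b, rfl⟩, ?_⟩
  rw [hab, eval₂_toRingHom]
  rfl

/-- `H⁰(P¹_S, O(-1)) = 0` -/
theorem p1_zero (hx : Transcendental S x) {a b : K} (ha : a ∈ adx S x) (hb : b ∈ adx S x⁻¹)
    (hab : a = x⁻¹ * b) : a = 0 := by
  obtain ⟨f, rfl⟩ := mem_adx_iff.1 ha
  obtain ⟨g, rfl⟩ := mem_adx_iff.1 hb
  have h1 : (aeval x : S[X] →ₐ[S] K).toRingHom f
      = x⁻¹ * g.eval₂ ((aeval x : S[X] →ₐ[S] K).toRingHom.comp C) x⁻¹ := by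
    rw [eval₂_toRingHom]
    exact hab
  rw [((tr_laurent hx).eq_zero h1).1, map_zero]

/-- `H⁰(P¹_S, O) = S` -/
theorem p1_const (hx : Transcendental S x) {a : K} (ha : a ∈ adx S x) (hb : a ∈ adx S x⁻¹) :
    a ∈ S := by
  obtain ⟨f, rfl⟩ := mem_adx_iff.1 ha
  obtain ⟨g, hg⟩ := mem_adx_iff.1 hb
  have h1 : (aeval x : S[X] →ₐ[S] K).toRingHom f
      = g.eval₂ ((aeval x : S[X] →ₐ[S] K).toRingHom.comp C) x⁻¹ := by
    rw [eval₂_toRingHom]
    exact hg.symm
  obtain ⟨r, hr, -⟩ := (tr_laurent hx).const h1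
  rw [hr, aeval_C]
  exact r.2

/-- `H¹(P¹_S, O) = 0` -/
theorem p1_exists' (hx : Transcendental S x) (h : y ∈ adx (adx S x) x⁻¹) :
    ∃ a ∈ adx S x, ∃ b ∈ adx S x⁻¹, y = a + b := by
  obtain ⟨a, ha, b, hb, hab⟩ := p1_exists hx h
  exact ⟨a, ha, x⁻¹ * b, mul_mem (mem_adx S x⁻¹) hb, hab⟩

/-- `H¹(P¹_S, O(n)) = 0` for `n ≥ -1` -/
theorem p1_exists_zpow (hx : Transcendental S x) (h : y ∈ adx (adx S x) x⁻¹) {n : ℤ}
    (hn : -1 ≤ n) : ∃ a ∈ adx S x, ∃ b ∈ adx S x⁻¹, y = a + x ^ n * b := by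
  obtain ⟨a, ha, b, hb, hab⟩ := p1_exists hx h
  obtain ⟨m, hm⟩ := Int.eq_ofNat_of_zero_le (show 0 ≤ n + 1 by lia)
  refine ⟨a, ha, x⁻¹ ^ m * b, mul_mem (pow_mem (mem_adx S x⁻¹) _) hb, ?_⟩
  rw [hab]
  congr 1
  have h1 : x ^ n * x⁻¹ ^ m = x⁻¹ := by
    rw [inv_pow, ← zpow_natCast, ← zpow_neg, ← zpow_add₀ (tr_ne_zero hx), ← zpow_neg_one]
    congr 1
    lia
  rw [← mul_assoc, h1]

end P1

section Charts

variable {k : Type*} {K : Type*} [Field k] [Field K] [Algebra k K]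

/-- `q = z² p + c z` -/
def yq (z p : K) (c : k) : K := z ^ 2 * p + algebraMap k K c * z

variable {z p : K} {c : k}

/-- `z`, `p` are algebraically independent -/
structure YGen (k : Type*) {K : Type*} [Field k] [Field K] [Algebra k K] (z p : K) : Prop where
  hz : Transcendental k z
  hp : Transcendental (Algebra.adjoin k {z}) p

lemma YGen.of_algebraicIndependent (h : AlgebraicIndependent k ![z, p]) : YGen k z p where
  hz := h.transcendental 0
  hp := by
    have h1 := h.transcendental_adjoin (s := {0}) (i := 1) (by simp)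
    rw [Set.image_singleton] at h1
    exact h1

lemma YGen.z_ne (h : YGen k z p) : z ≠ 0 := fun h0 => h.hz (h0 ▸ isAlgebraic_zero)

lemma YGen.p_ne (h : YGen k z p) : p ≠ 0 := fun h0 => h.hp (h0 ▸ isAlgebraic_zero)

lemma adx_adjoin (s : Set K) (x : K) : adx (Algebra.adjoin k s) x = Algebra.adjoin k (insert x s) := by
  rw [adx, ← Algebra.adjoin_union, Set.union_comm]
  rfl

/-- `k[z, 1/z]` is algebraic over `k[z]` -/
lemma YGen.hpz (h : YGen k z p) : Transcendental (Algebra.adjoin k {z⁻¹, z}) p := by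
  set S : Subalgebra k K := Algebra.adjoin k {z} with hS
  set T : Subalgebra k K := Algebra.adjoin k {z⁻¹, z} with hT
  have hle : S ≤ T := Algebra.adjoin_mono (by simp)
  let : Algebra S T := (Subalgebra.inclusion hle).toAlgebra
  have : IsScalarTower S T K := IsScalarTower.of_algebraMap_eq (fun _ => rfl)
  have hz : z ∈ S := Algebra.self_mem_adjoin_singleton k z
  have halg : Algebra.IsAlgebraic S T := by
    constructor
    intro t
    have ht : (t : K) ∈ adx (adx (⊥ : Subalgebra k K) z) z⁻¹ := by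
      have h1 : adx (adx (⊥ : Subalgebra k K) z) z⁻¹ = T := by
        rw [hT, adx, adx, bot_sup_eq, ← Algebra.adjoin_union]
        congr 1
        ext y
        simp [or_comm]
      rw [h1]
      exact t.2
    obtain ⟨n, f, hf⟩ := pow_mem_of_mem_adxx h.z_ne ht
    have hfS : aeval z f ∈ S := by
      have h2 : aeval z f ∈ adx (⊥ : Subalgebra k K) z := mem_adx_iff.2 ⟨f, rfl⟩
      rw [adx, bot_sup_eq] at h2
      exact h2
    refine ⟨C (⟨z, hz⟩ ^ n : S) * X - C (⟨aeval z f, hfS⟩ : S), ?_, ?_⟩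
    · intro h0
      have h3 := congrArg (fun g => g.coeff 1) h0
      simp only [coeff_sub, coeff_C_mul, coeff_X_one, mul_one, coeff_zero] at h3
      rw [coeff_C, if_neg one_ne_zero, sub_zero] at h3
      have h4 := congrArg (fun s : S => (s : K)) h3
      simp only [SubmonoidClass.coe_pow, ZeroMemClass.coe_zero] at h4
      exact pow_ne_zero n h.z_ne h4
    · rw [map_sub, map_mul, aeval_C, aeval_C, aeval_X]
      apply Subtype.ext
      change z ^ n * (t : K) - aeval z f = 0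
      rw [hf, sub_self]
  exact h.hp.extendScalars T

/-- `q` is transcendental over `k[z, 1/z]` -/
lemma YGen.hqz (h : YGen k z p) (c : k) : Transcendental (Algebra.adjoin k {z⁻¹, z}) (yq z p c) := by
  set T : Subalgebra k K := Algebra.adjoin k {z⁻¹, z} with hT
  have hz : z ∈ T := Algebra.subset_adjoin (by simp)
  let f : T[X] := C (⟨z, hz⟩ ^ 2 : T) * X + C (algebraMap k T c * ⟨z, hz⟩)
  have h0 : (⟨z, hz⟩ ^ 2 : T) ≠ 0 := by
    intro h1
    have h2 := congrArg (fun s : T => (s : K)) h1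
    simp only [SubmonoidClass.coe_pow, ZeroMemClass.coe_zero] at h2
    exact pow_ne_zero 2 h.z_ne h2
  have h1 : aeval p f = yq z p c := by
    simp only [f, map_add, map_mul, aeval_C, aeval_X, yq]
    rfl
  rw [← h1]
  refine h.hpz.aeval f ?_ ?_
  · rw [natDegree_linear h0]
    exact one_ne_zero
  · rw [leadingCoeff_linear h0]
    exact mem_nonZeroDivisors_of_ne_zero h0

/-- `w = 1/z`, `q` are algebraically independent -/
theorem YGen.symm (h : YGen k z p) (c : k) : YGen k z⁻¹ (yq z p c) where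
  hz := by
    intro h1
    exact h.hz (by simpa using h1.inv)
  hp := (h.hqz c).of_tower_top_of_subalgebra_le (Algebra.adjoin_mono (by simp))

lemma yq_ne (h : YGen k z p) (c : k) : yq z p c ≠ 0 := (h.symm c).p_ne

/-- `k[z, 1/z, p] = k[z, 1/z, q]` -/
lemma adjoin_pq (hz : z ≠ 0) (c : k) :
    Algebra.adjoin k {yq z p c, z⁻¹, z} = Algebra.adjoin k {p, z⁻¹, z} := by
  apply le_antisymm
  · refine Algebra.adjoin_le ?_
    have h1 : z ∈ Algebra.adjoin k {p, z⁻¹, z} := Algebra.subset_adjoin (by simp)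
    have h2 : z⁻¹ ∈ Algebra.adjoin k {p, z⁻¹, z} := Algebra.subset_adjoin (by simp)
    have h3 : p ∈ Algebra.adjoin k {p, z⁻¹, z} := Algebra.subset_adjoin (by simp)
    rintro y (rfl | rfl | rfl)
    · exact add_mem (mul_mem (pow_mem h1 2) h3) (mul_mem (algebraMap_mem _ c) h1)
    · exact h2
    · exact h1
  · refine Algebra.adjoin_le ?_
    have h1 : z ∈ Algebra.adjoin k {yq z p c, z⁻¹, z} := Algebra.subset_adjoin (by simp)
    have h2 : z⁻¹ ∈ Algebra.adjoin k {yq z p c, z⁻¹, z} := Algebra.subset_adjoin (by simp)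
    have h3 : yq z p c ∈ Algebra.adjoin k {yq z p c, z⁻¹, z} := Algebra.subset_adjoin (by simp)
    rintro y (rfl | rfl | rfl)
    · have h4 : y = z⁻¹ ^ 2 * (yq z y c - algebraMap k K c * z) := by
        rw [yq]
        field_simp
        ring
      have h5 := mul_mem (pow_mem h2 2) (sub_mem h3 (mul_mem (algebraMap_mem
        (Algebra.adjoin k {yq z y c, z⁻¹, z}) c) h1))
      rwa [← h4] at h5
    · exact h2
    · exact h1

/-! ### the projective line over `k[s]` -/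

section

variable {s : Set K} {x y : K}

theorem adj_exists (hx : Transcendental (Algebra.adjoin k s) x) {n : ℤ} (hn : -1 ≤ n)
    (hy : y ∈ Algebra.adjoin k (insert x⁻¹ (insert x s))) :
    ∃ a ∈ Algebra.adjoin k (insert x s), ∃ b ∈ Algebra.adjoin k (insert x⁻¹ s),
      y = a + x ^ n * b := by
  simp only [← adx_adjoin] at hy ⊢
  exact p1_exists_zpow hx hy hn

theorem adj_zero (hx : Transcendental (Algebra.adjoin k s) x) {a b : K}
    (ha : a ∈ Algebra.adjoin k (insert x s)) (hb : b ∈ Algebra.adjoin k (insert x⁻¹ s))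
    (hab : a = x⁻¹ * b) : a = 0 := by
  simp only [← adx_adjoin] at ha hb
  exact p1_zero hx ha hb hab

theorem adj_const (hx : Transcendental (Algebra.adjoin k s) x) {a : K}
    (ha : a ∈ Algebra.adjoin k (insert x s)) (hb : a ∈ Algebra.adjoin k (insert x⁻¹ s)) :
    a ∈ Algebra.adjoin k s := by
  simp only [← adx_adjoin] at ha hb
  exact p1_const hx ha hb

lemma tr_bot (hx : Transcendental k x) : Transcendental (Algebra.adjoin k (∅ : Set K)) x := by
  rw [Algebra.adjoin_empty]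
  intro h
  apply hx
  obtain ⟨f, hf, h0⟩ := h
  have hb : Function.Injective (algebraMap k (⊥ : Subalgebra k K)) :=
    (algebraMap k (⊥ : Subalgebra k K)).injective
  have hsurj : Function.Surjective (algebraMap k (⊥ : Subalgebra k K)) := fun t => by
    obtain ⟨r, hr⟩ := Algebra.mem_bot.1 t.2
    exact ⟨r, Subtype.ext hr⟩
  obtain ⟨g, rfl⟩ := Polynomial.map_surjective _ hsurj f
  refine ⟨g, fun h1 => hf (by rw [h1, Polynomial.map_zero]), ?_⟩
  rwa [Polynomial.aeval_map_algebraMap] at h0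

end

/-! ### `V₀ = {z ≠ ∞}`: charts `k[z,p]`, `k[z,1/p]` -/

theorem V0_exists (h : YGen k z p) {n : ℤ} (hn : -1 ≤ n) {y : K}
    (hy : y ∈ Algebra.adjoin k {p⁻¹, p, z}) :
    ∃ a ∈ Algebra.adjoin k {p, z}, ∃ b ∈ Algebra.adjoin k {p⁻¹, z}, y = a + p ^ n * b :=
  adj_exists h.hp hn hy

theorem V0_zero (h : YGen k z p) {a b : K} (ha : a ∈ Algebra.adjoin k {p, z})
    (hb : b ∈ Algebra.adjoin k {p⁻¹, z}) (hab : a = p⁻¹ * b) : a = 0 :=
  adj_zero h.hp ha hb hab

theorem V0_const (h : YGen k z p) {a : K} (ha : a ∈ Algebra.adjoin k {p, z})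
    (hb : a ∈ Algebra.adjoin k {p⁻¹, z}) : a ∈ Algebra.adjoin k {z} :=
  adj_const h.hp ha hb

/-! ### `V₁ = {z ≠ 0}`: charts `k[w,q]`, `k[w,1/q]`, `w = 1/z` -/

theorem V1_exists (h : YGen k z p) {n : ℤ} (hn : -1 ≤ n) {y : K}
    (hy : y ∈ Algebra.adjoin k {(yq z p c)⁻¹, yq z p c, z⁻¹}) :
    ∃ a ∈ Algebra.adjoin k {yq z p c, z⁻¹}, ∃ b ∈ Algebra.adjoin k {(yq z p c)⁻¹, z⁻¹},
      y = a + yq z p c ^ n * b :=
  adj_exists (h.symm c).hp hn hy

theorem V1_zero (h : YGen k z p) {a b : K} (ha : a ∈ Algebra.adjoin k {yq z p c, z⁻¹})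
    (hb : b ∈ Algebra.adjoin k {(yq z p c)⁻¹, z⁻¹}) (hab : a = (yq z p c)⁻¹ * b) : a = 0 :=
  adj_zero (h.symm c).hp ha hb hab

theorem V1_const (h : YGen k z p) {a : K} (ha : a ∈ Algebra.adjoin k {yq z p c, z⁻¹})
    (hb : a ∈ Algebra.adjoin k {(yq z p c)⁻¹, z⁻¹}) : a ∈ Algebra.adjoin k {z⁻¹} :=
  adj_const (h.symm c).hp ha hb

/-! ### `V₀ ∩ V₁`: charts `k[z,1/z,p]`, `k[z,1/z,1/p]` -/

theorem V01_exists (h : YGen k z p) {n : ℤ} (hn : -1 ≤ n) {y : K}
    (hy : y ∈ Algebra.adjoin k {p⁻¹, p, z⁻¹, z}) :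
    ∃ a ∈ Algebra.adjoin k {p, z⁻¹, z}, ∃ b ∈ Algebra.adjoin k {p⁻¹, z⁻¹, z},
      y = a + p ^ n * b :=
  adj_exists h.hpz hn hy

theorem V01_zero (h : YGen k z p) {a b : K} (ha : a ∈ Algebra.adjoin k {p, z⁻¹, z})
    (hb : b ∈ Algebra.adjoin k {p⁻¹, z⁻¹, z}) (hab : a = p⁻¹ * b) : a = 0 :=
  adj_zero h.hpz ha hb hab

theorem V01_const (h : YGen k z p) {a : K} (ha : a ∈ Algebra.adjoin k {p, z⁻¹, z})
    (hb : a ∈ Algebra.adjoin k {p⁻¹, z⁻¹, z}) : a ∈ Algebra.adjoin k {z⁻¹, z} :=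
  adj_const h.hpz ha hb

/-! ### the base: charts `k[z]`, `k[1/z]` -/

theorem base_exists (h : YGen k z p) {m : ℤ} (hm : -1 ≤ m) {y : K}
    (hy : y ∈ Algebra.adjoin k {z⁻¹, z}) :
    ∃ a ∈ Algebra.adjoin k {z}, ∃ b ∈ Algebra.adjoin k {z⁻¹}, y = a + z ^ m * b := by
  have h1 := adj_exists (tr_bot h.hz) hm (y := y) (by simpa using hy)
  simpa using h1

theorem base_zero (h : YGen k z p) {a b : K} (ha : a ∈ Algebra.adjoin k {z})
    (hb : b ∈ Algebra.adjoin k {z⁻¹}) (hab : a = z⁻¹ * b) : a = 0 :=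
  adj_zero (tr_bot h.hz) (by simpa using ha) (by simpa using hb) hab

theorem base_const (h : YGen k z p) {a : K} (ha : a ∈ Algebra.adjoin k {z})
    (hb : a ∈ Algebra.adjoin k {z⁻¹}) : ∃ r : k, a = algebraMap k K r := by
  have h1 := adj_const (tr_bot h.hz) (a := a) (by simpa using ha) (by simpa using hb)
  rw [Algebra.adjoin_empty] at h1
  obtain ⟨r, hr⟩ := Algebra.mem_bot.1 h1
  exact ⟨r, hr.symm⟩

end Charts

end Fdim
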