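import Pool.Agent.Work.MP_f714fc_ag.Coh.FinDim
import Pool.Agent.Work.MP_f714fc_ag.Sch.YGeom2
import Pool.Agent.Work.MP_f714fc_ag.Geo.CohAb
import Pool.Agent.Work.MP_f714fc_ag.Loc.GD

/-!
# Finite cohomological dimension of the surfaces `Y(k, t)`, `k` a field
-/

open CategoryTheory Limits TopologicalSpace AlgebraicGeometry Opposite Abelian

attribute [-instance] CategoryTheory.catToReflQuiver

universe w

namespace Fdim

open Coh

variable {A : CommRingCat.{0}} {t : A} {X : Scheme.{0}} {π : X ⟶ Spec A}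

/-- the basic open subsets of the four charts -/
def YCharts.Basic (D : YCharts A t π) (U : X.Opens) : Prop :=
  ∃ (i : Fin 4) (f : Γ(X, D.U i)), U = X.basicOpen f

/-- intersections of the charts are basic open subsets -/
theorem YCharts.inf_basic (D : YCharts A t π) (i j : Fin 4) :
    ∃ f : Γ(X, D.U i), D.U i ⊓ D.U j = X.basicOpen f := by
  have h11 : ∀ i, ∃ f : Γ(X, D.U i), D.U i ⊓ D.U i = X.basicOpen f := fun i =>
    ⟨1, by rw [inf_idem, Scheme.basicOpen_of_isUnit _ isUnit_one]⟩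
  fin_cases i <;> fin_cases j
  · exact h11 0
  · exact ⟨_, D.b01⟩
  · exact ⟨_, D.b02⟩
  · exact ⟨_, D.b03⟩
  · exact ⟨_, (inf_comm _ _).trans D.b10⟩
  · exact h11 1
  · exact ⟨_, D.b12⟩
  · exact ⟨_, D.b13⟩
  · exact ⟨_, (inf_comm _ _).trans D.b20⟩
  · exact ⟨_, (inf_comm _ _).trans D.b21⟩
  · exact h11 2
  · exact ⟨_, D.b23⟩
  · exact ⟨_, (inf_comm _ _).trans D.b30⟩
  · exact ⟨_, (inf_comm _ _).trans D.b31⟩
  · exact ⟨_, (inf_comm _ _).trans D.b32⟩
  · exact h11 3

theorem YCharts.Basic.inf (D : YCharts A t π) {U V : X.Opens} (hU : D.Basic U)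
    (hV : D.Basic V) : D.Basic (U ⊓ V) := by
  obtain ⟨i, f, rfl⟩ := hU
  obtain ⟨j, g, rfl⟩ := hV
  obtain ⟨a, ha⟩ := D.inf_basic i j
  -- the restriction of `g` to the intersection of the charts
  have h1 : X.basicOpen a ≤ D.U j := by
    rw [← ha]
    exact inf_le_right
  obtain ⟨f', hf'⟩ := (D.aff i).basicOpen_basicOpen_is_basicOpen a (rO h1 g)
  refine ⟨i, f * f', ?_⟩
  have h2 : X.basicOpen (rO h1 g) = X.basicOpen a ⊓ X.basicOpen g := by
    exact X.basicOpen_res g (homOfLE h1).op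
  rw [Scheme.basicOpen_mul, hf', h2, ← ha]
  have h3 : X.basicOpen f ≤ D.U i := X.basicOpen_le f
  have h4 : X.basicOpen g ≤ D.U j := X.basicOpen_le g
  apply le_antisymm
  · exact le_inf inf_le_left (le_inf (le_inf (inf_le_left.trans h3) (inf_le_right.trans h4))
      inf_le_right)
  · exact le_inf inf_le_left (inf_le_right.trans inf_le_right)

theorem YCharts.basic_U (D : YCharts A t π) (i : Fin 4) : D.Basic (D.U i) :=
  ⟨i, 1, by rw [Scheme.basicOpen_of_isUnit _ isUnit_one]⟩

section field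

variable {k : Type} [Field k] {t : k} {π : X ⟶ Spec (.of k)}

theorem YCharts.gd_chart (D : YCharts (.of k) t π) (i : Fin 4) : Loc.GD Γ(X, D.U i) 2 :=
  Loc.GD.of_ringEquiv (D.ringEquiv i) (Loc.GD.mvPolynomial k 2)

theorem YCharts.isNoetherianRing_chart (D : YCharts (.of k) t π) (i : Fin 4) :
    IsNoetherianRing Γ(X, D.U i) := by
  have : IsNoetherianRing (MvPolynomial (Fin 2) (CommRingCat.of k)) :=
    inferInstanceAs (IsNoetherianRing (MvPolynomial (Fin 2) k))
  exact isNoetherianRing_of_ringEquiv _ (D.ringEquiv i)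

theorem YCharts.Basic.good {D : YCharts (.of k) t π} {U : X.Opens} (hU : D.Basic U) :
    GoodOpen U := by
  obtain ⟨i, f, rfl⟩ := hU
  have h1 := (D.aff i).isLocalization_basicOpen f
  have h2 := D.isNoetherianRing_chart i
  exact ⟨(D.aff i).basicOpen f,
    IsLocalization.isNoetherianRing (.powers f) _ h2,
    Loc.GD.of_isLocalization (.powers f) (D.gd_chart i)⟩

/-- **Finite cohomological dimension** of the surface `Y(k, t)`: `Ext^p(A, B) = 0` for `p ≥ 6`,
`A` coherent, `B` quasi-coherent -/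
theorem YCharts.ext_eq_zero [HasExt.{w} X.Modules] (D : YCharts (.of k) t π) {A B : X.Modules}
    (hA : IsCoh X A) [B.IsQuasicoherent] {p : ℕ} (hp : 6 ≤ p) (x : Ext.{w} A B p) : x = 0 := by
  have hA1 : A.IsQuasicoherent := hA.1
  refine ext_eq_zero_of_four (G := D.Basic) (fun U V hU hV => hU.inf D hV)
    (fun U hU => hU.good) (D.basic_U 0) (D.basic_U 1) (D.basic_U 2) (D.basic_U 3) ?_ A B
    (fun U hU => hA.2 ⟨U, hU.good.aff⟩) hp x
  rw [← D.cover]
  apply le_antisymm
  · exact sup_le (sup_le (sup_le (le_iSup D.U 0) (le_iSup D.U 1)) (le_iSup D.U 2)) (le_iSup D.U 3)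
  · refine iSup_le fun i => ?_
    fin_cases i
    · exact le_sup_of_le_left (le_sup_of_le_left le_sup_left)
    · exact le_sup_of_le_left (le_sup_of_le_left le_sup_right)
    · exact le_sup_of_le_left le_sup_right
    · exact le_sup_right

theorem YCharts.subsingleton_ext [HasExt.{w} X.Modules] (D : YCharts (.of k) t π)
    {A B : X.Modules} (hA : IsCoh X A) (hB : IsCoh X B) {p : ℕ} (hp : 6 ≤ p) :
    Subsingleton (Ext.{w} A B p) := by
  have hB1 : B.IsQuasicoherent := hB.1
  exact ⟨fun x y => (D.ext_eq_zero hA hp x).trans (D.ext_eq_zero hA hp y).symm⟩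

end field

end Fdim
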