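import Pool.Agent.Work.MP_f714fc_ag.Geo.LineBundle
import Pool.Agent.Work.MP_f714fc_ag.Geo.YSec
import Pool.Agent.Work.MP_f714fc_ag.Coh.YVan
import Pool.Agent.Work.MP_f714fc_ag.Tw.TwSec
import Pool.Agent.Work.MP_f714fc_ag.Tw.Local
import Pool.Agent.Work.MP_f714fc_ag.Geo.CohAb

/-!
# Cohomology of line bundles on `Y(A, t)`

(K1) `H^p(O) = A, 0, 0, ...`; (K2) `H^p(O(-C∞ + m f)) = 0` for all `p`, `m`;
(K3) `H^p(O(m f)) = 0` for `p ≥ 1`, `m ≥ -1`, and `H^0(O(-f)) = 0`.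
-/

open CategoryTheory Limits TopologicalSpace AlgebraicGeometry Opposite Abelian

attribute [-instance] CategoryTheory.catToReflQuiver

universe w u

namespace Fdim

namespace Coc

variable {X : Scheme.{u}} {ι : Type u} {U : ι → X.Opens}

/-- the values as a homomorphism to units -/
noncomputable def vU (i j : ι) {W : X.Opens} (hi : W ≤ U i) (hj : W ≤ U j) :
    Coc U →* (Γ(X, W))ˣ :=
  MonoidHom.toHomUnits
    { toFun := fun g => g.v i j hi hj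
      map_one' := v_one i j hi hj
      map_mul' := fun g h => v_mul g h i j hi hj }

theorem coe_vU (g : Coc U) (i j : ι) {W : X.Opens} (hi : W ≤ U i) (hj : W ≤ U j) :
    (vU i j hi hj g : Γ(X, W)) = g.v i j hi hj := rfl

theorem v_zpow_one {g : Coc U} {i j : ι} {W : X.Opens} {hi : W ≤ U i} {hj : W ≤ U j}
    (h : g.v i j hi hj = 1) (m : ℤ) : (g ^ m).v i j hi hj = 1 := by
  have h1 : vU i j hi hj g = 1 := Units.ext h
  rw [← coe_vU, map_zpow, h1, one_zpow, Units.val_one]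

theorem v_inv_eq {g : Coc U} {i j : ι} {W : X.Opens} {hi : W ≤ U i} {hj : W ≤ U j} {a : Γ(X, W)}
    (h : g.v i j hi hj * a = 1) : (g⁻¹).v i j hi hj = a := by
  have h1 := v_inv_mul g i j hi hj
  calc (g⁻¹).v i j hi hj = (g⁻¹).v i j hi hj * (g.v i j hi hj * a) := by rw [h, mul_one]
    _ = a := by rw [← mul_assoc, h1, one_mul]

theorem v_zpow_mul {g : Coc U} {i j : ι} {W : X.Opens} {hi : W ≤ U i} {hj : W ≤ U j} {a : Γ(X, W)}
    (h : g.v i j hi hj * a = 1) {m : ℤ} {e : ℕ} (he : m + 1 = e) :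
    (g ^ m).v i j hi hj * a ^ e = a := by
  have h2 := v_inv_eq h
  rw [← h2, ← coe_vU, ← coe_vU, ← Units.val_pow_eq_pow_val, ← Units.val_mul]
  congr 1
  rw [map_zpow, map_inv, ← zpow_natCast, inv_zpow, ← zpow_neg, ← zpow_add, ← zpow_neg_one]
  congr 1
  lia

end Coc

namespace YCharts

open Coh

variable {A : CommRingCat.{0}} {t : A} {X : Scheme.{0}} {π : X ⟶ Spec A} (Y : YCharts A t π)

/-- the line bundle `O(-C∞ + m f)` -/
noncomputable abbrev gK2 (m : ℤ) : Coc Y.U := Y.gC⁻¹ * Y.gF ^ m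

theorem gK2_01 (m : ℤ) {W : X.Opens} (h0 : W ≤ Y.U 0) (h1 : W ≤ Y.U 1) :
    (Y.gK2 m).v 0 1 h0 h1 = rO h1 (Y.y 1) := by
  rw [Coc.v_mul, Coc.v_zpow_one (by simp [eF]), mul_one]
  apply Coc.v_inv_eq
  rw [gC_v]
  exact Y.rel01y h0 h1

theorem gK2_23 (m : ℤ) {W : X.Opens} (h0 : W ≤ Y.U 2) (h1 : W ≤ Y.U 3) :
    (Y.gK2 m).v 2 3 h0 h1 = rO h1 (Y.y 3) := by
  rw [Coc.v_mul, Coc.v_zpow_one (by simp [eF]), mul_one]
  apply Coc.v_inv_eq
  rw [gC_v]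
  exact Y.rel23y h0 h1

section

variable [HasExt.{w} X.Modules]

/-- the sections over a union -/
theorem hvan_zero_sup {P Q : X.Opens} {M : X.Modules} (hP : HVan P M 0) (hQ : HVan Q M 0) :
    HVan (P ⊔ Q) M 0 := by
  intro α
  apply (secEquiv _ _).injective
  rw [secEquiv_zero]
  have e : ∀ (R : X.Opens) (hR : R ≤ P ⊔ Q), HVan R M 0 → rs M hR (secEquiv _ _ α) = 0 := by
    intro R hR h
    rw [← secEquiv_rs, h (res (homOfLE hR) α), secEquiv_zero]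
  refine Fdim.sec_ext M (U := fun k : Bool => if k then P else Q) (fun k => ?_) ?_ (fun k => ?_)
  · cases k
    · exact le_sup_right
    · exact le_sup_left
  · refine sup_le ?_ ?_
    · exact le_iSup (fun k : Bool => if k then P else Q) true
    · exact le_iSup (fun k : Bool => if k then P else Q) false
  · cases k
    · rw [map_zero]
      exact e Q le_sup_right hQ
    · rw [map_zero]
      exact e P le_sup_left hP

/-! ### (K2) -/

theorem K2_left (m : ℤ) [(LB (Y.gK2 m)).IsQuasicoherent] (n : ℕ) :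
    HVan (Y.U 0 ⊔ Y.U 1) (LB (Y.gK2 m)) n := by
  match n with
  | 0 =>
    refine LB.hvan_zero 0 1 le_rfl le_rfl (fun a b h => ?_)
    rw [gK2_01] at h
    exact Y.L0.eq_zero (by simpa only [L0, cr_X] using h)
  | 1 =>
    refine LB.hvan_one (HVan.affine (Y.aff 0) _ le_rfl) (HVan.affine (Y.aff 1) _ le_rfl) 0 1
      le_rfl le_rfl (fun s => ?_)
    obtain ⟨a, b, h⟩ := Y.L0.split s
    refine ⟨a, b, ?_⟩
    rw [gK2_01, h]
    simp only [L0, cr_X]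
  | n + 2 => exact Y.hvan_left _ (by omega)

theorem K2_right (m : ℤ) [(LB (Y.gK2 m)).IsQuasicoherent] (n : ℕ) :
    HVan (Y.U 2 ⊔ Y.U 3) (LB (Y.gK2 m)) n := by
  match n with
  | 0 =>
    refine LB.hvan_zero 2 3 le_rfl le_rfl (fun a b h => ?_)
    rw [gK2_23] at h
    exact Y.L1.eq_zero (by simpa only [L1, cr_X] using h)
  | 1 =>
    refine LB.hvan_one (HVan.affine (Y.aff 2) _ le_rfl) (HVan.affine (Y.aff 3) _ le_rfl) 2 3
      le_rfl le_rfl (fun s => ?_)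
    obtain ⟨a, b, h⟩ := Y.L1.split s
    refine ⟨a, b, ?_⟩
    rw [gK2_23, h]
    simp only [L1, cr_X]
  | n + 2 => exact Y.hvan_right _ (by omega)

theorem K2_mid (m : ℤ) [(LB (Y.gK2 m)).IsQuasicoherent] (n : ℕ) :
    HVan ((Y.U 0 ⊔ Y.U 1) ⊓ (Y.U 2 ⊔ Y.U 3)) (LB (Y.gK2 m)) n := by
  match n with
  | 0 =>
    refine HVan.congr Y.w01 (LB.hvan_zero 0 1 (X.basicOpen_le _) (X.basicOpen_le _)
      (fun a b h => ?_))
    rw [gK2_01] at h
    refine Y.L0.eq_zero_loc Polynomial.X (by simp only [L0, cr_C_X]) (by simp only [L0, cr_C_X])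
      (X.basicOpen_le _) (X.basicOpen_le _) ?_
    simpa only [L0, cr_X] using h
  | 1 =>
    refine HVan.congr Y.w01 (LB.hvan_one (HVan.affine Y.affw0 _ le_rfl)
      (HVan.affine Y.affw1 _ le_rfl) 0 1 (X.basicOpen_le _) (X.basicOpen_le _) (fun s => ?_))
    obtain ⟨a, b, h⟩ := Y.L0.split_loc Polynomial.X (by simp only [L0, cr_C_X])
      (by simp only [L0, cr_C_X]) (X.basicOpen_le _) (X.basicOpen_le _) s
    refine ⟨a, b, ?_⟩
    rw [gK2_01, h]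
    simp only [L0, cr_X]
  | n + 2 => exact Y.hvan_mid _ (by omega)

/-- **(K2)** `H^n(O(-C∞ + m f)) = 0` for all `n`, `m` -/
theorem K2 (m : ℤ) [(LB (Y.gK2 m)).IsQuasicoherent] (n : ℕ) :
    HVan (⊤ : X.Opens) (LB (Y.gK2 m)) n := by
  match n with
  | 0 => exact (hvan_zero_sup (Y.K2_left m 0) (Y.K2_right m 0)).congr Y.cover4
  | n + 1 =>
    exact (HVan.sup (Y.K2_mid m n) (Y.K2_left m (n + 1)) (Y.K2_right m (n + 1))).congr Y.cover4

end

/-! ### (K1), (K3) -/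

/-- functions on chart `i` which depend on the first coordinate only -/
noncomputable def c1 (i : Fin 4) {W : X.Opens} (hi : W ≤ Y.U i) :
    Polynomial (A : Type) →+* Γ(X, W) :=
  ((rO hi).comp (Y.cr i)).comp Polynomial.C

theorem c1_apply (i : Fin 4) {W : X.Opens} (hi : W ≤ Y.U i) (f : Polynomial (A : Type)) :
    Y.c1 i hi f = rO hi (Y.cr i (Polynomial.C f)) := rfl

@[simp] theorem c1_X (i : Fin 4) {W : X.Opens} (hi : W ≤ Y.U i) :
    Y.c1 i hi Polynomial.X = rO hi (Y.x i) := by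
  rw [c1_apply, cr_C_X]

@[simp] theorem c1_C (i : Fin 4) {W : X.Opens} (hi : W ≤ Y.U i) (a : A) :
    Y.c1 i hi (Polynomial.C a) = str π W a := by
  rw [c1_apply, cr_C_C, rO_str]

@[simp] theorem rO_c1 (i : Fin 4) {W W' : X.Opens} (hi : W ≤ Y.U i) (h : W' ≤ W)
    (f : Polynomial (A : Type)) : rO h (Y.c1 i hi f) = Y.c1 i (h.trans hi) f := by
  rw [c1_apply, c1_apply, rO_rO]

theorem c1_C_eq (i j : Fin 4) {W : X.Opens} (hi : W ≤ Y.U i) (hj : W ≤ Y.U j) :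
    (Y.c1 i hi).comp Polynomial.C = (Y.c1 j hj).comp Polynomial.C := by
  ext a
  simp

theorem c1_01 {W : X.Opens} (h0 : W ≤ Y.U 0) (h1 : W ≤ Y.U 1) (f : Polynomial (A : Type)) :
    Y.c1 0 h0 f = Y.c1 1 h1 f := by
  have h := congrArg (rO (le_inf h0 h1)) (Y.L0.const f)
  simp only [rO_rO] at h
  exact h

theorem c1_23 {W : X.Opens} (h0 : W ≤ Y.U 2) (h1 : W ≤ Y.U 3) (f : Polynomial (A : Type)) :
    Y.c1 2 h0 f = Y.c1 3 h1 f := by
  have h := congrArg (rO (le_inf h0 h1)) (Y.L1.const f)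
  simp only [rO_rO] at h
  exact h

theorem gF_v01 {W : X.Opens} (h0 : W ≤ Y.U 0) (h1 : W ≤ Y.U 1) (m : ℤ) :
    (Y.gF ^ m).v 0 1 h0 h1 = 1 := Coc.v_zpow_one (by simp [eF]) m

theorem gF_v23 {W : X.Opens} (h0 : W ≤ Y.U 2) (h1 : W ≤ Y.U 3) (m : ℤ) :
    (Y.gF ^ m).v 2 3 h0 h1 = 1 := Coc.v_zpow_one (by simp [eF]) m

/-- the sections over `V₀` given by polynomials in `z` -/
theorem exists_left (m : ℤ) (f : Polynomial (A : Type)) :
    ∃ a : Γ(LB (Y.gF ^ m), Y.U 0 ⊔ Y.U 1),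
      LB.fn a 0 le_sup_left le_rfl = Y.c1 0 le_rfl f ∧
      LB.fn a 1 le_sup_right le_rfl = Y.c1 1 le_rfl f := by
  apply LB.exists_fn2
  rw [gF_v01, one_mul, rO_c1, rO_c1]
  exact Y.c1_01 _ _ f

/-- the sections over `V₁` given by polynomials in `w` -/
theorem exists_right (m : ℤ) (f : Polynomial (A : Type)) :
    ∃ a : Γ(LB (Y.gF ^ m), Y.U 2 ⊔ Y.U 3),
      LB.fn a 2 le_sup_left le_rfl = Y.c1 2 le_rfl f ∧
      LB.fn a 3 le_sup_right le_rfl = Y.c1 3 le_rfl f := by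
  apply LB.exists_fn2
  rw [gF_v23, one_mul, rO_c1, rO_c1]
  exact Y.c1_23 _ _ f

/-- the overlap of the halves is covered by the four mixed overlaps -/
theorem mid_le : (Y.U 0 ⊔ Y.U 1) ⊓ (Y.U 2 ⊔ Y.U 3) ≤
    ⨆ k : Bool × Bool, (if k.1 then Y.U 0 else Y.U 1) ⊓ (if k.2 then Y.U 2 else Y.U 3) := by
  rw [inf_sup_left, inf_sup_right, inf_sup_right]
  refine sup_le (sup_le ?_ ?_) (sup_le ?_ ?_)
  · exact le_iSup (fun k : Bool × Bool => (if k.1 then Y.U 0 else Y.U 1) ⊓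
      (if k.2 then Y.U 2 else Y.U 3)) (true, true)
  · exact le_iSup (fun k : Bool × Bool => (if k.1 then Y.U 0 else Y.U 1) ⊓
      (if k.2 then Y.U 2 else Y.U 3)) (false, true)
  · exact le_iSup (fun k : Bool × Bool => (if k.1 then Y.U 0 else Y.U 1) ⊓
      (if k.2 then Y.U 2 else Y.U 3)) (true, false)
  · exact le_iSup (fun k : Bool × Bool => (if k.1 then Y.U 0 else Y.U 1) ⊓
      (if k.2 then Y.U 2 else Y.U 3)) (false, false)

/-- the values of the cocycle of `f` on the mixed overlaps and their inverses -/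
theorem gF_mixed (i j : Fin 4) (hi' : i = 0 ∨ i = 1) (hj' : j = 2 ∨ j = 3) {W : X.Opens}
    (hi : W ≤ Y.U i) (hj : W ≤ Y.U j) : Y.gF.v i j hi hj = rO hi (Y.x i) ∧
      rO hi (Y.x i) * rO hj (Y.x j) = 1 := by
  rcases hi' with rfl | rfl <;> rcases hj' with rfl | rfl
  · exact ⟨by simp [eF], Y.rel02x hi hj⟩
  · exact ⟨by simp [eF], Y.rel03x hi hj⟩
  · exact ⟨by simp [eF], Y.rel12x hi hj⟩
  · exact ⟨by simp [eF], Y.rel13x hi hj⟩

section

variable [HasExt.{w} X.Modules]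

theorem K3_left (m : ℤ) [(LB (Y.gF ^ m)).IsQuasicoherent] :
    HVan (Y.U 0 ⊔ Y.U 1) (LB (Y.gF ^ m)) 1 := by
  refine LB.hvan_one (HVan.affine (Y.aff 0) _ le_rfl) (HVan.affine (Y.aff 1) _ le_rfl) 0 1
    le_rfl le_rfl (fun s => ?_)
  obtain ⟨a, b, h⟩ := Y.L0.split' s
  exact ⟨a, b, by rw [gF_v01, one_mul, h]⟩

theorem K3_right (m : ℤ) [(LB (Y.gF ^ m)).IsQuasicoherent] :
    HVan (Y.U 2 ⊔ Y.U 3) (LB (Y.gF ^ m)) 1 := by
  refine LB.hvan_one (HVan.affine (Y.aff 2) _ le_rfl) (HVan.affine (Y.aff 3) _ le_rfl) 2 3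
    le_rfl le_rfl (fun s => ?_)
  obtain ⟨a, b, h⟩ := Y.L1.split' s
  exact ⟨a, b, by rw [gF_v23, one_mul, h]⟩

theorem K3_mid (m : ℤ) [(LB (Y.gF ^ m)).IsQuasicoherent] :
    HVan ((Y.U 0 ⊔ Y.U 1) ⊓ (Y.U 2 ⊔ Y.U 3)) (LB (Y.gF ^ m)) 1 := by
  refine HVan.congr Y.w01 (LB.hvan_one (HVan.affine Y.affw0 _ le_rfl)
    (HVan.affine Y.affw1 _ le_rfl) 0 1 (X.basicOpen_le _) (X.basicOpen_le _) (fun s => ?_))
  obtain ⟨a, b, h⟩ := Y.L0.split_loc Polynomial.X (by simp only [L0, cr_C_X])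
    (by simp only [L0, cr_C_X]) (X.basicOpen_le _) (X.basicOpen_le _) s
  refine ⟨a, rO (X.basicOpen_le _) (Y.L0.β Polynomial.X) * b, ?_⟩
  rw [gF_v01, one_mul, h, map_mul, rO_rO]

/-- `H¹(O(m f)) = 0` for `m ≥ -1` -/
theorem K3_one (m : ℤ) (e : ℕ) (he : m + 1 = e) [(LB (Y.gF ^ m)).IsQuasicoherent] :
    HVan (⊤ : X.Opens) (LB (Y.gF ^ m)) 1 := by
  refine HVan.congr Y.cover4 (HVan.one (Y.K3_left m) (Y.K3_right m) (fun s => ?_))
  have hD0 : X.basicOpen (Y.x 0) ≤ (Y.U 0 ⊔ Y.U 1) ⊓ (Y.U 2 ⊔ Y.U 3) :=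
    le_sup_left.trans Y.w01.le
  have hD1 : X.basicOpen (Y.x 1) ≤ (Y.U 0 ⊔ Y.U 1) ⊓ (Y.U 2 ⊔ Y.U 3) :=
    le_sup_right.trans Y.w01.le
  obtain ⟨n, r, h0, h1⟩ := Y.L0.eq_const_loc Polynomial.X (by simp only [L0, cr_C_X])
    (by simp only [L0, cr_C_X]) (X.basicOpen_le _) (X.basicOpen_le _)
    (a := LB.fn s 0 hD0 (X.basicOpen_le _)) (b := LB.fn s 1 hD1 (X.basicOpen_le _)) (by
      rw [LB.rO_fn, LB.rO_fn, LB.fn_eq s 0 1 _ (inf_le_left.trans (X.basicOpen_le _))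
        (inf_le_right.trans (X.basicOpen_le _)), gF_v01, one_mul])
  obtain ⟨f, g, hfg⟩ := laurent_eval.{0, 0} r n
  obtain ⟨a, ha0, ha1⟩ := Y.exists_left m f
  obtain ⟨b, hb2, hb3⟩ := Y.exists_right m (-(Polynomial.X ^ e * g))
  refine ⟨a, b, ?_⟩
  -- the identity on a mixed overlap
  have key : ∀ (i j : Fin 4) (hi' : i = 0 ∨ i = 1) (hj' : j = 2 ∨ j = 3)
      (ha : ∀ (W : X.Opens) (hV : W ≤ Y.U 0 ⊔ Y.U 1) (hi : W ≤ Y.U i),
        LB.fn a i hV hi = Y.c1 i hi f)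
      (hb : ∀ (W : X.Opens) (hV : W ≤ Y.U 2 ⊔ Y.U 3) (hj : W ≤ Y.U j),
        LB.fn b j hV hj = Y.c1 j hj (-(Polynomial.X ^ e * g)))
      (hs : ∀ (W : X.Opens) (hV : W ≤ (Y.U 0 ⊔ Y.U 1) ⊓ (Y.U 2 ⊔ Y.U 3)) (hi : W ≤ Y.U i),
        rO hi (Y.x i) ^ n * LB.fn s i hV hi = Y.c1 i hi r)
      (W : X.Opens) (hV : W ≤ (Y.U 0 ⊔ Y.U 1) ⊓ (Y.U 2 ⊔ Y.U 3)) (hi : W ≤ Y.U i)
      (hj : W ≤ Y.U j), LB.fn s i hV hi =
        LB.fn (rs (LB (Y.gF ^ m)) inf_le_left a - rs (LB (Y.gF ^ m)) inf_le_right b) i hV hi := by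
    intro i j hi' hj' ha hb hs W hV hi hj
    obtain ⟨g1, g2⟩ := Y.gF_mixed i j hi' hj' hi hj
    have e1 := hfg (Y.c1 i hi) (Y.c1 j hj) (Y.c1_C_eq i j hi hj) (by rw [c1_X, c1_X, g2])
    have e2 := hs W hV hi
    have hu : IsUnit (rO hi (Y.x i)) := IsUnit.of_mul_eq_one _ g2
    apply (hu.pow n).mul_left_cancel
    rw [e2, ← e1, c1_X, LB.fn_sub, LB.fn_rs, LB.fn_rs, ha, LB.fn_eq b i j _ hi hj, hb, map_neg,
      map_mul, map_pow, c1_X, mul_neg, sub_neg_eq_add, ← mul_assoc ((Y.gF ^ m).v i j hi hj)]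
    congr 3
    exact (Coc.v_zpow_mul (by rw [g1]; exact g2) he).symm
  have hA0 : ∀ (W : X.Opens) (hV : W ≤ Y.U 0 ⊔ Y.U 1) (hi : W ≤ Y.U 0),
      LB.fn a 0 hV hi = Y.c1 0 hi f := by
    intro W hV hi
    have := congrArg (rO hi) ha0
    rwa [LB.rO_fn, rO_c1] at this
  have hA1 : ∀ (W : X.Opens) (hV : W ≤ Y.U 0 ⊔ Y.U 1) (hi : W ≤ Y.U 1),
      LB.fn a 1 hV hi = Y.c1 1 hi f := by
    intro W hV hi
    have := congrArg (rO hi) ha1
    rwa [LB.rO_fn, rO_c1] at this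
  have hB2 : ∀ (W : X.Opens) (hV : W ≤ Y.U 2 ⊔ Y.U 3) (hi : W ≤ Y.U 2),
      LB.fn b 2 hV hi = Y.c1 2 hi (-(Polynomial.X ^ e * g)) := by
    intro W hV hi
    have := congrArg (rO hi) hb2
    rwa [LB.rO_fn, rO_c1] at this
  have hB3 : ∀ (W : X.Opens) (hV : W ≤ Y.U 2 ⊔ Y.U 3) (hi : W ≤ Y.U 3),
      LB.fn b 3 hV hi = Y.c1 3 hi (-(Polynomial.X ^ e * g)) := by
    intro W hV hi
    have := congrArg (rO hi) hb3
    rwa [LB.rO_fn, rO_c1] at this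
  have hS0 : ∀ (W : X.Opens) (hV : W ≤ (Y.U 0 ⊔ Y.U 1) ⊓ (Y.U 2 ⊔ Y.U 3)) (hi : W ≤ Y.U 0),
      rO hi (Y.x 0) ^ n * LB.fn s 0 hV hi = Y.c1 0 hi r := by
    intro W hV hi
    have hW : W ≤ X.basicOpen (Y.x 0) := by
      rw [← Y.w0]
      exact le_inf hi (hV.trans inf_le_right)
    have := congrArg (rO hW) h0
    simp only [map_mul, map_pow, rO_rO, LB.rO_fn] at this
    simpa only [L0, cr_C_X, c1_apply] using this
  have hS1 : ∀ (W : X.Opens) (hV : W ≤ (Y.U 0 ⊔ Y.U 1) ⊓ (Y.U 2 ⊔ Y.U 3)) (hi : W ≤ Y.U 1),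
      rO hi (Y.x 1) ^ n * LB.fn s 1 hV hi = Y.c1 1 hi r := by
    intro W hV hi
    have hW : W ≤ X.basicOpen (Y.x 1) := by
      rw [← Y.w1]
      exact le_inf hi (hV.trans inf_le_right)
    have := congrArg (rO hW) h1
    simp only [map_mul, map_pow, rO_rO, LB.rO_fn] at this
    simpa only [L0, cr_C_X, c1_apply] using this
  apply LB.fn_ext (W := fun k : Bool × Bool => (if k.1 then Y.U 0 else Y.U 1) ⊓
      (if k.2 then Y.U 2 else Y.U 3)) (fun k => by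
        obtain ⟨k, l⟩ := k
        cases k <;> cases l
        · exact inf_le_inf le_sup_right le_sup_right
        · exact inf_le_inf le_sup_right le_sup_left
        · exact inf_le_inf le_sup_left le_sup_right
        · exact inf_le_inf le_sup_left le_sup_left) Y.mid_le
      (fun k => if k.1 then 0 else 1) (fun k => by
        obtain ⟨k, l⟩ := k
        cases k
        · exact inf_le_left
        · exact inf_le_left)
  intro k
  obtain ⟨k, l⟩ := k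
  cases k <;> cases l
  · exact key 1 3 (Or.inr rfl) (Or.inr rfl) hA1 hB3 hS1 _ _ _ inf_le_right
  · exact key 1 2 (Or.inr rfl) (Or.inl rfl) hA1 hB2 hS1 _ _ _ inf_le_right
  · exact key 0 3 (Or.inl rfl) (Or.inr rfl) hA0 hB3 hS0 _ _ _ inf_le_right
  · exact key 0 2 (Or.inl rfl) (Or.inl rfl) hA0 hB2 hS0 _ _ _ inf_le_right

/-- **(K3)** `H^n(O(m f)) = 0` for `n ≥ 1`, `m ≥ -1` -/
theorem K3 (m : ℤ) (hm : -1 ≤ m) [(LB (Y.gF ^ m)).IsQuasicoherent] (n : ℕ) (hn : 1 ≤ n) :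
    HVan (⊤ : X.Opens) (LB (Y.gF ^ m)) n := by
  obtain ⟨e, he⟩ := Int.eq_ofNat_of_zero_le (show 0 ≤ m + 1 by lia)
  match n with
  | 0 => omega
  | 1 => exact Y.K3_one m e he
  | 2 =>
    exact (HVan.sup (Y.K3_mid m) (Y.hvan_left _ le_rfl) (Y.hvan_right _ le_rfl)).congr Y.cover4
  | n + 3 => exact Y.hvan_three _ (by omega)

end

/-! ### global sections -/

theorem c1_laurent : IsLaurent (Y.c1 0 (inf_le_left : Y.U 0 ⊓ Y.U 2 ≤ Y.U 0))
    (rO (inf_le_right : Y.U 0 ⊓ Y.U 2 ≤ Y.U 2) (Y.x 2)) where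
  unit := by
    rw [c1_X]
    exact Y.r02x
  inj := by
    rw [injective_iff_map_eq_zero]
    intro f hf
    obtain ⟨n, hn⟩ := bo_unique (Y.aff 0) _ Y.b02 inf_le_left (Y.cr 0 (Polynomial.C f)) hf
    rw [← cr_C_X, ← map_pow, ← map_mul, ← map_pow, ← map_mul] at hn
    have h1 : Polynomial.C (Polynomial.X ^ n * f) = 0 :=
      (Y.cr_bij 0).injective (by rw [hn, map_zero])
    rw [Polynomial.C_eq_zero] at h1
    have h2 : (Polynomial.X ^ n : Polynomial (A : Type)) ∈ nonZeroDivisors _ :=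
      pow_mem Polynomial.X_mem_nonzeroDivisors n
    exact (mul_left_mem_nonZeroDivisors_eq_zero_iff h2).1 h1

theorem c1_eval (g : Polynomial (A : Type)) :
    g.eval₂ ((Y.c1 0 (inf_le_left : Y.U 0 ⊓ Y.U 2 ≤ Y.U 0)).comp Polynomial.C)
      (rO (inf_le_right : Y.U 0 ⊓ Y.U 2 ≤ Y.U 2) (Y.x 2)) = Y.c1 2 inf_le_right g := by
  have h : (Polynomial.eval₂RingHom ((Y.c1 0 (inf_le_left : Y.U 0 ⊓ Y.U 2 ≤ Y.U 0)).comp
      Polynomial.C) (rO (inf_le_right : Y.U 0 ⊓ Y.U 2 ≤ Y.U 2) (Y.x 2))) =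
      Y.c1 2 inf_le_right := by
    apply Polynomial.ringHom_ext
    · intro a
      simp
    · simp
  exact congr($h g)

/-- global sections of `O(m f)` -/
theorem exists_glob (m : ℤ) (s : Γ(LB (Y.gF ^ m), (⊤ : X.Opens))) :
    ∃ r r' : Polynomial (A : Type), LB.fn s 0 le_top le_rfl = Y.c1 0 le_rfl r ∧
      LB.fn s 1 le_top le_rfl = Y.c1 1 le_rfl r ∧ LB.fn s 2 le_top le_rfl = Y.c1 2 le_rfl r' ∧
      LB.fn s 3 le_top le_rfl = Y.c1 3 le_rfl r' := by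
  obtain ⟨r, h0, h1⟩ := Y.L0.eq_const (a := LB.fn s 0 le_top le_rfl)
    (b := LB.fn s 1 le_top le_rfl) (by
      rw [LB.rO_fn, LB.rO_fn, LB.fn_eq s 0 1 _ inf_le_left inf_le_right, gF_v01, one_mul])
  obtain ⟨r', h2, h3⟩ := Y.L1.eq_const (a := LB.fn s 2 le_top le_rfl)
    (b := LB.fn s 3 le_top le_rfl) (by
      rw [LB.rO_fn, LB.rO_fn, LB.fn_eq s 2 3 _ inf_le_left inf_le_right, gF_v23, one_mul])
  refine ⟨r, r', ?_, ?_, ?_, ?_⟩
  · rw [h0, c1_apply, rO_self]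
    rfl
  · rw [h1, c1_apply, rO_self]
    rfl
  · rw [h2, c1_apply, rO_self]
    rfl
  · rw [h3, c1_apply, rO_self]
    rfl

/-- **(K3)** `H⁰(O(-f)) = 0` -/
theorem K3_zero [HasExt.{w} X.Modules] : HVan (⊤ : X.Opens) (LB (Y.gF ^ (-1 : ℤ))) 0 := by
  intro α
  apply (secEquiv _ _).injective
  rw [secEquiv_zero]
  set s := secEquiv _ _ α with hs
  obtain ⟨r, r', h0, h1, h2, h3⟩ := Y.exists_glob (-1) s
  have e1 := LB.fn_eq s 0 2 (W := Y.U 0 ⊓ Y.U 2) le_top inf_le_left inf_le_right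
  have e2 : (Y.gF ^ (-1 : ℤ)).v 0 2 (inf_le_left : Y.U 0 ⊓ Y.U 2 ≤ Y.U 0) inf_le_right =
      rO (inf_le_right : Y.U 0 ⊓ Y.U 2 ≤ Y.U 2) (Y.x 2) := by
    have h4 := Y.gF_mixed 0 2 (Or.inl rfl) (Or.inl rfl) (W := Y.U 0 ⊓ Y.U 2) inf_le_left
      inf_le_right
    have h5 := Coc.v_zpow_mul (e := 0) (m := -1) (by rw [h4.1]; exact h4.2) (by simp)
    rwa [pow_zero, mul_one] at h5
  rw [e2, ← LB.rO_fn s 0 le_top le_rfl inf_le_left, ← LB.rO_fn s 2 le_top le_rfl inf_le_right,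
    h0, h2, rO_c1, rO_c1, ← Y.c1_eval r'] at e1
  obtain ⟨rfl, rfl⟩ := Y.c1_laurent.eq_zero e1
  apply LB.fn_ext (W := Y.U) (fun _ => le_top) Y.cover.ge id (fun _ => le_rfl)
  intro k
  fin_cases k
  · exact h0.trans (by simp)
  · exact h1.trans (by simp)
  · exact h2.trans (by simp)
  · exact h3.trans (by simp)

include Y in
/-- **(K0)** global functions -/
theorem K0 : Function.Bijective (str π (⊤ : X.Opens)) := by
  constructor
  · rw [injective_iff_map_eq_zero]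
    intro a ha
    have h1 := congrArg (rO (le_top : Y.U 0 ≤ ⊤)) ha
    rw [rO_str, map_zero, ← Y.cr_C_C 0] at h1
    have h2 := (Y.cr_bij 0).injective (h1.trans (map_zero _).symm)
    rwa [Polynomial.C_eq_zero, Polynomial.C_eq_zero] at h2
  · intro s
    obtain ⟨r, h0, h1⟩ := Y.L0.eq_const (a := rO le_top s) (b := rO le_top s) (by
      rw [rO_rO, rO_rO])
    obtain ⟨r', h2, h3⟩ := Y.L1.eq_const (a := rO le_top s) (b := rO le_top s) (by
      rw [rO_rO, rO_rO])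
    have e1 : Y.c1 0 (inf_le_left : Y.U 0 ⊓ Y.U 2 ≤ Y.U 0) r =
        r'.eval₂ ((Y.c1 0 (inf_le_left : Y.U 0 ⊓ Y.U 2 ≤ Y.U 0)).comp Polynomial.C)
          (rO (inf_le_right : Y.U 0 ⊓ Y.U 2 ≤ Y.U 2) (Y.x 2)) := by
      rw [c1_eval, c1_apply, c1_apply]
      change rO _ (Y.L0.α _) = rO _ (Y.L1.α _)
      rw [← h0, ← h2, rO_rO, rO_rO]
    obtain ⟨a, rfl, rfl⟩ := Y.c1_laurent.const e1
    refine ⟨a, ?_⟩
    have h4 : toOX (str π (⊤ : X.Opens) a) = toOX s := by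
      apply Fdim.sec_ext (OX X) (U := Y.U) (fun _ => le_top) Y.cover.ge
      intro k
      rw [rs_toOX, rs_toOX, rO_str]
      fin_cases k
      · exact congrArg toOX ((Y.cr_C_C 0 a).symm.trans h0.symm)
      · exact congrArg toOX ((Y.cr_C_C 1 a).symm.trans h1.symm)
      · exact congrArg toOX ((Y.cr_C_C 2 a).symm.trans h2.symm)
      · exact congrArg toOX ((Y.cr_C_C 3 a).symm.trans h3.symm)
    exact h4

section

variable [HasExt.{w} X.Modules]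

theorem _root_.Fdim.Coh.HVan.of_iso {M N : X.Modules} (e : M ≅ N) {U : X.Opens} {n : ℕ}
    (h : HVan U M n) : HVan U N n := by
  intro α
  have h1 := h (α.comp (Ext.mk₀ e.inv) (add_zero n))
  have h2 : α = (α.comp (Ext.mk₀ e.inv) (add_zero n)).comp (Ext.mk₀ e.hom) (add_zero n) := by
    rw [Ext.comp_assoc_of_third_deg_zero, Ext.mk₀_comp_mk₀, e.inv_hom_id, Ext.comp_mk₀_id]
  rw [h2, h1, Ext.zero_comp]

omit [HasExt.{w} X.Modules] in
theorem quasicoherent_LB (g : Coc Y.U) : (LB g).IsQuasicoherent := by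
  have : (OX X).IsQuasicoherent := isQuasicoherent_unit
  exact Coc.isQuasicoherent_tw g Y.cover (OX X)

include Y in
/-- **(K1)** `H^n(O) = 0` for `n ≥ 1` -/
theorem K1 (n : ℕ) (hn : 1 ≤ n) : HVan (⊤ : X.Opens) (OX X) n := by
  have : IsCov Y.U := ⟨Y.cover⟩
  have hq := Y.quasicoherent_LB (Y.gF ^ (0 : ℤ))
  exact (Y.K3 0 (by lia) n hn).of_iso (Coc.oneIsoApp (zpow_zero Y.gF) (OX X)).symm

/-- **(K2)** in the form `H^n(O(-C∞ + m f)) = 0`, all `n`, `m` -/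
theorem hvan_K2 (m : ℤ) (n : ℕ) : HVan (⊤ : X.Opens) (LB (Y.gC⁻¹ * Y.gF ^ m)) n := by
  have hq := Y.quasicoherent_LB (Y.gK2 m)
  exact Y.K2 m n

/-- **(K3)** in the form `H^n(O(-f)) = 0`, all `n` -/
theorem hvan_K3 (n : ℕ) : HVan (⊤ : X.Opens) (LB Y.gF⁻¹) n := by
  rw [← zpow_neg_one]
  match n with
  | 0 => exact Y.K3_zero
  | n + 1 =>
    have hq := Y.quasicoherent_LB (Y.gF ^ (-1 : ℤ))
    exact Y.K3 (-1) le_rfl (n + 1) (by omega)

/-- `H^n(O(m f)) = 0` for `n ≥ 1`, `m ≥ -1` -/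
theorem hvan_mF (m : ℤ) (hm : -1 ≤ m) (n : ℕ) (hn : 1 ≤ n) :
    HVan (⊤ : X.Opens) (LB (Y.gF ^ m)) n := by
  have hq := Y.quasicoherent_LB (Y.gF ^ m)
  exact Y.K3 m hm n hn

theorem _root_.Fdim.Coh.HVan.subsingleton {M : X.Modules} {n : ℕ}
    (h : HVan (⊤ : X.Opens) M n) : Subsingleton (Ext (OX X) M n) := by
  refine ⟨fun a b => ?_⟩
  have e : ∀ c : Ext (OX X) M n, c = 0 := by
    intro c
    have h1 := h ((Ext.mk₀ zTopIso.hom).comp c (zero_add n))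
    have h2 : c = (Ext.mk₀ zTopIso.inv).comp ((Ext.mk₀ zTopIso.hom).comp c (zero_add n))
        (zero_add n) := by
      rw [Ext.mk₀_comp_mk₀_assoc, Iso.inv_hom_id, Ext.mk₀_id_comp]
    rw [h2, h1, Ext.comp_zero]
  rw [e a, e b]

include Y in
theorem sub_K1 (p : ℕ) (hp : 1 ≤ p) : Subsingleton (Ext (OX X) (OX X) p) :=
  (Y.K1 p hp).subsingleton

theorem sub_K2 (m : ℤ) (p : ℕ) : Subsingleton (Ext (OX X) (LB (Y.gC⁻¹ * Y.gF ^ m)) p) :=
  (Y.hvan_K2 m p).subsingleton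

theorem sub_K3 (p : ℕ) : Subsingleton (Ext (OX X) (LB Y.gF⁻¹) p) :=
  (Y.hvan_K3 p).subsingleton

end

end YCharts

end Fdim
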